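import Pool.Agent.Helper50.Drop.Defs

/-!
# Continuously differentiable loops
-/

set_option autoImplicit false

namespace Pool.Agent.Helper50.Drop

/-- extension of a function on the unit interval to the real line -/
noncomputable def ext01 {V : Type*} [TopologicalSpace V] (f : C(unitInterval, V)) (t : ℝ) : V :=
  f (Set.projIcc 0 1 zero_le_one t)

/-- `C¹` loops in `S^n`, given by the loop and its derivative -/
def CL (n : ℕ) : Type :=
  {p : C(unitInterval, E n) × C(unitInterval, E n) // (∀ t, ‖p.1 t‖ = 1) ∧ p.1 1 = p.1 0 ∧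
    ∀ t ∈ Set.Icc (0 : ℝ) 1, HasDerivWithinAt (ext01 p.1) (ext01 p.2 t) (Set.Icc 0 1) t}

noncomputable instance (n : ℕ) : TopologicalSpace (CL n) :=
  inferInstanceAs (TopologicalSpace {p : C(unitInterval, E n) × C(unitInterval, E n) //
    (∀ t, ‖p.1 t‖ = 1) ∧ p.1 1 = p.1 0 ∧
    ∀ t ∈ Set.Icc (0 : ℝ) 1, HasDerivWithinAt (ext01 p.1) (ext01 p.2 t) (Set.Icc 0 1) t})

/-- the loop -/
def CL.pos {n : ℕ} (γ : CL n) : C(unitInterval, E n) := γ.1.1

/-- the velocity -/
def CL.vel {n : ℕ} (γ : CL n) : C(unitInterval, E n) := γ.1.2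

/-- pairs `(γ, q)`, `q ∈ S^n` not on the loop `γ` -/
def offA (n : ℕ) : Set (CL n × E n) := {p | ‖p.2‖ = 1 ∧ ∀ t, p.1.pos t ≠ p.2}

end Pool.Agent.Helper50.Drop
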