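import Pool.Agent.Helper50.Drop.Trans

/-!
# The class and its multiple
-/

set_option autoImplicit false
set_option linter.unusedSimpArgs false

namespace Pool.Agent.Helper50.Drop

open scoped RealInnerProductSpace
open Finset
open Pool.Agent.Helper76.Freq (Q ins tr sh continuous_ins continuous_tr ext continuous_ext
  ext_insertNth R3)

/-! ## the cubes of the cycle `zz` -/

/-- loops at the levels `± 1` -/
def pm : Set (CL 4) := {γ | ∀ t, Hf (γ.pos t) = 1 ∨ Hf (γ.pos t) = -1}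

theorem Hf_ver5 {v a : R3} (hv : ‖v‖ = 1) (ha : ‖a‖ = 1) (t : ℝ) :
    Hf (ver5 (Rot v (2 * Real.pi * t) a)) = 1 := by
  rw [← lp_top v a a t, Hf_lp hv ha ha (Or.inr (Or.inl rfl)), sqrt_four]
  norm_num

theorem Hf_neg_ver5 {v a : R3} (hv : ‖v‖ = 1) (ha : ‖a‖ = 1) (t : ℝ) :
    Hf (- ver5 (Rot v (2 * Real.pi * t) a)) = -1 := by
  rw [← lp_bot v a a t, Hf_lp hv ha ha (Or.inr (Or.inr rfl)), show ((-1 : ℝ)) ^ 2 = 1 ^ 2 by norm_num,
    sqrt_four]
  norm_num

section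
variable {Z : Type*} [TopologicalSpace Z]

theorem TL_pm (v a : Z → R3) (hv : Continuous v) (ha : Continuous a) (nv : ∀ z, ‖v z‖ = 1)
    (na : ∀ z, ‖a z‖ = 1) (z : Z) : TL v a hv ha nv na z ∈ pm := by
  intro t
  rw [TL_pos]
  exact Or.inl (Hf_ver5 (nv z) (na z) t)

theorem BL_pm (v a : Z → R3) (hv : Continuous v) (ha : Continuous a) (nv : ∀ z, ‖v z‖ = 1)
    (na : ∀ z, ‖a z‖ = 1) (z : Z) : BL v a hv ha nv na z ∈ pm := by
  intro t
  rw [BL_pos]
  exact Or.inr (Hf_neg_ver5 (nv z) (na z) t)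

theorem TL_lev (v a : Z → R3) (hv : Continuous v) (ha : Continuous a) (nv : ∀ z, ‖v z‖ = 1)
    (na : ∀ z, ‖a z‖ = 1) (z : Z) : IsLev (TL v a hv ha nv na z) := by
  intro t t'
  rw [TL_pos, TL_pos, Hf_ver5 (nv z) (na z), Hf_ver5 (nv z) (na z)]

theorem BL_lev (v a : Z → R3) (hv : Continuous v) (ha : Continuous a) (nv : ∀ z, ‖v z‖ = 1)
    (na : ∀ z, ‖a z‖ = 1) (z : Z) : IsLev (BL v a hv ha nv na z) := by
  intro t t'
  rw [BL_pos, BL_pos, Hf_neg_ver5 (nv z) (na z), Hf_neg_ver5 (nv z) (na z)]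

end

/-- the cubes of `zc` are in `S` as soon as all top and bottom families are -/
theorem zc_supported (S : Set (CL 4)) (h1 : ∀ x, D2c x ∈ S) (h2 : ∀ x, Cc x ∈ S)
    (h3 : ∀ x, NCc x ∈ S) (h4 : ∀ p, Fk p ∈ S) (h5 : ∀ p, Fd p ∈ S) (h6 : ∀ p, NFk p ∈ S)
    (h7 : ∀ p, NFd p ∈ S) : zc ∈ Finsupp.supported ℤ ℤ {c : C(Q, CL 4) | ∀ x, c x ∈ S} := by
  unfold zc
  refine Submodule.add_mem _ (Submodule.sub_mem _ (Submodule.sub_mem _ (Submodule.add_mem _
    (Submodule.add_mem _ (Submodule.sub_mem _ ?_ ?_) ?_) (AP_supp Fk S h4)) (AP_supp Fd S h5))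
    (AP_supp NFk S h6)) (AP_supp NFd S h7)
  · exact Finsupp.single_mem_supported ℤ _ h1
  · exact Finsupp.single_mem_supported ℤ _ h2
  · exact Finsupp.single_mem_supported ℤ _ h3

theorem zc_pm : zc ∈ Finsupp.supported ℤ ℤ {c : C(Q, CL 4) | ∀ x, c x ∈ pm} :=
  zc_supported pm (fun x => BL_pm _ _ _ _ _ _ x) (fun x => TL_pm _ _ _ _ _ _ x)
    (fun x => BL_pm _ _ _ _ _ _ x) (fun x => TL_pm _ _ _ _ _ _ x) (fun x => TL_pm _ _ _ _ _ _ x)
    (fun x => BL_pm _ _ _ _ _ _ x) (fun x => BL_pm _ _ _ _ _ _ x)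

theorem zz_lev : zz ∈ Finsupp.supported ℤ ℤ {c : C(Q, CL 4) | ∀ x, c x ∈ {γ | IsLev γ}} := by
  unfold zz
  refine Submodule.add_mem _ (Finsupp.single_mem_supported ℤ _ fun x => ?_)
    (zc_supported {γ | IsLev γ} (fun x => BL_lev _ _ _ _ _ _ x) (fun x => TL_lev _ _ _ _ _ _ x)
    (fun x => BL_lev _ _ _ _ _ _ x) (fun x => TL_lev _ _ _ _ _ _ x) (fun x => TL_lev _ _ _ _ _ _ x)
    (fun x => BL_lev _ _ _ _ _ _ x) (fun x => BL_lev _ _ _ _ _ _ x))
  exact isLev_LL _ _ _ _ _ _ _ _ _ x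

/-! ## the pair -/

theorem pm_avoid {γ : CL 4} (h : γ ∈ pm) (t : unitInterval) : γ.pos t ≠ p23 := by
  intro h1
  have h2 : Hf p23 = 0 := Hf_mk norm_e2 norm_e1 inner_e2_e1
  have h3 := h t
  rw [h1, h2] at h3
  norm_num at h3

theorem push_supported {Y Y' : Type*} [TopologicalSpace Y] [TopologicalSpace Y'] (f : C(Y, Y'))
    {S : Set C(Q, Y)} {S' : Set C(Q, Y')} (h : ∀ c ∈ S, f.comp c ∈ S') {z : QC Y}
    (hz : z ∈ Finsupp.supported ℤ ℤ S) : push f z ∈ Finsupp.supported ℤ ℤ S' := by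
  refine supported_le (push f) S (Finsupp.supported ℤ ℤ S') (fun c hc => ?_) hz
  rw [push_single]
  exact Finsupp.single_mem_supported ℤ _ (h c hc)

theorem zc_inA : push (iota p23) zc ∈ inA (offA 4) mq 3 :=
  push_supported (iota p23) (S := {c : C(Q, CL 4) | ∀ x, c x ∈ pm})
    (S' := {c : C(Q, W4) | (∀ x, c x ∈ offA 4) ∧ IsDeg 3 (fun x => mq (c x))})
    (fun c hc => ⟨fun x => mem_offA norm_p23 (pm_avoid (hc x)), ⟨0, by norm_num, fun _ _ _ => rfl⟩⟩)
    zc_pm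

/-- the projection -/
def prj : C(W4, CL 4) := ⟨Prod.fst, continuous_fst⟩

theorem push_prj (p : E 4) (z : QC (CL 4)) : push prj (push (iota p) z) = z := by
  have : (push prj).comp (push (iota p)) = LinearMap.id := by
    refine lin_ext fun c => ?_
    rw [LinearMap.comp_apply, push_single, push_single]
    rfl
  exact LinearMap.congr_fun this z

theorem bdZero_sph : BdZero sph :=
  ⟨fun _ => sph_zero_x (Or.inl rfl), fun _ => sph_zero_x (Or.inr (Or.inr rfl)),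
    fun _ => sph_zero_y (Or.inl rfl), fun _ => sph_zero_y (Or.inr (Or.inr (Or.inr (Or.inr rfl))))⟩

/-- chains with faces in `A` -/
theorem bd3_mem (p : E 4) (c : C(Q, CL 4)) (S : Submodule ℤ (QC W4))
    (h : ∀ j < 3, ∀ e : unitInterval, (e = 0 ∨ e = 1) →
      Finsupp.single ((iota p).comp (face j e c)) (1 : ℤ) ∈ S) :
    bd 3 (push (iota p) (Finsupp.single c 1)) ∈ S := by
  rw [bd_push, bd3]
  simp only [map_add, map_sub, push_single]
  have k : ∀ j < 3, ∀ e : unitInterval, (e = 0 ∨ e = 1) →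
      Finsupp.single ((iota p).comp (face j e c)) (1 : ℤ) ∈ S := h
  exact Submodule.add_mem _ (Submodule.sub_mem _
    (Submodule.sub_mem _ (k 0 (by norm_num) 1 (Or.inr rfl)) (k 0 (by norm_num) 0 (Or.inl rfl)))
    (Submodule.sub_mem _ (k 1 (by norm_num) 1 (Or.inr rfl)) (k 1 (by norm_num) 0 (Or.inl rfl))))
    (Submodule.sub_mem _ (k 2 (by norm_num) 1 (Or.inr rfl)) (k 2 (by norm_num) 0 (Or.inl rfl)))

theorem D1c_face {j : ℕ} (hj : j < 3) {e : unitInterval} (he : e = 0 ∨ e = 1) (x : Q)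
    (t : unitInterval) : (face j e D1c x).pos t ≠ p23 := by
  rw [face_apply, D1c_pos]
  exact avoid (norm_sph _ _) (abs_two_sub_one _) (face_avoid bdZero_sph hj he x)

theorem D1c_bd : bd 3 (push (iota p23) (Finsupp.single D1c 1)) ∈ inA' (offA 4) := by
  have h : bd 3 (push (iota p23) (Finsupp.single D1c 1)) ∈
      Finsupp.supported ℤ ℤ {c : C(Q, W4) | ∀ x, c x ∈ offA 4} := by
    refine bd3_mem p23 D1c _ fun j hj e he => ?_
    exact Finsupp.single_mem_supported ℤ _ fun x => mem_offA norm_p23 (D1c_face hj he x)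
  exact h

theorem vB_ne_x0 (y : unitInterval) : vB 0 y ≠ v0 := by
  have := vu_ne_x0 1 y
  rwa [Set.Icc.coe_one, vu_one] at this
theorem vB_ne_x1 (y : unitInterval) : vB 1 y ≠ v0 := by
  have := vu_ne_x1 1 y
  rwa [Set.Icc.coe_one, vu_one] at this
theorem vB_ne_y0 (x : unitInterval) : vB x 0 ≠ v0 := by
  have := vu_ne_y0 1 x
  rwa [Set.Icc.coe_one, vu_one] at this
theorem vB_ne_y1 (x : unitInterval) : vB x 1 ≠ v0 := by
  have := vu_ne_y1 1 x
  rwa [Set.Icc.coe_one, vu_one] at this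

theorem vB_nonneg (x y : unitInterval) (i : Fin 3) : 0 ≤ vB x y i := by
  have := vu_nonneg 1 x y i
  rwa [Set.Icc.coe_one, vu_one] at this

theorem DBc_face {j : ℕ} (hj : j < 3) {e : unitInterval} (he : e = 0 ∨ e = 1) (x : Q)
    (t : unitInterval) : (face j e DBc x).pos t ≠ qpi := by
  rw [face_apply, DBc_pos]
  intro h
  rw [qpi_eq] at h
  obtain ⟨hs, hv, -⟩ := hit1 (norm_vB _ _) (vB_nonneg _ _) (abs_sub_half _) t.2 Real.pi_pos
    (by linarith [Real.pi_pos]) h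
  have hj' : j = 0 ∨ j = 1 ∨ j = 2 := by omega
  rcases hj' with rfl | rfl | rfl
  · rw [ins0, if_pos rfl] at hv
    rcases he with rfl | rfl
    · exact vB_ne_x0 _ hv
    · exact vB_ne_x1 _ hv
  · rw [ins1, if_neg one_ne_zero, if_pos rfl] at hv
    rcases he with rfl | rfl
    · exact vB_ne_y0 _ hv
    · exact vB_ne_y1 _ hv
  · rw [ins2, if_neg two_ne_zero, if_neg (by norm_num), if_pos rfl] at hs
    rcases he with rfl | rfl <;> norm_num at hs

/-- the marked cube -/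
noncomputable def aB : QC W4 := push (iota qpi) (Finsupp.single DBc 1)

/-- cubes off the marked point `qpi` -/
def offq : Set C(Q, W4) := {c | (∀ x, c x ∈ offA 4) ∧ ∀ x, (c x).2 = qpi}

theorem aB_bd' : bd 3 aB ∈ Finsupp.supported ℤ ℤ offq := by
  refine bd3_mem qpi DBc _ fun j hj e he => ?_
  exact Finsupp.single_mem_supported ℤ _
    ⟨fun x => mem_offA qpi_norm (DBc_face hj he x), fun x => rfl⟩

theorem aB_bd : bd 3 aB ∈ inA (offA 4) mq 2 := by
  have h : offq ⊆ {c : C(Q, W4) | (∀ x, c x ∈ offA 4) ∧ IsDeg 2 (fun x => mq (c x))} := by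
    rintro c ⟨h1, h2⟩
    refine ⟨h1, ⟨0, by norm_num, fun x x' _ => ?_⟩⟩
    change (c x).2 = (c x').2
    rw [h2, h2]
  exact Finsupp.supported_mono h aB_bd'

section contraction

variable {κ : C(offA 4 × unitInterval, CL 4)}

/-- the cycle `X₀` -/
noncomputable def X0 (κ : C(offA 4 × unitInterval, CL 4)) : QC (CL 4) :=
  push prj aB + Kop κ 2 (bd 3 aB)

theorem X0_bd (hκ : ∀ a : offA 4, κ (a, 0) = a.1.1)
    (hq : ∀ a b : offA 4, a.1.2 = b.1.2 → κ (a, 1) = κ (b, 1)) : bd 3 (X0 κ) ∈ nul (Y := CL 4) 2 :=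
  bd_X κ (pr := prj) hκ (q := mq) hq aB_bd

/-- **the cycle of level loops is homologous to eight times `X₀`** -/
theorem zz_eight (hκ : ∀ a : offA 4, κ (a, 0) = a.1.1)
    (hq : ∀ a b : offA 4, a.1.2 = b.1.2 → κ (a, 1) = κ (b, 1)) :
    zz - (8 : ℤ) • X0 κ ∈ HZ (Y := CL 4) 3 := by
  have hb1 := D1c_bd
  have hb2 := inA_le _ _ _ aB_bd
  have h1 := relZ_compare κ (pr := prj) hκ (q := mq) hq
    (a := push (iota p23) (Finsupp.single D1c 1)) (c := push (iota p23) zc) zc_inA hb1 (by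
      rw [← map_add, bd_push]
      exact push_nul _ (deg_le_nul _ bd_zz))
  have h2 := relX κ (pr := prj) hκ (q := mq) hq eight (by
    rw [map_sub, map_smul]
    exact Submodule.sub_mem _ hb1 (Submodule.smul_mem _ _ hb2))
  rw [← map_add, push_prj] at h1
  change zz - _ ∈ _ at h1
  have e : zz - (8 : ℤ) • X0 κ = (zz - (push prj (push (iota p23) (Finsupp.single D1c 1)) +
      Kop κ 2 (bd 3 (push (iota p23) (Finsupp.single D1c 1))))) +
      (push prj (push (iota p23) (Finsupp.single D1c 1) - (8 : ℤ) • aB) +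
      Kop κ 2 (bd 3 (push (iota p23) (Finsupp.single D1c 1) - (8 : ℤ) • aB))) := by
    unfold X0
    simp only [map_sub, map_smul, smul_add]
    abel
  rw [e]
  exact Submodule.add_mem _ h1 h2

/-- the cubes of the contraction avoid `qpi` -/
theorem Kop_avoid (hav : ∀ (a : offA 4) h t, (κ (a, h)).pos t ≠ a.1.2) (d : ℕ) {z : QC W4}
    (hz : z ∈ Finsupp.supported ℤ ℤ offq) : Kop κ d z ∈
      Finsupp.supported ℤ ℤ {c : C(Q, CL 4) | ∀ x t, (c x).pos t ≠ qpi} := by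
  refine supported_le (Kop κ d) offq
    (Finsupp.supported ℤ ℤ {c : C(Q, CL 4) | ∀ x t, (c x).pos t ≠ qpi}) (fun c hc => ?_) hz
  rw [Kop_single κ d c hc.1]
  refine Finsupp.single_mem_supported ℤ _ fun x t => ?_
  have := hav ⟨c (tr d x), hc.1 _⟩ (x d) t
  intro h
  exact this (h.trans (hc.2 (tr d x)).symm)

end contraction

end Pool.Agent.Helper50.Drop
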