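import Pool.Agent.Helper50.Drop.Defs
import Pool.Agent.Helper76.Freq.Ver
import Pool.Agent.Helper76.Freq.Ev

/-!
# The cochains on `S^4` and on the loop space
-/

set_option autoImplicit false

namespace Pool.Agent.Helper50.Drop

open Finset
open scoped RealInnerProductSpace
open Pool.Agent.Helper76.Freq (Q ins tr gr ev cobd cup Pr Adm gp Dep Nrm R3 E6 ver pt qf IsTop IsBot
  H4 exists_isTop exists_isBot)

/-! ## points of `S^4` -/

/-- `ℝ^5 ⊂ ℝ^7` -/
noncomputable def emb (v : E 4) : E6 := !₂[v 0, v 1, v 2, v 3, v 4, 0, 0]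

/-- the cubic form on `ℝ^5` -/
noncomputable def Hf (v : E 4) : ℝ := H4 (emb v)

/-- the Veronese point of a vector -/
noncomputable def ver5 (a : R3) : E 4 := !₂[ver a 0, ver a 1, ver a 2, ver a 3, ver a 4]

/-! ## top and bottom vectors with sign normalisation -/

open Classical in
/-- a unit top vector, on the positive side of the plane orthogonal to `u` -/
noncomputable def topv (u : R3) (y : E 4) : R3 :=
  if ⟪(exists_isTop (emb y)).choose, u⟫ < 0 then -(exists_isTop (emb y)).choose
  else (exists_isTop (emb y)).choose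

open Classical in
/-- a unit bottom vector, on the positive side of the plane orthogonal to `w` -/
noncomputable def botv (w : R3) (y : E 4) : R3 :=
  if ⟪(exists_isBot (emb y)).choose, w⟫ < 0 then -(exists_isBot (emb y)).choose
  else (exists_isBot (emb y)).choose

noncomputable def uA : R3 := !₂[4, 1, 1]
noncomputable def uB : R3 := !₂[1, 1, 4]
noncomputable def uC : R3 := !₂[1, -1, 0]
/-- top vector of the marked point -/
noncomputable def a0 : R3 := !₂[-1 / 3, 2 / 3, 2 / 3]
/-- bottom vector of the marked point -/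
noncomputable def b0 : R3 := !₂[2 / 3, 2 / 3, -1 / 3]
/-- the marked point -/
noncomputable def qpi : E 4 := (√3)⁻¹ • (ver5 a0 - ver5 b0)

/-! ## mod `2` cochains -/

/-- the `1`-cochain of the top line -/
noncomputable def cA (y y' : E 4) : ZMod 2 := if ⟪topv uA y, topv uA y'⟫ < 0 then 1 else 0
/-- the `1`-cochain of the bottom line -/
noncomputable def cB (y y' : E 4) : ZMod 2 := if ⟪botv uB y, botv uB y'⟫ < 0 then 1 else 0
/-- the `1`-cochain of the bottom line, other sections -/
noncomputable def cC (y y' : E 4) : ZMod 2 := if ⟪botv uC y, botv uC y'⟫ < 0 then 1 else 0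
open Classical in
/-- the difference of the sections -/
noncomputable def gg (y : E 4) : ZMod 2 := if botv uB y = botv uC y then 0 else 1
/-- `1` in the upper half -/
noncomputable def chi (y : E 4) : ZMod 2 := if 0 < Hf y then 1 else 0

/-- a function of pairs as a cochain of degree `1` -/
def c1 {Y : Type} {R : Type*} (a : Y → Y → R) (y : ℕ → Y) : R := a (y 0) (y 1)

/-- the mod `2` cochain of degree `3` -/
noncomputable def th : (ℕ → E 4) → ZMod 2 := cup 1 (c1 cC) (cup 1 (c1 cB) (c1 cA))

/-- the mod `2` cochain of degree `4` -/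
noncomputable def om2 : (ℕ → E 4) → ZMod 2 := cup 1 (cobd 0 fun y => chi (y 0)) th

/-! ## the integral cochain -/

noncomputable def hX (y : E 4) : ℤ := if 0 < Hf y then 1 else 0
noncomputable def hC (y : E 4) : ℤ := if 0 < ⟪botv uC y, b0⟫ then 1 else 0
noncomputable def hB (y : E 4) : ℤ := if 0 < ⟪botv uB y, b0⟫ then 1 else 0
noncomputable def hA (y : E 4) : ℤ := if 0 < ⟪topv uA y, a0⟫ then 1 else 0

/-- product of four coboundaries of functions -/
def prod4 {Y : Type} (f₁ f₂ f₃ f₄ : Y → ℤ) (y : ℕ → Y) : ℤ :=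
  (f₁ (y 1) - f₁ (y 0)) * ((f₂ (y 2) - f₂ (y 1)) * ((f₃ (y 3) - f₃ (y 2)) * (f₄ (y 4) - f₄ (y 3))))

open Classical in
/-- the integral cochain of degree `4` -/
noncomputable def omZ (y : ℕ → E 4) : ℤ :=
  if ∀ i < 5, ‖y i - qpi‖ < 1 / 140 then prod4 hX hC hB hA y else 0

/-! ## cochains on the loop space -/

/-- the point of the loop at the time `j / N` -/
noncomputable def pnt (N j : ℕ) (γ : LoopSpace 4) : E 4 := curve γ.1 (gr N j)

/-- integration of a cochain of degree `d + 1` along loops -/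
noncomputable def Phi {R : Type*} [CommRing R] (d N : ℕ) (φ : (ℕ → E 4) → R) (γ : ℕ → LoopSpace 4) :
    R := ∑ k ∈ range N, Pr (d + 1) φ fun i => (pnt N k (γ i), pnt N (k + 1) (γ i))

/-- evaluation of cochains on chains, on grids with `M` steps -/
noncomputable def evc {R : Type*} [CommRing R] {Y : Type} (M d : ℕ) (Φ : (ℕ → Y) → R) :
    (Cube Y d →₀ ℤ) →ₗ[ℤ] R :=
  Finsupp.linearCombination ℤ fun c : Cube Y d => ev d (fun _ => M) Φ fun x : Q => c fun i => x i

/-- the loops `γ 0, …, γ d` are close to each other and vary little on time intervals of length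
`1 / N` -/
def Small (δ : ℝ) (N d : ℕ) (γ : ℕ → LoopSpace 4) : Prop :=
  ∀ i ≤ d, ∀ j ≤ d, ∀ t t' : unitInterval, |(t : ℝ) - t'| ≤ 1 / N →
    ‖curve (γ i).1 t - curve (γ j).1 t'‖ < δ

/-! ## the parity identity -/

/-- partial sums of `b` along the loop `x` -/
def psum {Y : Type} (b : Y → Y → ZMod 2) (x : ℕ → Y) (j : ℕ) : ZMod 2 :=
  ∑ i ∈ range j, b (x i) (x (i + 1))

/-- the correction cochain; the first index of `x` is the number of the loop, the second is time -/
def zeta {Y : Type} (N : ℕ) (a b b' : Y → Y → ZMod 2) (g : Y → ZMod 2) (x : ℕ → ℕ → Y) : ZMod 2 :=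
  (∑ j ∈ range N, psum b' (x 0) j *
    Pr 2 (cup 1 (c1 b) (c1 a)) (fun i => (x i j, x i (j + 1)))) +
  b' (x 0 0) (x 1 0) * (∑ j ∈ range N, psum b (x 1) j * a (x 1 j) (x 1 (j + 1))) +
  psum a (x 0) N * g (x 0 0) * b (x 0 0) (x 1 0) +
  psum b (x 0) N * g (x 0 0) * a (x 0 0) (x 1 0)

/-- the points of the three loops at the times `k`, `k + 1` -/
def near3 {Y : Type} (x : ℕ → ℕ → Y) (k : ℕ) : Set Y := {p | ∃ i < 3, p = x i k ∨ p = x i (k + 1)}

end Pool.Agent.Helper50.Drop
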