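import Pool.Agent.Helper50.Drop.Defs
import Pool.Agent.Helper76.Freq.Cube

/-!
# Integral cubical chains with bundled cubes

Cubes are continuous maps on the infinite cube `Q`; for a `d`-dimensional cube only the first `d`
coordinates matter.
-/

set_option autoImplicit false

namespace Pool.Agent.Helper50.Drop

open Finset
open Pool.Agent.Helper76.Freq (Q ins tr sh continuous_ins continuous_tr continuous_sh)

section basic

variable {Y Y' : Type*} [TopologicalSpace Y] [TopologicalSpace Y']

/-- chains of bundled cubes -/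
abbrev QC (Y : Type*) [TopologicalSpace Y] : Type _ := C(Q, Y) →₀ ℤ

/-- face of a cube -/
def face (i : ℕ) (e : unitInterval) (c : C(Q, Y)) : C(Q, Y) := c.comp ⟨ins i e, continuous_ins i e⟩

@[simp] theorem face_apply (i : ℕ) (e : unitInterval) (c : C(Q, Y)) (x : Q) :
    face i e c x = c (ins i e x) := rfl

/-- truncation of a cube -/
def trC (d : ℕ) (c : C(Q, Y)) : C(Q, Y) := c.comp ⟨tr d, continuous_tr d⟩

@[simp] theorem trC_apply (d : ℕ) (c : C(Q, Y)) (x : Q) : trC d c x = c (tr d x) := rfl

/-- boundary of `d`-dimensional chains -/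
noncomputable def bd (d : ℕ) : QC Y →ₗ[ℤ] QC Y :=
  Finsupp.linearCombination ℤ (fun c => ∑ i ∈ range d,
    (-1 : ℤ) ^ i • (Finsupp.single (face i 1 c) (1 : ℤ) - Finsupp.single (face i 0 c) (1 : ℤ)))

theorem bd_single (d : ℕ) (c : C(Q, Y)) : bd d (Finsupp.single c 1) =
    ∑ i ∈ range d, (-1 : ℤ) ^ i •
      (Finsupp.single (face i 1 c) (1 : ℤ) - Finsupp.single (face i 0 c) (1 : ℤ)) := by
  unfold bd
  rw [Finsupp.linearCombination_single, one_smul]

/-- the cube does not depend on one of the first `d` coordinates -/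
def IsDeg (d : ℕ) (c : Q → Y) : Prop :=
  ∃ i < d, ∀ x x' : Q, (∀ j, j ≠ i → x j = x' j) → c x = c x'

/-- degenerate chains of dimension `d` -/
def deg (d : ℕ) : Submodule ℤ (QC Y) := Finsupp.supported ℤ ℤ {c | IsDeg d c}

/-- push forward of chains -/
noncomputable def push (h : C(Y, Y')) : QC Y →ₗ[ℤ] QC Y' :=
  Finsupp.lmapDomain ℤ ℤ (fun c : C(Q, Y) => h.comp c)

@[simp] theorem push_single (h : C(Y, Y')) (c : C(Q, Y)) (r : ℤ) :
    push h (Finsupp.single c r) = Finsupp.single (h.comp c) r := by
  simp [push, Finsupp.lmapDomain_apply]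

/-- truncation of chains -/
noncomputable def trunc (d : ℕ) : QC Y →ₗ[ℤ] QC Y :=
  Finsupp.lmapDomain ℤ ℤ (fun c : C(Q, Y) => trC d c)

@[simp] theorem trunc_single (d : ℕ) (c : C(Q, Y)) (r : ℤ) :
    trunc d (Finsupp.single c r) = Finsupp.single (trC d c) r := by
  simp [trunc, Finsupp.lmapDomain_apply]

/-- chains which are negligible in dimension `d` -/
noncomputable def nul (d : ℕ) : Submodule ℤ (QC Y) := (deg d).comap (trunc d)

/-- linear maps agreeing on single cubes agree -/
theorem lin_ext {M : Type*} [AddCommGroup M] [Module ℤ M] {f g : QC Y →ₗ[ℤ] M}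
    (h : ∀ c, f (Finsupp.single c 1) = g (Finsupp.single c 1)) : f = g := by
  apply Finsupp.lhom_ext'
  intro c
  apply LinearMap.ext_ring
  exact h c

/-- a linear map sends a supported submodule into a submodule as soon as it does on cubes -/
theorem supported_le {M : Type*} [AddCommGroup M] [Module ℤ M] (f : QC Y →ₗ[ℤ] M)
    (S : Set C(Q, Y)) (N : Submodule ℤ M) (h : ∀ c ∈ S, f (Finsupp.single c 1) ∈ N) :
    Finsupp.supported ℤ ℤ S ≤ N.comap f := by
  rw [Finsupp.supported_eq_span_single, Submodule.span_le]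
  rintro _ ⟨c, hc, rfl⟩
  exact h c hc

theorem single_mem {S : Set C(Q, Y)} {c : C(Q, Y)} (h : c ∈ S) (r : ℤ) :
    Finsupp.single c r ∈ Finsupp.supported ℤ ℤ S := Finsupp.single_mem_supported ℤ r h

theorem tr_tr (d : ℕ) (x : Q) : tr d (tr d x) = tr d x := by
  funext j; unfold tr; split_ifs <;> rfl

theorem tr_ins {d i : ℕ} (hi : i < d) (e : unitInterval) (x : Q) :
    tr d (ins i e x) = ins i e (tr (d - 1) x) := by
  funext j
  change (if j < d then (if j < i then x j else if j = i then e else x (j - 1)) else 0) =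
    if j < i then (if j < d - 1 then x j else 0) else if j = i then e else
      (if j - 1 < d - 1 then x (j - 1) else 0)
  split_ifs <;> first | rfl | omega

theorem face_trC {d i : ℕ} (hi : i < d) (e : unitInterval) (c : C(Q, Y)) :
    face i e (trC d c) = trC (d - 1) (face i e c) := by
  ext x
  simp only [face_apply, trC_apply, tr_ins hi]

theorem face_comp (i : ℕ) (e : unitInterval) (h : C(Y, Y')) (c : C(Q, Y)) :
    face i e (h.comp c) = h.comp (face i e c) := rfl

theorem bd_push (d : ℕ) (h : C(Y, Y')) (z : QC Y) : bd d (push h z) = push h (bd d z) := by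
  have : (bd d).comp (push h) = (push h).comp (bd d) := by
    refine lin_ext fun c => ?_
    simp only [LinearMap.comp_apply, push_single, bd_single, map_sum, map_smul, map_sub, face_comp]
  exact LinearMap.congr_fun this z

theorem bd_trunc (d : ℕ) (z : QC Y) : bd d (trunc d z) = trunc (d - 1) (bd d z) := by
  have : (bd d).comp (trunc d) = (trunc (d - 1)).comp (bd (Y := Y) d) := by
    refine lin_ext fun c => ?_
    simp only [LinearMap.comp_apply, trunc_single, bd_single, map_sum, map_smul, map_sub]
    refine sum_congr rfl fun i hi => ?_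
    rw [face_trC (mem_range.1 hi), face_trC (mem_range.1 hi)]
  exact LinearMap.congr_fun this z

theorem push_trunc (d : ℕ) (h : C(Y, Y')) (z : QC Y) :
    trunc d (push h z) = push h (trunc d z) := by
  have : (trunc d).comp (push h) = (push h).comp (trunc d) := by
    refine lin_ext fun c => ?_
    simp only [LinearMap.comp_apply, trunc_single, push_single]
    rfl
  exact LinearMap.congr_fun this z

theorem ins_comm {i j : ℕ} (hij : i ≤ j) (e f : unitInterval) (x : Q) :
    ins i e (ins j f x) = ins (j + 1) f (ins i e x) := by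
  funext l
  unfold ins
  split_ifs <;> first | rfl | omega

theorem IsDeg.face {d i : ℕ} {c : C(Q, Y)} {k : ℕ} (hk : k < d) (hki : k ≠ i) (hi : i < d)
    (hc : ∀ x x' : Q, (∀ j, j ≠ k → x j = x' j) → c x = c x') (e : unitInterval) :
    IsDeg (d - 1) (Pool.Agent.Helper50.Drop.face i e c) := by
  by_cases h : k < i
  · refine ⟨k, by omega, fun x x' hx => hc _ _ fun j hj => ?_⟩
    change ins i e x j = ins i e x' j
    unfold ins
    split_ifs with h1 h2
    · exact hx j hj
    · rfl
    · exact hx (j - 1) (by omega)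
  · refine ⟨k - 1, by omega, fun x x' hx => hc _ _ fun j hj => ?_⟩
    change ins i e x j = ins i e x' j
    unfold ins
    split_ifs with h1 h2
    · exact hx j (by omega)
    · rfl
    · exact hx (j - 1) (by omega)

theorem bd_deg {d : ℕ} {z : QC Y} (hz : z ∈ deg (Y := Y) d) : bd d z ∈ deg (Y := Y) (d - 1) := by
  refine supported_le (bd d) {c | IsDeg d c} (deg (d - 1)) ?_ hz
  rintro c ⟨k, hk, hc⟩
  rw [bd_single]
  refine Submodule.sum_mem _ fun i hi => Submodule.smul_mem _ _ ?_
  by_cases h : k = i
  · subst h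
    have : face k 1 c = face k 0 c := by
      ext x
      refine hc _ _ fun j hj => ?_
      change ins k 1 x j = ins k 0 x j
      unfold ins
      split_ifs <;> rfl
    rw [this, sub_self]
    exact Submodule.zero_mem _
  · exact Submodule.sub_mem _ (single_mem (IsDeg.face hk h (mem_range.1 hi) hc 1) 1)
      (single_mem (IsDeg.face hk h (mem_range.1 hi) hc 0) 1)

theorem bd_nul {d : ℕ} {z : QC Y} (hz : z ∈ nul (Y := Y) d) : bd d z ∈ nul (Y := Y) (d - 1) := by
  change trunc (d - 1) (bd d z) ∈ deg (d - 1)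
  rw [← bd_trunc]
  exact bd_deg hz

theorem push_deg {d : ℕ} (h : C(Y, Y')) {z : QC Y} (hz : z ∈ deg (Y := Y) d) :
    push h z ∈ deg (Y := Y') d := by
  refine supported_le (push h) {c | IsDeg d c} (deg d) ?_ hz
  rintro c ⟨k, hk, hc⟩
  rw [push_single]
  exact single_mem (S := {c | IsDeg d c}) ⟨k, hk, fun x x' hx => congrArg h (hc x x' hx)⟩ 1

theorem push_nul {d : ℕ} (h : C(Y, Y')) {z : QC Y} (hz : z ∈ nul (Y := Y) d) :
    push h z ∈ nul (Y := Y') d := by
  change trunc d (push h z) ∈ deg d
  rw [push_trunc]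
  exact push_deg h hz

theorem trunc_sub_mem_nul (d : ℕ) (z : QC Y) : trunc d z - z ∈ nul (Y := Y) d := by
  change trunc d (trunc d z - z) ∈ deg d
  have : trunc d (trunc d z) = trunc d z := by
    have : (trunc d).comp (trunc d) = trunc (Y := Y) d := by
      refine lin_ext fun c => ?_
      simp only [LinearMap.comp_apply, trunc_single]
      congr 1
      ext x
      simp [tr_tr]
    exact LinearMap.congr_fun this z
  rw [map_sub, this, sub_self]
  exact Submodule.zero_mem _

theorem trunc_deg {d : ℕ} {z : QC Y} (hz : z ∈ deg (Y := Y) d) : trunc d z ∈ deg (Y := Y) d := by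
  refine supported_le (trunc d) {c | IsDeg d c} (deg d) ?_ hz
  rintro c ⟨k, hk, hc⟩
  rw [trunc_single]
  refine single_mem (S := {c | IsDeg d c}) ⟨k, hk, fun x x' hx => ?_⟩ 1
  refine hc _ _ fun j hj => ?_
  change tr d x j = tr d x' j
  unfold tr
  rw [hx j hj]

theorem deg_le_nul (d : ℕ) : deg (Y := Y) d ≤ nul d := fun _ hz => trunc_deg hz

theorem bd_bd (d : ℕ) (z : QC Y) : bd d (bd (d + 1) z) = 0 := by
  have : (bd d).comp (bd (Y := Y) (d + 1)) = 0 := by
    refine lin_ext fun c => ?_
    simp only [LinearMap.comp_apply, bd_single, map_sum, map_smul, map_sub, LinearMap.zero_apply]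
    -- signed sum of codimension two faces
    have key : ∀ e f : unitInterval, ∀ i j : ℕ, i ≤ j →
        face i e (face (j + 1) f c) = face j f (face i e c) := by
      intro e f i j hij
      ext x
      simp only [face_apply]
      rw [ins_comm hij]
    let F : ℕ → ℕ → QC Y := fun i j =>
      (Finsupp.single (face j 1 (face i 1 c)) (1 : ℤ) - Finsupp.single (face j 0 (face i 1 c)) 1) -
        (Finsupp.single (face j 1 (face i 0 c)) 1 - Finsupp.single (face j 0 (face i 0 c)) 1)
    have hF : ∀ i j, i ≤ j → F (j + 1) i = F i j := by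
      intro i j hij
      simp only [F, key _ _ i j hij]
      abel
    have e1 : ∑ i ∈ range (d + 1), (-1 : ℤ) ^ i • (∑ j ∈ range d, (-1 : ℤ) ^ j •
          (Finsupp.single (face j 1 (face i 1 c)) (1 : ℤ) -
            Finsupp.single (face j 0 (face i 1 c)) (1 : ℤ)) -
        ∑ j ∈ range d, (-1 : ℤ) ^ j • (Finsupp.single (face j 1 (face i 0 c)) (1 : ℤ) -
          Finsupp.single (face j 0 (face i 0 c)) (1 : ℤ))) =
        ∑ i ∈ range (d + 1), ∑ j ∈ range d, (-1 : ℤ) ^ (i + j) • F i j := by
      refine sum_congr rfl fun i _ => ?_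
      rw [← sum_sub_distrib, smul_sum]
      refine sum_congr rfl fun j _ => ?_
      rw [← smul_sub, smul_smul, ← pow_add]
    rw [e1]
    -- split according to `j < i`
    have e2 : ∀ i ∈ range (d + 1), ∑ j ∈ range d, (-1 : ℤ) ^ (i + j) • F i j =
        ∑ j ∈ range d, (if j < i then (-1 : ℤ) ^ (i + j) • F i j else 0) +
        ∑ j ∈ range d, (if j < i then 0 else (-1 : ℤ) ^ (i + j) • F i j) := by
      intro i _
      rw [← sum_add_distrib]
      refine sum_congr rfl fun j _ => ?_
      split_ifs <;> simp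
    rw [sum_congr rfl e2, sum_add_distrib]
    have e3 : ∑ i ∈ range (d + 1), ∑ j ∈ range d,
        (if j < i then (-1 : ℤ) ^ (i + j) • F i j else 0) =
        ∑ i ∈ range d, ∑ j ∈ range d,
        (if j ≤ i then (-1 : ℤ) ^ (i + 1 + j) • F j i else 0) := by
      rw [sum_range_succ']
      have h0 : ∑ j ∈ range d, (if j < 0 then (-1 : ℤ) ^ (0 + j) • F 0 j else 0) = 0 :=
        sum_eq_zero fun j _ => by simp
      rw [h0, add_zero]
      refine sum_congr rfl fun i _ => sum_congr rfl fun j _ => ?_
      by_cases h : j ≤ i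
      · rw [if_pos (by omega), if_pos h, hF j i h]
      · rw [if_neg (by omega), if_neg h]
    have e4 : ∑ i ∈ range (d + 1), ∑ j ∈ range d,
        (if j < i then 0 else (-1 : ℤ) ^ (i + j) • F i j) =
        ∑ i ∈ range d, ∑ j ∈ range d,
        (if i ≤ j then (-1 : ℤ) ^ (i + j) • F i j else 0) := by
      rw [sum_range_succ]
      have h0 : ∑ j ∈ range d, (if j < d then (0 : QC Y) else (-1 : ℤ) ^ (d + j) • F d j) = 0 :=
        sum_eq_zero fun j hj => by rw [if_pos (mem_range.1 hj)]
      rw [h0, add_zero]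
      refine sum_congr rfl fun i _ => sum_congr rfl fun j _ => ?_
      by_cases h : i ≤ j
      · rw [if_neg (by omega), if_pos h]
      · rw [if_pos (by omega), if_neg h]
    rw [e3, e4, sum_comm (s := range d) (t := range d)
      (f := fun i j => if i ≤ j then (-1 : ℤ) ^ (i + j) • F i j else 0), ← sum_add_distrib]
    refine sum_eq_zero fun i _ => ?_
    rw [← sum_add_distrib]
    refine sum_eq_zero fun j _ => ?_
    by_cases h : j ≤ i
    · rw [if_pos h, if_pos h]
      have : (-1 : ℤ) ^ (i + 1 + j) = - (-1 : ℤ) ^ (j + i) := by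
        rw [show i + 1 + j = (j + i) + 1 by ring, pow_succ]; ring
      rw [this, neg_smul, neg_add_cancel]
    · rw [if_neg h, if_neg h, add_zero]
  exact LinearMap.congr_fun this z

end basic

end Pool.Agent.Helper50.Drop
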