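import Pool.Agent.Helper50.Drop.Rel

/-!
# Halving, reversal and homotopy of cubes; antipodally symmetric squares
-/

set_option autoImplicit false

namespace Pool.Agent.Helper50.Drop

open Finset
open Pool.Agent.Helper76.Freq (Q ins tr sh continuous_ins continuous_tr continuous_sh)

/-! ## maps of the cube -/

/-- replace the coordinates `i`, `i + 1` by `f` of them -/
def fmap (i : ℕ) (f : unitInterval × unitInterval → unitInterval) (x : Q) : Q :=
  fun j => if j < i then x j else if j = i then f (x i, x (i + 1)) else x (j + 1)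

/-- change the coordinate `i` -/
def upd (i : ℕ) (g : unitInterval → unitInterval) (x : Q) : Q :=
  fun j => if j = i then g (x i) else x j

theorem continuous_fmap (i : ℕ) {f : unitInterval × unitInterval → unitInterval}
    (hf : Continuous f) : Continuous (fmap i f) := by
  refine continuous_pi fun j => ?_
  unfold fmap
  split_ifs
  · exact continuous_apply j
  · exact hf.comp ((continuous_apply i).prodMk (continuous_apply (i + 1)))
  · exact continuous_apply (j + 1)

theorem continuous_upd (i : ℕ) {g : unitInterval → unitInterval}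
    (hg : Continuous g) : Continuous (upd i g) := by
  refine continuous_pi fun j => ?_
  unfold upd
  split_ifs
  · exact hg.comp (continuous_apply i)
  · exact continuous_apply j

theorem fmap_ins_lt {i j : ℕ} (h : j < i) (f : unitInterval × unitInterval → unitInterval)
    (e : unitInterval) (x : Q) : fmap i f (ins j e x) = ins j e (fmap (i - 1) f x) := by
  funext l
  unfold fmap ins
  rcases lt_trichotomy l j with h1 | h1 | h1
  · simp [h1, show l < i by omega, show l < i - 1 by omega]
  · subst h1
    simp [h]
  · rcases lt_trichotomy l i with h2 | h2 | h2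
    · simp [show ¬ l < j by omega, show l ≠ j by omega, h2, show l - 1 < i - 1 by omega]
    · subst h2
      simp [show ¬ l < j by omega, show l ≠ j by omega, show ¬ l + 1 < j by omega,
        show l + 1 ≠ j by omega, show l - 1 + 1 = l by omega]
    · simp [show ¬ l < j by omega, show l ≠ j by omega, show ¬ l < i by omega,
        show l ≠ i by omega, show ¬ l + 1 < j by omega, show l + 1 ≠ j by omega,
        show ¬ l - 1 < i - 1 by omega, show l - 1 ≠ i - 1 by omega, show l - 1 + 1 = l by omega]

theorem fmap_ins_self (i : ℕ) (f : unitInterval × unitInterval → unitInterval)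
    (e : unitInterval) (x : Q) : fmap i f (ins i e x) = upd i (fun u => f (e, u)) x := by
  funext l
  unfold fmap ins upd
  rcases lt_trichotomy l i with h1 | h1 | h1
  · simp [h1, h1.ne]
  · subst h1; simp
  · simp [show ¬ l < i by omega, show l ≠ i by omega, show ¬ l + 1 < i by omega,
      show l + 1 ≠ i by omega]

theorem fmap_ins_succ (i : ℕ) (f : unitInterval × unitInterval → unitInterval)
    (e : unitInterval) (x : Q) : fmap i f (ins (i + 1) e x) = upd i (fun a => f (a, e)) x := by
  funext l
  unfold fmap ins upd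
  rcases lt_trichotomy l i with h1 | h1 | h1
  · simp [h1, h1.ne, show l < i + 1 by omega]
  · subst h1; simp
  · simp [show ¬ l < i by omega, show l ≠ i by omega]

theorem fmap_ins_gt {i j : ℕ} (h : i + 1 < j) (f : unitInterval × unitInterval → unitInterval)
    (e : unitInterval) (x : Q) : fmap i f (ins j e x) = ins (j - 1) e (fmap i f x) := by
  funext l
  unfold fmap ins
  rcases lt_trichotomy l i with h1 | h1 | h1
  · simp [h1, show l < j by omega, show l < j - 1 by omega]
  · subst h1
    simp [show l < j by omega, show l < j - 1 by omega, show l + 1 < j by omega]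
  · rcases lt_trichotomy l (j - 1) with h2 | h2 | h2
    · simp [show ¬ l < i by omega, show l ≠ i by omega, show l + 1 < j by omega, h2]
    · rw [if_neg (by omega), if_neg (by omega), if_neg (by omega), if_pos (by omega),
        if_neg (by omega), if_pos h2]
    · simp [show ¬ l < i by omega, show l ≠ i by omega, show ¬ l + 1 < j by omega,
        show l + 1 ≠ j by omega, show ¬ l < j - 1 by omega, show l ≠ j - 1 by omega,
        show ¬ l - 1 < i by omega, show l - 1 ≠ i by omega, show l - 1 + 1 = l by omega]

section moves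

variable {W T : Type*} [TopologicalSpace W] {A : Set W} {q : W → T}

/-- composition of a cube with a continuous map of `Q` -/
def cmp (c : C(Q, W)) (m : Q → Q) (hm : Continuous m) : C(Q, W) := c.comp ⟨m, hm⟩

@[simp] theorem cmp_apply (c : C(Q, W)) (m : Q → Q) (hm : Continuous m) (x : Q) :
    cmp c m hm x = c (m x) := rfl

theorem mem_of_neg_one_pow_smul {M : Type*} [AddCommGroup M] [Module ℤ M] {S : Submodule ℤ M}
    {z : M} (i : ℕ) (h : (-1 : ℤ) ^ i • z ∈ S) : z ∈ S := by
  rcases neg_one_pow_eq_or ℤ i with h1 | h1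
  · rw [h1] at h; simpa using h
  · rw [h1] at h; simpa using h

/-- `single c ∈ inA` -/
theorem single_inA {d : ℕ} {c : C(Q, W)} (h : ∀ x, c x ∈ A) (hq : IsDeg d (fun x => q (c x))) :
    Finsupp.single c (1 : ℤ) ∈ inA A q d :=
  single_mem (show c ∈ {c : C(Q, W) | (∀ x, c x ∈ A) ∧ IsDeg d (fun x => q (c x))} from ⟨h, hq⟩) 1

theorem single_deg {d : ℕ} {c : C(Q, W)} (h : IsDeg d c) :
    Finsupp.single c (1 : ℤ) ∈ deg (Y := W) d :=
  single_mem (show c ∈ {c : C(Q, W) | IsDeg d c} from h) 1

/-- main relation -/
theorem rel_fmap {d i : ℕ} (hi : i < d) (c : C(Q, W))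
    (hA : ∀ j < d, j ≠ i → ∀ e : unitInterval, (e = 0 ∨ e = 1) → ∀ x, c (ins j e x) ∈ A)
    (hq : ∀ x y, q (c x) = q (c y)) {f : unitInterval × unitInterval → unitInterval}
    (hf : Continuous f) :
    Finsupp.single (cmp c (upd i fun u => f (1, u))
        (continuous_upd i (hf.comp (Continuous.prodMk_right _)))) (1 : ℤ)
      - Finsupp.single (cmp c (upd i fun u => f (0, u))
        (continuous_upd i (hf.comp (Continuous.prodMk_right _)))) (1 : ℤ)
      - Finsupp.single (cmp c (upd i fun a => f (a, 1))
        (continuous_upd i (hf.comp (Continuous.prodMk_left _)))) (1 : ℤ)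
      + Finsupp.single (cmp c (upd i fun a => f (a, 0))
        (continuous_upd i (hf.comp (Continuous.prodMk_left _)))) (1 : ℤ) ∈ RelZ A q d := by
  set G : C(Q, W) := cmp c (fmap i f) (continuous_fmap i hf) with hG
  apply mem_of_neg_one_pow_smul i
  have hdeg : ∀ c' : C(Q, W), (∀ x, ∃ y, c' x = c y) → IsDeg d (fun x => q (c' x)) := by
    intro c' hc'
    refine ⟨0, by omega, fun x x' _ => ?_⟩
    obtain ⟨y, hy⟩ := hc' x
    obtain ⟨y', hy'⟩ := hc' x'
    change q (c' x) = q (c' x')
    rw [hy, hy']
    exact hq y y'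
  have hface : ∀ j < d + 1, j ≠ i → j ≠ i + 1 → ∀ e : unitInterval, (e = 0 ∨ e = 1) →
      Finsupp.single (face j e G) (1 : ℤ) ∈ inA A q d := by
    intro j hj h1 h2 e he
    refine single_inA (fun x => ?_) (hdeg _ fun x => ⟨_, rfl⟩)
    change c (fmap i f (ins j e x)) ∈ A
    rcases lt_or_gt_of_ne h1 with h3 | h3
    · rw [fmap_ins_lt h3]
      exact hA j (by omega) h1 e he _
    · rw [fmap_ins_gt (by omega)]
      exact hA (j - 1) (by omega) (by omega) e he _
  have e1 : bd (d + 1) (Finsupp.single G 1) =
      (-1 : ℤ) ^ i • (Finsupp.single (face i 1 G) (1 : ℤ) - Finsupp.single (face i 0 G) (1 : ℤ)) +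
      ((-1 : ℤ) ^ (i + 1) • (Finsupp.single (face (i + 1) 1 G) (1 : ℤ) -
        Finsupp.single (face (i + 1) 0 G) (1 : ℤ)) +
      ∑ j ∈ ((range (d + 1)).erase i).erase (i + 1), (-1 : ℤ) ^ j •
        (Finsupp.single (face j 1 G) (1 : ℤ) - Finsupp.single (face j 0 G) (1 : ℤ))) := by
    rw [bd_single, ← Finset.add_sum_erase (range (d + 1)) _ (mem_range.2 (show i < d + 1 by omega)),
      ← Finset.add_sum_erase ((range (d + 1)).erase i) _
        (mem_erase.2 ⟨by omega, mem_range.2 (show i + 1 < d + 1 by omega)⟩)]
  have e2 : ∀ e : unitInterval, face i e G = cmp c (upd i fun u => f (e, u))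
        (continuous_upd i (hf.comp (Continuous.prodMk_right _))) := by
    intro e
    ext x
    simp only [hG, face_apply, cmp_apply, fmap_ins_self]
  have e3 : ∀ e : unitInterval, face (i + 1) e G = cmp c (upd i fun a => f (a, e))
        (continuous_upd i (hf.comp (Continuous.prodMk_left _))) := by
    intro e
    ext x
    simp only [hG, face_apply, cmp_apply, fmap_ins_succ]
  have e4 : ∑ j ∈ ((range (d + 1)).erase i).erase (i + 1), (-1 : ℤ) ^ j •
        (Finsupp.single (face j 1 G) (1 : ℤ) - Finsupp.single (face j 0 G) (1 : ℤ)) ∈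
        inA A q d := by
    refine Submodule.sum_mem _ fun j hj => Submodule.smul_mem _ _ ?_
    simp only [mem_erase, mem_range] at hj
    exact Submodule.sub_mem _ (hface j hj.2.2 hj.2.1 hj.1 1 (Or.inr rfl))
      (hface j hj.2.2 hj.2.1 hj.1 0 (Or.inl rfl))
  rw [e2, e2, e3, e3] at e1
  set S := ∑ j ∈ ((range (d + 1)).erase i).erase (i + 1), (-1 : ℤ) ^ j •
        (Finsupp.single (face j 1 G) (1 : ℤ) - Finsupp.single (face j 0 G) (1 : ℤ)) with hS
  have e5 : ∀ a b c' d' : QC W, (-1 : ℤ) ^ i • (a - b - c' + d') =
      ((-1 : ℤ) ^ i • (a - b) + ((-1 : ℤ) ^ (i + 1) • (c' - d') + S)) - S := by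
    intro a b c' d'
    rw [pow_succ, mul_neg_one, neg_smul]
    simp only [smul_add, smul_sub]
    abel
  rw [e5, ← e1]
  exact Submodule.sub_mem _ (Submodule.mem_sup_left (LinearMap.mem_range_self _ _))
    (Submodule.mem_sup_right (Submodule.mem_sup_left e4))

/-! ### halving -/

theorem upd_const_deg {d i : ℕ} (hi' : i < d) (c : C(Q, W)) (g : unitInterval → unitInterval)
    (hg : Continuous g) (hc : ∀ u v, g u = g v) :
    Finsupp.single (cmp c (upd i g) (continuous_upd i hg)) (1 : ℤ) ∈ deg (Y := W) d := by
  refine single_deg ⟨i, hi', fun x x' hx => ?_⟩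
  rw [cmp_apply, cmp_apply]
  congr 1
  funext j
  unfold upd
  split_ifs with hj
  · exact hc _ _
  · exact hx j hj

theorem cmp_congr (c : C(Q, W)) {m m' : Q → Q} (hm : Continuous m) (hm' : Continuous m')
    (h : m = m') : cmp c m hm = cmp c m' hm' := by
  subst h; rfl

/-- `a (1 + u) / 2` -/
noncomputable def hlf (p : unitInterval × unitInterval) : unitInterval :=
  ⟨(p.1 : ℝ) * (1 + p.2) / 2, by
    have h1 := p.1.2.1
    have h2 := p.1.2.2
    have h3 := p.2.2.1
    have h4 := p.2.2.2
    constructor
    · positivity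
    · nlinarith⟩

theorem continuous_hlf : Continuous hlf := by
  unfold hlf
  refine Continuous.subtype_mk ?_ _
  fun_prop

/-- `a / 2` -/
noncomputable def lo (a : unitInterval) : unitInterval := hlf (a, 0)

/-- `(1 + a) / 2` -/
noncomputable def hi (a : unitInterval) : unitInterval := hlf (1, a)

@[simp] theorem coe_hlf (p : unitInterval × unitInterval) :
    (hlf p : ℝ) = (p.1 : ℝ) * (1 + p.2) / 2 := rfl

@[simp] theorem coe_lo (a : unitInterval) : (lo a : ℝ) = (a : ℝ) / 2 := by simp [lo]

@[simp] theorem coe_hi (a : unitInterval) : (hi a : ℝ) = (1 + (a : ℝ)) / 2 := by simp [hi]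

theorem continuous_lo : Continuous lo := continuous_hlf.comp (Continuous.prodMk_left _)

theorem continuous_hi : Continuous hi := continuous_hlf.comp (Continuous.prodMk_right _)

theorem upd_id (i : ℕ) (x : Q) : upd i (fun a => a) x = x := by
  funext j; unfold upd; split_ifs with h
  · rw [h]
  · rfl

/-- halving of the coordinate `i` -/
theorem rel_halve {d i : ℕ} (hi' : i < d) (c : C(Q, W))
    (hA : ∀ j < d, j ≠ i → ∀ e : unitInterval, (e = 0 ∨ e = 1) → ∀ x, c (ins j e x) ∈ A)
    (hq : ∀ x y, q (c x) = q (c y)) :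
    Finsupp.single c (1 : ℤ) - Finsupp.single (cmp c (upd i lo) (continuous_upd i continuous_lo)) 1
      - Finsupp.single (cmp c (upd i hi) (continuous_upd i continuous_hi)) 1 ∈ RelZ A q d := by
  have h := rel_fmap hi' c hA hq continuous_hlf
  have h0 := upd_const_deg (W := W) hi' c (fun u => hlf (0, u))
    (continuous_hlf.comp (Continuous.prodMk_right _)) (fun u v => Subtype.ext (by simp))
  have h1 : cmp c (upd i fun a => hlf (a, 1)) (continuous_upd i
      (continuous_hlf.comp (Continuous.prodMk_left _))) = c := by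
    ext x
    rw [cmp_apply]
    have : (fun a : unitInterval => hlf (a, 1)) = fun a => a := by
      funext a
      apply Subtype.ext
      simp only [coe_hlf, Set.Icc.coe_one]
      ring
    rw [this, upd_id]
  rw [h1] at h
  have h2 := Submodule.neg_mem _ (Submodule.add_mem _ h (Submodule.mem_sup_right
    (Submodule.mem_sup_right (deg_le_nul _ h0)) : _ ∈ RelZ A q d))
  have e : Finsupp.single c (1 : ℤ) -
      Finsupp.single (cmp c (upd i lo) (continuous_upd i continuous_lo)) 1
      - Finsupp.single (cmp c (upd i hi) (continuous_upd i continuous_hi)) 1 =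
      -(Finsupp.single (cmp c (upd i fun u => hlf (1, u)) (continuous_upd i
      (continuous_hlf.comp (Continuous.prodMk_right _)))) 1 -
      Finsupp.single (cmp c (upd i fun u => hlf (0, u)) (continuous_upd i
      (continuous_hlf.comp (Continuous.prodMk_right _)))) 1 - Finsupp.single c 1 +
      Finsupp.single (cmp c (upd i fun a => hlf (a, 0)) (continuous_upd i
      (continuous_hlf.comp (Continuous.prodMk_left _)))) 1 +
      Finsupp.single (cmp c (upd i fun u => hlf (0, u)) (continuous_upd i
      (continuous_hlf.comp (Continuous.prodMk_right _)))) 1) := by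
    have e1 : cmp c (upd i fun a => hlf (a, 0)) (continuous_upd i
      (continuous_hlf.comp (Continuous.prodMk_left _))) =
      cmp c (upd i lo) (continuous_upd i continuous_lo) := rfl
    have e2 : cmp c (upd i fun u => hlf (1, u)) (continuous_upd i
      (continuous_hlf.comp (Continuous.prodMk_right _))) =
      cmp c (upd i hi) (continuous_upd i continuous_hi) := rfl
    rw [e1, e2]
    abel
  rw [e]
  exact h2

/-! ### reversal -/

/-- `a (1 - u)` -/
def rvm (p : unitInterval × unitInterval) : unitInterval := p.1 * unitInterval.symm p.2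

theorem continuous_rvm : Continuous rvm := by
  unfold rvm
  exact continuous_fst.mul (unitInterval.continuous_symm.comp continuous_snd)

/-- reversal of the coordinate `i` -/
theorem rel_reverse {d i : ℕ} (hi' : i < d) (c : C(Q, W))
    (hA : ∀ j < d, j ≠ i → ∀ e : unitInterval, (e = 0 ∨ e = 1) → ∀ x, c (ins j e x) ∈ A)
    (hq : ∀ x y, q (c x) = q (c y)) :
    Finsupp.single (cmp c (upd i unitInterval.symm)
      (continuous_upd i unitInterval.continuous_symm)) (1 : ℤ) + Finsupp.single c 1 ∈
        RelZ A q d := by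
  have h := rel_fmap hi' c hA hq continuous_rvm
  have h0 := upd_const_deg (W := W) hi' c (fun u => rvm (0, u))
    (continuous_rvm.comp (Continuous.prodMk_right _)) (fun u v => by simp [rvm])
  have h0' := upd_const_deg (W := W) hi' c (fun a => rvm (a, 1))
    (continuous_rvm.comp (Continuous.prodMk_left _)) (fun u v => by simp [rvm])
  have h1 : cmp c (upd i fun a => rvm (a, 0)) (continuous_upd i
      (continuous_rvm.comp (Continuous.prodMk_left _))) = c := by
    ext x
    rw [cmp_apply]
    have : (fun a : unitInterval => rvm (a, 0)) = fun a => a := by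
      funext a
      simp [rvm]
    rw [this, upd_id]
  have h2 : cmp c (upd i fun u => rvm (1, u)) (continuous_upd i
      (continuous_rvm.comp (Continuous.prodMk_right _))) = cmp c (upd i unitInterval.symm)
      (continuous_upd i unitInterval.continuous_symm) := by
    refine cmp_congr c _ _ ?_
    have : (fun u : unitInterval => rvm (1, u)) = unitInterval.symm := by
      funext a
      simp [rvm]
    rw [this]
  rw [h1, h2] at h
  have h3 := Submodule.add_mem _ (Submodule.add_mem _ h (Submodule.mem_sup_right
    (Submodule.mem_sup_right (deg_le_nul _ h0)) : _ ∈ RelZ A q d)) (Submodule.mem_sup_right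
    (Submodule.mem_sup_right (deg_le_nul _ h0')) : _ ∈ RelZ A q d)
  have e : ∀ a b c' d' : QC W, a + c' = (a - b - d' + c') + b + d' := fun a b c' d' => by abel
  rw [e _ (Finsupp.single (cmp c (upd i fun u => rvm (0, u)) (continuous_upd i
      (continuous_rvm.comp (Continuous.prodMk_right _)))) (1 : ℤ)) _
      (Finsupp.single (cmp c (upd i fun a => rvm (a, 1)) (continuous_upd i
      (continuous_rvm.comp (Continuous.prodMk_left _)))) (1 : ℤ))]
  exact h3

/-- homotopies in the last coordinate -/
theorem rel_homotopy {d : ℕ} (G : C(Q, W))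
    (hA : ∀ j < d, ∀ e : unitInterval, (e = 0 ∨ e = 1) → ∀ x, G (ins j e x) ∈ A)
    (hq : ∀ j < d, ∀ e : unitInterval, (e = 0 ∨ e = 1) → IsDeg d (fun x => q (G (ins j e x)))) :
    Finsupp.single (face d 1 G) (1 : ℤ) - Finsupp.single (face d 0 G) (1 : ℤ) ∈ RelZ A q d := by
  apply mem_of_neg_one_pow_smul d
  have e1 : (-1 : ℤ) ^ d • (Finsupp.single (face d 1 G) (1 : ℤ) -
      Finsupp.single (face d 0 G) (1 : ℤ)) = bd (d + 1) (Finsupp.single G 1) -
      ∑ j ∈ range d, (-1 : ℤ) ^ j •
        (Finsupp.single (face j 1 G) (1 : ℤ) - Finsupp.single (face j 0 G) (1 : ℤ)) := by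
    rw [bd_single, sum_range_succ]; abel
  rw [e1]
  refine Submodule.sub_mem _ (Submodule.mem_sup_left (LinearMap.mem_range_self _ _))
    (Submodule.mem_sup_right (Submodule.mem_sup_left ?_))
  refine Submodule.sum_mem _ fun j hj => Submodule.smul_mem _ _ (Submodule.sub_mem _ ?_ ?_)
  · exact single_inA (fun x => hA j (mem_range.1 hj) 1 (Or.inr rfl) x)
      (hq j (mem_range.1 hj) 1 (Or.inr rfl))
  · exact single_inA (fun x => hA j (mem_range.1 hj) 0 (Or.inl rfl) x)
      (hq j (mem_range.1 hj) 0 (Or.inl rfl))

end moves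

/-! ## antipodally symmetric squares -/

section antipodal

variable {Y : Type*} [TopologicalSpace Y]

/-- the cube `F (m x)` -/
def sq (F : C(unitInterval × unitInterval, Y)) (m : Q → unitInterval × unitInterval)
    (hm : Continuous m) : C(Q, Y) := F.comp ⟨m, hm⟩

theorem cont2 {f g : Q → unitInterval} (hf : Continuous f) (hg : Continuous g) :
    Continuous fun x => (f x, g x) := hf.prodMk hg

/-- a chain bounding an antipodally symmetric square -/
noncomputable def AP (F : C(unitInterval × unitInterval, Y)) : QC Y :=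
  Finsupp.single (sq F (fun x => (x 0, hlf (x 1, x 2))) (cont2 (continuous_apply 0)
      (continuous_hlf.comp (cont2 (continuous_apply 1) (continuous_apply 2))))) 1 +
  Finsupp.single (sq F (fun x => (rvm (x 0, x 1), lo (x 2))) (cont2
      (continuous_rvm.comp (cont2 (continuous_apply 0) (continuous_apply 1)))
      (continuous_lo.comp (continuous_apply 2)))) 1 +
  Finsupp.single (sq F (fun x => (unitInterval.symm (x 2) * unitInterval.symm (rvm (x 0, x 1)), 0))
    (cont2 ((unitInterval.continuous_symm.comp (continuous_apply 2)).mul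
      (unitInterval.continuous_symm.comp
        (continuous_rvm.comp (cont2 (continuous_apply 0) (continuous_apply 1)))))
      continuous_const)) 1 -
  Finsupp.single (sq F (fun x => (unitInterval.symm (x 2) * rvm (x 0, x 1), 0))
    (cont2 ((unitInterval.continuous_symm.comp (continuous_apply 2)).mul
        (continuous_rvm.comp (cont2 (continuous_apply 0) (continuous_apply 1))))
      continuous_const)) 1

theorem ins0 (i : ℕ) (e : unitInterval) (x : Q) : ins i e x 0 = if i = 0 then e else x 0 := by
  unfold ins; rcases i with _ | i <;> simp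

theorem ins1 (i : ℕ) (e : unitInterval) (x : Q) :
    ins i e x 1 = if i = 0 then x 0 else if i = 1 then e else x 1 := by
  unfold ins; rcases i with _ | _ | i <;> simp

theorem ins2 (i : ℕ) (e : unitInterval) (x : Q) : ins i e x 2 =
    if i = 0 then x 1 else if i = 1 then x 1 else if i = 2 then e else x 2 := by
  unfold ins; rcases i with _ | _ | _ | i <;> simp

theorem AP_bd (F : C(unitInterval × unitInterval, Y)) (h0 : ∀ b, F (0, b) = F (0, 0))
    (h1 : ∀ b, F (1, b) = F (1, 0)) (hs : ∀ a b, F (a, hi b) = F (unitInterval.symm a, lo b)) :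
    bd 3 (AP F) - Finsupp.single (sq F (fun x => (x 0, x 1))
      (cont2 (continuous_apply 0) (continuous_apply 1))) 1 ∈ deg (Y := Y) 2 := by
  have c0 : Continuous fun x : Q => x 0 := continuous_apply 0
  have c1 : Continuous fun x : Q => x 1 := continuous_apply 1
  have cs := unitInterval.continuous_symm
  -- the squares which occur
  set cc : C(Q, Y) := sq F (fun x => (x 0, x 1)) (cont2 c0 c1) with hcc
  set cl : C(Q, Y) := sq F (fun x => (x 0, lo (x 1))) (cont2 c0 (continuous_lo.comp c1)) with hcl
  set ch : C(Q, Y) := sq F (fun x => (x 0, hi (x 1))) (cont2 c0 (continuous_hi.comp c1)) with hch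
  set r1 : C(Q, Y) := sq F (fun x => (unitInterval.symm (rvm (x 0, x 1)), 0))
    (cont2 (cs.comp (continuous_rvm.comp (cont2 c0 c1))) continuous_const) with hr1
  set r0 : C(Q, Y) := sq F (fun x => (rvm (x 0, x 1), 0))
    (cont2 (continuous_rvm.comp (cont2 c0 c1)) continuous_const) with hr0
  set p1 : C(Q, Y) := sq F (fun x => (unitInterval.symm (x 1) * x 0, 0))
    (cont2 ((cs.comp c1).mul c0) continuous_const) with hp1
  set p2 : C(Q, Y) := sq F (fun x => (unitInterval.symm (x 1) * unitInterval.symm (x 0), 0))
    (cont2 ((cs.comp c1).mul (cs.comp c0)) continuous_const) with hp2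
  set k0 : C(Q, Y) := sq F (fun _ => (0, 0)) continuous_const with hk0
  set k1 : C(Q, Y) := sq F (fun _ => (1, 0)) continuous_const with hk1
  set d1 : C(Q, Y) := sq F (fun x => (x 0, 0)) (cont2 c0 continuous_const) with hd1
  set d2 : C(Q, Y) := sq F (fun x => (unitInterval.symm (x 1), 0))
    (cont2 (cs.comp c1) continuous_const) with hd2
  have hl1 : lo 1 = hi 0 := Subtype.ext (by simp)
  have hl0 : lo 0 = 0 := Subtype.ext (by simp)
  have hx1 : ∀ u, hlf (1, u) = hi u := fun u => rfl
  have hx0 : ∀ u, hlf (0, u) = 0 := fun u => Subtype.ext (by simp)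
  have hy1 : ∀ a, hlf (a, 1) = a := fun a => Subtype.ext (by simp only [coe_hlf, Set.Icc.coe_one]; ring)
  have hy0 : ∀ a, hlf (a, 0) = lo a := fun a => rfl
  have hr1' : ∀ u, rvm (1, u) = unitInterval.symm u := fun u => by simp [rvm]
  have hr0' : ∀ u, rvm (0, u) = 0 := fun u => by simp [rvm]
  have hs1' : ∀ a, rvm (a, 1) = 0 := fun a => by simp [rvm]
  have hs0' : ∀ a, rvm (a, 0) = a := fun a => by simp [rvm]
  have bd3 : ∀ c : C(Q, Y), bd 3 (Finsupp.single c (1 : ℤ)) =
      (Finsupp.single (face 0 1 c) (1 : ℤ) - Finsupp.single (face 0 0 c) 1) -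
      (Finsupp.single (face 1 1 c) (1 : ℤ) - Finsupp.single (face 1 0 c) 1) +
      (Finsupp.single (face 2 1 c) (1 : ℤ) - Finsupp.single (face 2 0 c) 1) := by
    intro c
    rw [bd_single, sum_range_succ, sum_range_succ, sum_range_one]
    simp only [pow_zero, pow_one, one_smul, neg_smul, show (-1 : ℤ) ^ 2 = 1 by norm_num]
    abel
  have eT : bd 3 (Finsupp.single (sq F (fun x => (x 0, hlf (x 1, x 2)))
      (cont2 (continuous_apply 0) (continuous_hlf.comp (cont2 (continuous_apply 1)
        (continuous_apply 2))))) (1 : ℤ)) = (Finsupp.single k1 1 - Finsupp.single k0 1) -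
      (Finsupp.single ch 1 - Finsupp.single d1 1) +
      (Finsupp.single cc 1 - Finsupp.single cl 1) := by
    rw [bd3]
    congr 1
    · congr 1
      · congr 2 <;> ext x <;> simp only [sq, hk1, hk0, face_apply, ContinuousMap.comp_apply,
          ContinuousMap.coe_mk, ins0, ins1, ins2]
        · exact h1 _
        · exact h0 _
      · congr 2 <;> ext x <;> simp [sq, hch, hd1, ins0, ins1, ins2, hx1, hx0]
    · congr 2 <;> ext x <;> simp [sq, hcc, hcl, ins0, ins1, ins2, hy1, hy0]
  have eR : bd 3 (Finsupp.single (sq F (fun x => (rvm (x 0, x 1), lo (x 2))) (cont2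
      (continuous_rvm.comp (cont2 (continuous_apply 0) (continuous_apply 1)))
      (continuous_lo.comp (continuous_apply 2)))) (1 : ℤ)) =
      (Finsupp.single ch 1 - Finsupp.single k0 1) -
      (Finsupp.single k0 1 - Finsupp.single cl 1) +
      (Finsupp.single r1 1 - Finsupp.single r0 1) := by
    rw [bd3]
    congr 1
    · congr 1
      · congr 2 <;> ext x <;> simp only [sq, hch, hk0, face_apply, ContinuousMap.comp_apply,
          ContinuousMap.coe_mk, ins0, ins1, ins2]
        · simp [hr1', hs]
        · simp [hr0', h0 (lo (x 1))]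
      · congr 2 <;> ext x
        · simp [sq, hk0, ins0, ins1, ins2, hs1', h0 (lo (x 1))]
        · simp [sq, hcl, ins0, ins1, ins2, hs0']
    · congr 2 <;> ext x
      · simp [sq, hr1, ins0, ins1, ins2, hl1, hs, hl0]
      · simp [sq, hr0, ins0, ins1, ins2, hl0]
  have eS1 : bd 3 (Finsupp.single (sq F
      (fun x => (unitInterval.symm (x 2) * unitInterval.symm (rvm (x 0, x 1)), 0))
      (cont2 ((unitInterval.continuous_symm.comp (continuous_apply 2)).mul
      (unitInterval.continuous_symm.comp
        (continuous_rvm.comp (cont2 (continuous_apply 0) (continuous_apply 1)))))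
      continuous_const)) (1 : ℤ)) =
      (Finsupp.single p1 1 - Finsupp.single d2 1) -
      (Finsupp.single d2 1 - Finsupp.single p2 1) +
      (Finsupp.single k0 1 - Finsupp.single r1 1) := by
    rw [bd3]
    congr 1
    · congr 1
      · congr 2 <;> ext x
        · simp [sq, hp1, ins0, ins1, ins2, hr1']
        · simp [sq, hd2, ins0, ins1, ins2, hr0']
      · congr 2 <;> ext x
        · simp [sq, hd2, ins0, ins1, ins2, hs1']
        · simp [sq, hp2, ins0, ins1, ins2, hs0']
    · congr 2 <;> ext x
      · simp [sq, hk0, ins0, ins1, ins2]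
      · simp [sq, hr1, ins0, ins1, ins2]
  have eS0 : bd 3 (Finsupp.single (sq F (fun x => (unitInterval.symm (x 2) * rvm (x 0, x 1), 0))
      (cont2 ((unitInterval.continuous_symm.comp (continuous_apply 2)).mul
        (continuous_rvm.comp (cont2 (continuous_apply 0) (continuous_apply 1))))
      continuous_const)) (1 : ℤ)) =
      (Finsupp.single p2 1 - Finsupp.single k0 1) -
      (Finsupp.single k0 1 - Finsupp.single p1 1) +
      (Finsupp.single k0 1 - Finsupp.single r0 1) := by
    rw [bd3]
    congr 1
    · congr 1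
      · congr 2 <;> ext x
        · simp [sq, hp2, ins0, ins1, ins2, hr1']
        · simp [sq, hk0, ins0, ins1, ins2, hr0']
      · congr 2 <;> ext x
        · simp [sq, hk0, ins0, ins1, ins2, hs1']
        · simp [sq, hp1, ins0, ins1, ins2, hs0']
    · congr 2 <;> ext x
      · simp [sq, hk0, ins0, ins1, ins2]
      · simp [sq, hr0, ins0, ins1, ins2]
  have e : bd 3 (AP F) - Finsupp.single cc 1 = Finsupp.single k1 1 + Finsupp.single d1 1
      - Finsupp.single k0 1 - Finsupp.single d2 1 - Finsupp.single d2 1 := by
    unfold AP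
    rw [map_sub, map_add, map_add, eT, eR, eS1, eS0]
    abel
  rw [e]
  have m0 : Finsupp.single k0 (1 : ℤ) ∈ deg (Y := Y) 2 :=
    single_deg ⟨0, by norm_num, fun x x' _ => rfl⟩
  have m1 : Finsupp.single k1 (1 : ℤ) ∈ deg (Y := Y) 2 :=
    single_deg ⟨0, by norm_num, fun x x' _ => rfl⟩
  have m2 : Finsupp.single d1 (1 : ℤ) ∈ deg (Y := Y) 2 :=
    single_deg ⟨1, by norm_num, fun x x' hx => by
      simp only [hd1, sq, ContinuousMap.comp_apply, ContinuousMap.coe_mk, hx 0 (by norm_num)]⟩
  have m3 : Finsupp.single d2 (1 : ℤ) ∈ deg (Y := Y) 2 :=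
    single_deg ⟨0, by norm_num, fun x x' hx => by
      simp only [hd2, sq, ContinuousMap.comp_apply, ContinuousMap.coe_mk, hx 1 (by norm_num)]⟩
  exact Submodule.sub_mem _ (Submodule.sub_mem _ (Submodule.sub_mem _
    (Submodule.add_mem _ m1 m2) m0) m3) m3

/-- the cubes of `AP F` are in the image of `F` -/
theorem AP_supp (F : C(unitInterval × unitInterval, Y)) (S : Set Y) (hS : ∀ p, F p ∈ S) :
    AP F ∈ Finsupp.supported ℤ ℤ {c : C(Q, Y) | ∀ x, c x ∈ S} := by
  unfold AP
  refine Submodule.sub_mem _ (Submodule.add_mem _ (Submodule.add_mem _ ?_ ?_) ?_) ?_ <;>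
  · refine Finsupp.single_mem_supported ℤ _ ?_
    intro x
    exact hS _

end antipodal

end Pool.Agent.Helper50.Drop
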