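import Pool.Agent.Helper50.Drop.Lev
import Pool.Agent.Helper50.Drop.Moves

/-!
# The cycle of level loops
-/

set_option autoImplicit false
set_option linter.unusedSimpArgs false

namespace Pool.Agent.Helper50.Drop

open scoped RealInnerProductSpace
open Finset
open Pool.Agent.Helper76.Freq (Q ins tr sh continuous_ins R3 ver inner3 norm3)

/-! ## top and bottom loops -/

theorem sqrt_four : √(3 + (1 : ℝ) ^ 2) = 2 := by
  rw [show (3 + (1 : ℝ) ^ 2) = 2 ^ 2 by norm_num, Real.sqrt_sq (by norm_num)]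

theorem lp_top (v a b : R3) (t : ℝ) : lp v a b 1 t = ver5 (Rot v (2 * Real.pi * t) a) := by
  unfold lp
  rw [sqrt_four]
  norm_num

theorem lp_bot (v a b : R3) (t : ℝ) : lp v a b (-1) t = - ver5 (Rot v (2 * Real.pi * t) b) := by
  unfold lp
  rw [show ((-1 : ℝ)) ^ 2 = 1 ^ 2 by norm_num, sqrt_four]
  norm_num

theorem good_top {v a : R3} (hv : ‖v‖ = 1) (ha : ‖a‖ = 1) : Good (v, a, a, 1) :=
  ⟨hv, ha, ha, by simp, Or.inr (Or.inl rfl)⟩

theorem good_bot {v a : R3} (hv : ‖v‖ = 1) (ha : ‖a‖ = 1) : Good (v, a, a, -1) :=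
  ⟨hv, ha, ha, by simp, Or.inr (Or.inr rfl)⟩

section
variable {Z : Type*} [TopologicalSpace Z]

/-- loops of the top level -/
noncomputable def TL (v a : Z → R3) (hv : Continuous v) (ha : Continuous a) (nv : ∀ z, ‖v z‖ = 1)
    (na : ∀ z, ‖a z‖ = 1) : C(Z, CL 4) :=
  LL v a a (fun _ => 1) hv ha ha continuous_const fun z => good_top (nv z) (na z)

/-- loops of the bottom level -/
noncomputable def BL (v a : Z → R3) (hv : Continuous v) (ha : Continuous a) (nv : ∀ z, ‖v z‖ = 1)
    (na : ∀ z, ‖a z‖ = 1) : C(Z, CL 4) :=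
  LL v a a (fun _ => -1) hv ha ha continuous_const fun z => good_bot (nv z) (na z)

theorem TL_pos (v a : Z → R3) (hv : Continuous v) (ha : Continuous a) (nv : ∀ z, ‖v z‖ = 1)
    (na : ∀ z, ‖a z‖ = 1) (z : Z) (t : unitInterval) :
    (TL v a hv ha nv na z).pos t = ver5 (Rot (v z) (2 * Real.pi * t) (a z)) := by
  unfold TL
  rw [LL_pos, lp_top]

theorem BL_pos (v a : Z → R3) (hv : Continuous v) (ha : Continuous a) (nv : ∀ z, ‖v z‖ = 1)
    (na : ∀ z, ‖a z‖ = 1) (z : Z) (t : unitInterval) :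
    (BL v a hv ha nv na z).pos t = - ver5 (Rot (v z) (2 * Real.pi * t) (a z)) := by
  unfold BL
  rw [LL_pos, lp_bot]

end

/-! ## the sphere -/

/-- polar coordinates on the unit sphere -/
noncomputable def sph (x y : ℝ) : R3 :=
  !₂[Real.cos (Real.pi * x), Real.sin (Real.pi * x) * Real.cos (2 * Real.pi * y),
    Real.sin (Real.pi * x) * Real.sin (2 * Real.pi * y)]

theorem norm_eq_one_of_sq {a : R3} (h : a 0 ^ 2 + a 1 ^ 2 + a 2 ^ 2 = 1) : ‖a‖ = 1 := by
  have h1 := norm3 a
  rw [h] at h1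
  have h2 := norm_nonneg a
  nlinarith [h1, h2]

theorem norm_sph (x y : ℝ) : ‖sph x y‖ = 1 := by
  apply norm_eq_one_of_sq
  change Real.cos (Real.pi * x) ^ 2 + (Real.sin (Real.pi * x) * Real.cos (2 * Real.pi * y)) ^ 2 +
    (Real.sin (Real.pi * x) * Real.sin (2 * Real.pi * y)) ^ 2 = 1
  have h1 := Real.sin_sq_add_cos_sq (Real.pi * x)
  have h2 := Real.sin_sq_add_cos_sq (2 * Real.pi * y)
  nlinarith [h1, h2]

theorem continuous_vec3 {Z : Type*} [TopologicalSpace Z] {f g h : Z → ℝ} (hf : Continuous f)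
    (hg : Continuous g) (hh : Continuous h) : Continuous fun z => (!₂[f z, g z, h z] : R3) := by
  have : Continuous fun z => (![f z, g z, h z] : Fin 3 → ℝ) := by
    refine continuous_pi fun i => ?_
    fin_cases i
    · exact hf
    · exact hg
    · exact hh
  exact (PiLp.continuous_toLp 2 _).comp this

theorem continuous_sph {Z : Type*} [TopologicalSpace Z] {f g : Z → ℝ} (hf : Continuous f)
    (hg : Continuous g) : Continuous fun z => sph (f z) (g z) := by
  unfold sph
  refine continuous_vec3 ?_ ?_ ?_ <;> fun_prop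

theorem norm_e1 : ‖e1‖ = 1 := norm_eq_one_of_sq (by simp [e1])
theorem norm_e2 : ‖e2‖ = 1 := norm_eq_one_of_sq (by simp [e2])
theorem norm_e3 : ‖e3‖ = 1 := norm_eq_one_of_sq (by simp [e3])
theorem inner_e1_e3 : ⟪e1, e3⟫ = 0 := by rw [inner3]; simp [e1, e3]

theorem sph_zero (y : ℝ) : sph 0 y = e1 := by
  unfold sph e1
  simp

theorem sph_one (y : ℝ) : sph 1 y = -e1 := by
  unfold sph e1
  ext i
  fin_cases i <;> simp

theorem sph_y_one (x : ℝ) : sph x 1 = sph x 0 := by
  unfold sph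
  simp

/-- antipodal symmetry -/
theorem sph_symm (x y : ℝ) : sph x ((1 + y) / 2) = - sph (1 - x) (y / 2) := by
  unfold sph
  have h1 : 2 * Real.pi * ((1 + y) / 2) = 2 * Real.pi * (y / 2) + Real.pi := by ring
  have h2 : Real.pi * (1 - x) = Real.pi - Real.pi * x := by ring
  rw [h1, h2, Real.cos_add_pi, Real.sin_add_pi, Real.cos_pi_sub, Real.sin_pi_sub]
  ext i
  fin_cases i <;> simp

/-- the arc from `e1` to `e3` -/
noncomputable def arc (s : ℝ) : R3 := !₂[Real.cos (Real.pi * s / 2), 0, Real.sin (Real.pi * s / 2)]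

theorem norm_arc (s : ℝ) : ‖arc s‖ = 1 := by
  apply norm_eq_one_of_sq
  change Real.cos (Real.pi * s / 2) ^ 2 + 0 ^ 2 + Real.sin (Real.pi * s / 2) ^ 2 = 1
  have h1 := Real.sin_sq_add_cos_sq (Real.pi * s / 2)
  nlinarith [h1]

theorem arc_zero : arc 0 = e1 := by
  unfold arc e1; simp

theorem arc_one : arc 1 = e3 := by
  unfold arc e3; simp

/-! ## the cubes -/

/-- coordinates of the cube as real numbers are continuous -/
theorem cc (i : ℕ) : Continuous fun x : Q => (x i : ℝ) :=
  continuous_subtype_val.comp (continuous_apply i)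

theorem abs_two_sub_one (a : unitInterval) : |2 * (a : ℝ) - 1| ≤ 1 := by
  rw [abs_le]
  have h1 := a.2.1
  have h2 := a.2.2
  constructor <;> linarith

theorem good_D1 {v : R3} {s : ℝ} (hv : ‖v‖ = 1) (hs : |s| ≤ 1) : Good (v, e1, e3, s) :=
  ⟨hv, norm_e1, norm_e3, hs, Or.inl inner_e1_e3⟩

/-- the cube through all levels -/
noncomputable def D1c : C(Q, CL 4) :=
  LL (fun x : Q => sph (x 0) (x 1)) (fun _ => e1) (fun _ => e3) (fun x => 2 * (x 2 : ℝ) - 1)
    (continuous_sph (cc 0) (cc 1)) continuous_const continuous_const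
    ((continuous_const.mul (cc 2)).sub continuous_const)
    fun x => good_D1 (norm_sph _ _) (abs_two_sub_one (x 2))

/-- the cube of bottom loops -/
noncomputable def D2c : C(Q, CL 4) :=
  BL (fun x : Q => sph (x 0) (x 1)) (fun x => arc (x 2)) (continuous_sph (cc 0) (cc 1))
    (by
      unfold arc
      have := cc 2
      refine continuous_vec3 ?_ ?_ ?_ <;> fun_prop)
    (fun _ => norm_sph _ _) (fun _ => norm_arc _)

theorem continuous_CC : Continuous fun x : Q => sph ((x 1 : ℝ) * (x 0 : ℝ)) (x 2) :=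
  continuous_sph ((cc 1).mul (cc 0)) (cc 2)

/-- the cube of top loops -/
noncomputable def Cc : C(Q, CL 4) :=
  TL (fun x : Q => sph (x 0) (x 2)) (fun x => sph ((x 1 : ℝ) * (x 0 : ℝ)) (x 2))
    (continuous_sph (cc 0) (cc 2)) continuous_CC (fun _ => norm_sph _ _) (fun _ => norm_sph _ _)

/-- the second cube of bottom loops -/
noncomputable def NCc : C(Q, CL 4) :=
  BL (fun x : Q => sph (x 0) (x 2)) (fun x => sph ((x 1 : ℝ) * (x 0 : ℝ)) (x 2))
    (continuous_sph (cc 0) (cc 2)) continuous_CC (fun _ => norm_sph _ _) (fun _ => norm_sph _ _)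

theorem ci0 : Continuous fun p : unitInterval × unitInterval => (p.1 : ℝ) :=
  continuous_subtype_val.comp continuous_fst
theorem ci1 : Continuous fun p : unitInterval × unitInterval => (p.2 : ℝ) :=
  continuous_subtype_val.comp continuous_snd

theorem norm_neg_e1 : ‖-e1‖ = 1 := by rw [norm_neg, norm_e1]

noncomputable def Fk : C(unitInterval × unitInterval, CL 4) :=
  TL (fun _ => -e1) (fun p => sph p.1 p.2) continuous_const (continuous_sph ci0 ci1)
    (fun _ => norm_neg_e1) (fun _ => norm_sph _ _)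

noncomputable def NFk : C(unitInterval × unitInterval, CL 4) :=
  BL (fun _ => -e1) (fun p => sph p.1 p.2) continuous_const (continuous_sph ci0 ci1)
    (fun _ => norm_neg_e1) (fun _ => norm_sph _ _)

noncomputable def Fd : C(unitInterval × unitInterval, CL 4) :=
  TL (fun p => sph p.1 p.2) (fun p => sph p.1 p.2) (continuous_sph ci0 ci1) (continuous_sph ci0 ci1)
    (fun _ => norm_sph _ _) (fun _ => norm_sph _ _)

noncomputable def NFd : C(unitInterval × unitInterval, CL 4) :=
  BL (fun p => sph p.1 p.2) (fun p => sph p.1 p.2) (continuous_sph ci0 ci1) (continuous_sph ci0 ci1)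
    (fun _ => norm_sph _ _) (fun _ => norm_sph _ _)

/-- the part of the cycle at the levels `±1` -/
noncomputable def zc : QC (CL 4) :=
  Finsupp.single D2c 1 - Finsupp.single Cc 1 + Finsupp.single NCc 1 + AP Fk - AP Fd - AP NFk + AP NFd

/-- the cycle of level loops -/
noncomputable def zz : QC (CL 4) := Finsupp.single D1c 1 + zc

theorem lp_coe_top_neg (a : R3) (v : R3) (α : ℝ) : ver5 (Rot v α (-a)) = ver5 (Rot v α a) := by
  rw [Rot_neg, ver5_neg]

theorem symm_coe (a : unitInterval) : ((unitInterval.symm a : unitInterval) : ℝ) = 1 - a := rfl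

/-- symmetric families bound -/
theorem top_AP (v a : unitInterval × unitInterval → R3) (hv : Continuous v) (ha : Continuous a)
    (nv : ∀ z, ‖v z‖ = 1) (na : ∀ z, ‖a z‖ = 1)
    (h0 : ∀ b t, ver5 (Rot (v (0, b)) t (a (0, b))) = ver5 (Rot (v (0, 0)) t (a (0, 0))))
    (h1 : ∀ b t, ver5 (Rot (v (1, b)) t (a (1, b))) = ver5 (Rot (v (1, 0)) t (a (1, 0))))
    (hs : ∀ x b t, ver5 (Rot (v (x, hi b)) t (a (x, hi b))) =
      ver5 (Rot (v (unitInterval.symm x, lo b)) t (a (unitInterval.symm x, lo b)))) :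
    bd 3 (AP (TL v a hv ha nv na)) - Finsupp.single (sq (TL v a hv ha nv na) (fun x => (x 0, x 1))
      (cont2 (continuous_apply 0) (continuous_apply 1))) 1 ∈ deg (Y := CL 4) 2 := by
  refine AP_bd _ (fun b => CL.ext fun t => ?_) (fun b => CL.ext fun t => ?_)
    (fun x b => CL.ext fun t => ?_) <;> rw [TL_pos, TL_pos]
  · exact h0 _ _
  · exact h1 _ _
  · exact hs _ _ _

theorem bot_AP (v a : unitInterval × unitInterval → R3) (hv : Continuous v) (ha : Continuous a)
    (nv : ∀ z, ‖v z‖ = 1) (na : ∀ z, ‖a z‖ = 1)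
    (h0 : ∀ b t, ver5 (Rot (v (0, b)) t (a (0, b))) = ver5 (Rot (v (0, 0)) t (a (0, 0))))
    (h1 : ∀ b t, ver5 (Rot (v (1, b)) t (a (1, b))) = ver5 (Rot (v (1, 0)) t (a (1, 0))))
    (hs : ∀ x b t, ver5 (Rot (v (x, hi b)) t (a (x, hi b))) =
      ver5 (Rot (v (unitInterval.symm x, lo b)) t (a (unitInterval.symm x, lo b)))) :
    bd 3 (AP (BL v a hv ha nv na)) - Finsupp.single (sq (BL v a hv ha nv na) (fun x => (x 0, x 1))
      (cont2 (continuous_apply 0) (continuous_apply 1))) 1 ∈ deg (Y := CL 4) 2 := by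
  refine AP_bd _ (fun b => CL.ext fun t => ?_) (fun b => CL.ext fun t => ?_)
    (fun x b => CL.ext fun t => ?_) <;> rw [BL_pos, BL_pos, neg_inj]
  · exact h0 _ _
  · exact h1 _ _
  · exact hs _ _ _

theorem bd3 {Y : Type*} [TopologicalSpace Y] (c : C(Q, Y)) : bd 3 (Finsupp.single c (1 : ℤ)) =
      (Finsupp.single (face 0 1 c) (1 : ℤ) - Finsupp.single (face 0 0 c) 1) -
      (Finsupp.single (face 1 1 c) (1 : ℤ) - Finsupp.single (face 1 0 c) 1) +
      (Finsupp.single (face 2 1 c) (1 : ℤ) - Finsupp.single (face 2 0 c) 1) := by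
  rw [bd_single, sum_range_succ, sum_range_succ, sum_range_one]
  simp only [pow_zero, pow_one, one_smul, neg_smul, show (-1 : ℤ) ^ 2 = 1 by norm_num]
  abel

theorem sph_k (v : R3) : (∀ (b : unitInterval) t, ver5 (Rot v t (sph (0 : unitInterval) b)) =
      ver5 (Rot v t (sph (0 : unitInterval) (0 : unitInterval)))) ∧
    (∀ (b : unitInterval) t, ver5 (Rot v t (sph (1 : unitInterval) b)) =
      ver5 (Rot v t (sph (1 : unitInterval) (0 : unitInterval)))) ∧
    (∀ (x b : unitInterval) t, ver5 (Rot v t (sph x (hi b))) =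
      ver5 (Rot v t (sph (unitInterval.symm x) (lo b)))) := by
  refine ⟨fun b t => ?_, fun b t => ?_, fun x b t => ?_⟩
  · simp only [Set.Icc.coe_zero, sph_zero]
  · simp only [Set.Icc.coe_one, sph_one]
  · rw [coe_hi, coe_lo, symm_coe, sph_symm, lp_coe_top_neg]

theorem sph_d : (∀ (b : unitInterval) t, ver5 (Rot (sph (0 : unitInterval) b) t
      (sph (0 : unitInterval) b)) = ver5 (Rot (sph (0 : unitInterval) (0 : unitInterval)) t
      (sph (0 : unitInterval) (0 : unitInterval)))) ∧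
    (∀ (b : unitInterval) t, ver5 (Rot (sph (1 : unitInterval) b) t (sph (1 : unitInterval) b)) =
      ver5 (Rot (sph (1 : unitInterval) (0 : unitInterval)) t
      (sph (1 : unitInterval) (0 : unitInterval)))) ∧
    (∀ (x b : unitInterval) t, ver5 (Rot (sph x (hi b)) t (sph x (hi b))) =
      ver5 (Rot (sph (unitInterval.symm x) (lo b)) t (sph (unitInterval.symm x) (lo b)))) := by
  refine ⟨fun b t => ?_, fun b t => ?_, fun x b t => ?_⟩
  · simp only [Set.Icc.coe_zero, sph_zero]
  · simp only [Set.Icc.coe_one, sph_one]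
  · rw [Rot_self (norm_sph _ _), Rot_self (norm_sph _ _), coe_hi, coe_lo, symm_coe, sph_symm,
      ver5_neg]

theorem D1c_pos (x : Q) (t : unitInterval) :
    (D1c x).pos t = lp (sph (x 0) (x 1)) e1 e3 (2 * (x 2 : ℝ) - 1) t := by
  unfold D1c; rw [LL_pos]

theorem D2c_pos (x : Q) (t : unitInterval) :
    (D2c x).pos t = - ver5 (Rot (sph (x 0) (x 1)) (2 * Real.pi * t) (arc (x 2))) := by
  unfold D2c; rw [BL_pos]

theorem Cc_pos (x : Q) (t : unitInterval) : (Cc x).pos t =
    ver5 (Rot (sph (x 0) (x 2)) (2 * Real.pi * t) (sph ((x 1 : ℝ) * (x 0 : ℝ)) (x 2))) := by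
  unfold Cc; rw [TL_pos]

theorem NCc_pos (x : Q) (t : unitInterval) : (NCc x).pos t =
    - ver5 (Rot (sph (x 0) (x 2)) (2 * Real.pi * t) (sph ((x 1 : ℝ) * (x 0 : ℝ)) (x 2))) := by
  unfold NCc; rw [BL_pos]

theorem cube_ext {c c' : C(Q, CL 4)} (h : ∀ x t, (c x).pos t = (c' x).pos t) : c = c' :=
  ContinuousMap.ext fun x => CL.ext fun t => h x t

theorem cube_deg {c : C(Q, CL 4)} {d i : ℕ} (hi : i < d)
    (h : ∀ x x' : Q, (∀ j, j ≠ i → x j = x' j) → ∀ t, (c x).pos t = (c x').pos t) :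
    Finsupp.single c (1 : ℤ) ∈ deg (Y := CL 4) d :=
  single_deg ⟨i, hi, fun x x' hx => CL.ext fun t => h x x' hx t⟩

/-- the boundary of the cycle of level loops is degenerate -/
theorem bd_zz : bd 3 zz ∈ deg (Y := CL 4) 2 := by
  have hk := sph_k (-e1)
  have hk1 := top_AP (fun _ => -e1) (fun p => sph p.1 p.2) continuous_const (continuous_sph ci0 ci1)
    (fun _ => norm_neg_e1) (fun _ => norm_sph _ _) hk.1 hk.2.1 hk.2.2
  have hk2 := bot_AP (fun _ => -e1) (fun p => sph p.1 p.2) continuous_const (continuous_sph ci0 ci1)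
    (fun _ => norm_neg_e1) (fun _ => norm_sph _ _) hk.1 hk.2.1 hk.2.2
  have hd := sph_d
  have hd1 := top_AP (fun p => sph p.1 p.2) (fun p => sph p.1 p.2) (continuous_sph ci0 ci1)
    (continuous_sph ci0 ci1) (fun _ => norm_sph _ _) (fun _ => norm_sph _ _) hd.1 hd.2.1 hd.2.2
  have hd2 := bot_AP (fun p => sph p.1 p.2) (fun p => sph p.1 p.2) (continuous_sph ci0 ci1)
    (continuous_sph ci0 ci1) (fun _ => norm_sph _ _) (fun _ => norm_sph _ _) hd.1 hd.2.1 hd.2.2
  change bd 3 (AP Fk) - Finsupp.single (sq Fk _ _) 1 ∈ _ at hk1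
  change bd 3 (AP NFk) - Finsupp.single (sq NFk _ _) 1 ∈ _ at hk2
  change bd 3 (AP Fd) - Finsupp.single (sq Fd _ _) 1 ∈ _ at hd1
  change bd 3 (AP NFd) - Finsupp.single (sq NFd _ _) 1 ∈ _ at hd2
  -- faces of `D1c`
  have a1 : Finsupp.single (face 0 1 D1c) (1 : ℤ) ∈ deg (Y := CL 4) 2 :=
    cube_deg (i := 0) (by norm_num) fun x x' hx t => by
      simp only [face_apply, D1c_pos, ins0, ins1, ins2, if_true, if_false, one_ne_zero,
        Set.Icc.coe_one, sph_one, hx 1 one_ne_zero]
  have a2 : Finsupp.single (face 0 0 D1c) (1 : ℤ) ∈ deg (Y := CL 4) 2 :=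
    cube_deg (i := 0) (by norm_num) fun x x' hx t => by
      simp only [face_apply, D1c_pos, ins0, ins1, ins2, if_true, if_false, one_ne_zero,
        Set.Icc.coe_zero, sph_zero, hx 1 one_ne_zero]
  have a3 : face 1 1 D1c = face 1 0 D1c := cube_ext fun x t => by
    simp only [face_apply, D1c_pos, ins0, ins1, ins2, if_true, if_false, one_ne_zero,
        Set.Icc.coe_zero, Set.Icc.coe_one, sph_y_one]
  -- faces of `D2c`
  have b1 : Finsupp.single (face 0 1 D2c) (1 : ℤ) ∈ deg (Y := CL 4) 2 :=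
    cube_deg (i := 0) (by norm_num) fun x x' hx t => by
      simp only [face_apply, D2c_pos, ins0, ins1, ins2, if_true, if_false, one_ne_zero,
        Set.Icc.coe_one, sph_one, hx 1 one_ne_zero]
  have b2 : Finsupp.single (face 0 0 D2c) (1 : ℤ) ∈ deg (Y := CL 4) 2 :=
    cube_deg (i := 0) (by norm_num) fun x x' hx t => by
      simp only [face_apply, D2c_pos, ins0, ins1, ins2, if_true, if_false, one_ne_zero,
        Set.Icc.coe_zero, sph_zero, hx 1 one_ne_zero]
  have b3 : face 1 1 D2c = face 1 0 D2c := cube_ext fun x t => by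
    simp only [face_apply, D2c_pos, ins0, ins1, ins2, if_true, if_false, one_ne_zero,
        Set.Icc.coe_zero, Set.Icc.coe_one, sph_y_one]
  have b4 : face 2 1 D2c = face 2 0 D1c := cube_ext fun x t => by
    simp only [face_apply, D2c_pos, D1c_pos, ins0, ins1, ins2, if_true, if_false, one_ne_zero,
        OfNat.ofNat_ne_zero, OfNat.ofNat_ne_one, Set.Icc.coe_zero, Set.Icc.coe_one, arc_one, mul_zero,
        zero_sub, lp_bot]
  -- faces of `Cc`
  have c1 : face 0 1 Cc = sq Fk (fun x => (x 0, x 1))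
      (cont2 (continuous_apply 0) (continuous_apply 1)) := cube_ext fun x t => by
    change _ = (Fk (x 0, x 1)).pos t
    unfold Fk
    rw [TL_pos]
    simp only [face_apply, Cc_pos, ins0, ins1, ins2, if_true, if_false, one_ne_zero,
        OfNat.ofNat_ne_zero, OfNat.ofNat_ne_one, Set.Icc.coe_zero, Set.Icc.coe_one, sph_one, mul_one]
  have c2 : Finsupp.single (face 0 0 Cc) (1 : ℤ) ∈ deg (Y := CL 4) 2 :=
    cube_deg (i := 0) (by norm_num) fun x x' hx t => by
      simp only [face_apply, Cc_pos, ins0, ins1, ins2, if_true, if_false, one_ne_zero,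
        Set.Icc.coe_zero, sph_zero, mul_zero]
  have c3 : face 1 1 Cc = sq Fd (fun x => (x 0, x 1))
      (cont2 (continuous_apply 0) (continuous_apply 1)) := cube_ext fun x t => by
    change _ = (Fd (x 0, x 1)).pos t
    unfold Fd
    rw [TL_pos]
    simp only [face_apply, Cc_pos, ins0, ins1, ins2, if_true, if_false, one_ne_zero,
        OfNat.ofNat_ne_zero, OfNat.ofNat_ne_one, Set.Icc.coe_zero, Set.Icc.coe_one, one_mul]
  have c4 : face 1 0 Cc = face 2 1 D1c := cube_ext fun x t => by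
    simp only [face_apply, Cc_pos, D1c_pos, ins0, ins1, ins2, if_true, if_false, one_ne_zero,
        OfNat.ofNat_ne_zero, OfNat.ofNat_ne_one, Set.Icc.coe_zero, Set.Icc.coe_one, zero_mul,
        sph_zero, mul_one, show (2 : ℝ) - 1 = 1 by norm_num, lp_top]
  have c5 : face 2 1 Cc = face 2 0 Cc := cube_ext fun x t => by
    simp only [face_apply, Cc_pos, ins0, ins1, ins2, if_true, if_false, one_ne_zero,
        OfNat.ofNat_ne_zero, OfNat.ofNat_ne_one, Set.Icc.coe_zero, Set.Icc.coe_one, sph_y_one]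
  -- faces of `NCc`
  have d1 : face 0 1 NCc = sq NFk (fun x => (x 0, x 1))
      (cont2 (continuous_apply 0) (continuous_apply 1)) := cube_ext fun x t => by
    change _ = (NFk (x 0, x 1)).pos t
    unfold NFk
    rw [BL_pos]
    simp only [face_apply, NCc_pos, ins0, ins1, ins2, if_true, if_false, one_ne_zero,
        OfNat.ofNat_ne_zero, OfNat.ofNat_ne_one, Set.Icc.coe_zero, Set.Icc.coe_one, sph_one, mul_one]
  have d2 : Finsupp.single (face 0 0 NCc) (1 : ℤ) ∈ deg (Y := CL 4) 2 :=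
    cube_deg (i := 0) (by norm_num) fun x x' hx t => by
      simp only [face_apply, NCc_pos, ins0, ins1, ins2, if_true, if_false, one_ne_zero,
        Set.Icc.coe_zero, sph_zero, mul_zero]
  have d3 : face 1 1 NCc = sq NFd (fun x => (x 0, x 1))
      (cont2 (continuous_apply 0) (continuous_apply 1)) := cube_ext fun x t => by
    change _ = (NFd (x 0, x 1)).pos t
    unfold NFd
    rw [BL_pos]
    simp only [face_apply, NCc_pos, ins0, ins1, ins2, if_true, if_false, one_ne_zero,
        OfNat.ofNat_ne_zero, OfNat.ofNat_ne_one, Set.Icc.coe_zero, Set.Icc.coe_one, one_mul]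
  have d4 : face 1 0 NCc = face 2 0 D2c := cube_ext fun x t => by
    simp only [face_apply, NCc_pos, D2c_pos, ins0, ins1, ins2, if_true, if_false, one_ne_zero,
        OfNat.ofNat_ne_zero, OfNat.ofNat_ne_one, Set.Icc.coe_zero, Set.Icc.coe_one, zero_mul,
        sph_zero, arc_zero]
  have d5 : face 2 1 NCc = face 2 0 NCc := cube_ext fun x t => by
    simp only [face_apply, NCc_pos, ins0, ins1, ins2, if_true, if_false, one_ne_zero,
        OfNat.ofNat_ne_zero, OfNat.ofNat_ne_one, Set.Icc.coe_zero, Set.Icc.coe_one, sph_y_one]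
  have e : bd 3 zz = Finsupp.single (face 0 1 D1c) 1 - Finsupp.single (face 0 0 D1c) 1 +
      Finsupp.single (face 0 1 D2c) 1 - Finsupp.single (face 0 0 D2c) 1 +
      Finsupp.single (face 0 0 Cc) 1 - Finsupp.single (face 0 0 NCc) 1 +
      (bd 3 (AP Fk) - Finsupp.single (sq Fk (fun x => (x 0, x 1))
        (cont2 (continuous_apply 0) (continuous_apply 1))) 1) -
      (bd 3 (AP NFk) - Finsupp.single (sq NFk (fun x => (x 0, x 1))
        (cont2 (continuous_apply 0) (continuous_apply 1))) 1) -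
      (bd 3 (AP Fd) - Finsupp.single (sq Fd (fun x => (x 0, x 1))
        (cont2 (continuous_apply 0) (continuous_apply 1))) 1) +
      (bd 3 (AP NFd) - Finsupp.single (sq NFd (fun x => (x 0, x 1))
        (cont2 (continuous_apply 0) (continuous_apply 1))) 1) := by
    unfold zz zc
    simp only [map_add, map_sub, bd3]
    rw [a3, b3, b4, c1, c3, c4, c5, d1, d3, d4, d5]
    abel
  rw [e]
  exact Submodule.add_mem _ (Submodule.sub_mem _ (Submodule.sub_mem _ (Submodule.add_mem _
    (Submodule.sub_mem _ (Submodule.add_mem _ (Submodule.sub_mem _ (Submodule.add_mem _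
      (Submodule.sub_mem _ a1 a2) b1) b2) c2) d2) hk1) hk2) hd1) hd2

end Pool.Agent.Helper50.Drop
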