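import Mathlib

/-!
# Definitions for MP_51c806_gt (strict drop of minimax levels under integer multiples)

* Riemannian metrics on `S^n`, the free loop space in the Sobolev `H¹` model, length;
* integral (cubical) singular homology, critical (minimax) levels.
-/

set_option autoImplicit false

namespace Pool.Agent.Helper50.Drop

open scoped RealInnerProductSpace ContDiff
open MeasureTheory

/-- `ℝ^{n+1}` -/
abbrev E (n : ℕ) : Type := EuclideanSpace ℝ (Fin (n + 1))

/-- A Riemannian metric on the unit sphere `S^n ⊂ ℝ^{n+1}`: a smooth field of symmetric bilinear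
forms on `ℝ^{n+1}` which is positive definite on the tangent spaces of the sphere (every smooth
Riemannian metric on `S^n` is the restriction of such a field). -/
structure SphereMetric (n : ℕ) where
  /-- the bilinear form at a point -/
  form : E n → E n →L[ℝ] E n →L[ℝ] ℝ
  smooth : ContDiff ℝ ∞ form
  symm : ∀ x u v, form x u v = form x v u
  pos : ∀ x u, ‖x‖ = 1 → ⟪x, u⟫ = 0 → u ≠ 0 → 0 < form x u u

/-- square integrable velocity fields on `[0, 1]` -/
abbrev Vel (n : ℕ) : Type := Lp (E n) 2 (volume.restrict (Set.Icc (0 : ℝ) 1))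

/-- the curve with starting point `p.1` and velocity `p.2` -/
noncomputable def curve {n : ℕ} (p : E n × Vel n) (t : ℝ) : E n := p.1 + ∫ s in (0 : ℝ)..t, p.2 s

/-- The free loop space of `S^n` in the Sobolev `H¹` model: closed curves in `S^n ⊂ ℝ^{n+1}` with
square integrable velocity, given by starting point and velocity, with the topology of
`ℝ^{n+1} × L²([0,1], ℝ^{n+1})` (which is the `H¹` topology). -/
def LoopSpace (n : ℕ) : Type :=
  {p : E n × Vel n // (∀ t ∈ Set.Icc (0 : ℝ) 1, ‖curve p t‖ = 1) ∧ curve p 1 = p.1}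

noncomputable instance (n : ℕ) : TopologicalSpace (LoopSpace n) :=
  inferInstanceAs (TopologicalSpace
    {p : E n × Vel n // (∀ t ∈ Set.Icc (0 : ℝ) 1, ‖curve p t‖ = 1) ∧ curve p 1 = p.1})

/-- length of a loop with respect to a metric -/
noncomputable def length {n : ℕ} (g : SphereMetric n) (γ : LoopSpace n) : ℝ :=
  ∫ t in (0 : ℝ)..1, Real.sqrt (g.form (curve γ.1 t) (γ.1.2 t) (γ.1.2 t))

/-! ## integral cubical singular homology -/

/-- maps from the standard `d`-cube -/
abbrev Cube (X : Type*) (d : ℕ) : Type _ := (Fin d → unitInterval) → X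

section homology

variable (X : Type*) [TopologicalSpace X]

/-- singular cubical `d`-chains of the subspace `S` of `X` -/
def chains (S : Set X) (d : ℕ) : Submodule ℤ (Cube X d →₀ ℤ) :=
  Finsupp.supported ℤ ℤ {c | Continuous c ∧ ∀ s, c s ∈ S}

/-- the chains spanned by degenerate cubes: those which do not depend on one of the coordinates -/
def degen (S : Set X) (d : ℕ) : Submodule ℤ (Cube X d →₀ ℤ) :=
  Finsupp.supported ℤ ℤ {c | (Continuous c ∧ ∀ s, c s ∈ S) ∧
    ∃ i : Fin d, ∀ s s' : Fin d → unitInterval, (∀ j, j ≠ i → s j = s' j) → c s = c s'}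

/-- the boundary of a cubical chain -/
noncomputable def bdry (X : Type*) (d : ℕ) : (Cube X (d + 1) →₀ ℤ) →ₗ[ℤ] (Cube X d →₀ ℤ) :=
  Finsupp.linearCombination ℤ (fun c : Cube X (d + 1) => ∑ i : Fin (d + 1),
    (-1 : ℤ) ^ (i : ℕ) • (Finsupp.single (fun s => c (Fin.insertNth i 1 s)) (1 : ℤ) -
      Finsupp.single (fun s => c (Fin.insertNth i 0 s)) (1 : ℤ)))

/-- cycles (modulo degenerate chains) of the subspace `S` -/
noncomputable def cycles (S : Set X) : (d : ℕ) → Submodule ℤ (Cube X d →₀ ℤ)
  | 0 => chains X S 0
  | d + 1 => chains X S (d + 1) ⊓ (degen X S d).comap (bdry X d)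

/-- boundaries (modulo degenerate chains) of the subspace `S` -/
noncomputable def bounds (S : Set X) (d : ℕ) : Submodule ℤ (Cube X d →₀ ℤ) :=
  (chains X S (d + 1)).map (bdry X d) ⊔ degen X S d

/-- (cubical) singular homology of `X` with integer coefficients -/
abbrev Homology (d : ℕ) : Type _ :=
  ↥(cycles X Set.univ d) ⧸ (bounds X Set.univ d).comap (cycles X Set.univ d).subtype

variable {X}

/-- the cycle `z` represents the class `x` -/
def Represents {d : ℕ} (z : Cube X d →₀ ℤ) (x : Homology X d) : Prop :=
  ∃ h : z ∈ cycles X Set.univ d, Submodule.Quotient.mk ⟨z, h⟩ = x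

end homology

/-- critical (minimax) level of a homology class: the infimum of all `a` such that the class is
represented by a cycle of the space of loops of length at most `a` -/
noncomputable def cr {n : ℕ} (g : SphereMetric n) {d : ℕ} (x : Homology (LoopSpace n) d) : ℝ :=
  sInf {a : ℝ | ∃ z ∈ cycles (LoopSpace n) {γ | length g γ ≤ a} d, Represents z x}

end Pool.Agent.Helper50.Drop
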