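import Pool.Agent.Helper93.Drop.Cl
import Pool.Agent.Helper48.Drop.Rot

/-!
# The family of level loops
-/

set_option autoImplicit false

namespace Pool.Agent.Helper50.Drop

open scoped RealInnerProductSpace
open Pool.Agent.Helper76.Freq (R3 ver)

/-- admissible parameters of level loops -/
def Good (p : R3 × R3 × R3 × ℝ) : Prop :=
  ‖p.1‖ = 1 ∧ ‖p.2.1‖ = 1 ∧ ‖p.2.2.1‖ = 1 ∧ |p.2.2.2| ≤ 1 ∧
    (⟪p.2.1, p.2.2.1⟫ = 0 ∨ p.2.2.2 = 1 ∨ p.2.2.2 = -1)

/-- parameters of level loops -/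
def Par : Type := {p : R3 × R3 × R3 × ℝ // Good p}

instance : TopologicalSpace Par := inferInstanceAs (TopologicalSpace {p : R3 × R3 × R3 × ℝ // Good p})

theorem sqrt_ne (s : ℝ) : √(3 + s ^ 2) ≠ 0 := by positivity

theorem contDiff_coord (i : Fin 3) : ContDiff ℝ 1 fun a : R3 => a i := by
  exact contDiff_piLp_apply 2 (i := i)

theorem contDiff_Rot {X : Type*} [NormedAddCommGroup X] [NormedSpace ℝ X] {f g : X → R3} {α : X → ℝ}
    (hf : ContDiff ℝ 1 f) (hα : ContDiff ℝ 1 α) (hg : ContDiff ℝ 1 g) :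
    ContDiff ℝ 1 fun q => Rot (f q) (α q) (g q) := by
  have h1 : ∀ i, ContDiff ℝ 1 fun q => f q i := fun i => (contDiff_coord i).comp hf
  have h2 : ∀ i, ContDiff ℝ 1 fun q => g q i := fun i => (contDiff_coord i).comp hg
  have h3 : ContDiff ℝ 1 fun q => crs (f q) (g q) := by
    rw [contDiff_euclidean]
    intro i
    fin_cases i
    · exact ((h1 1).mul (h2 2)).sub ((h1 2).mul (h2 1))
    · exact ((h1 2).mul (h2 0)).sub ((h1 0).mul (h2 2))
    · exact ((h1 0).mul (h2 1)).sub ((h1 1).mul (h2 0))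
  unfold Rot
  exact ((hα.cos.smul hg).add (((contDiff_const.sub hα.cos).mul (hf.inner ℝ hg)).smul hf)).add
    (hα.sin.smul h3)

theorem contDiff_ver5 {X : Type*} [NormedAddCommGroup X] [NormedSpace ℝ X] {f : X → R3}
    (hf : ContDiff ℝ 1 f) : ContDiff ℝ 1 fun q => ver5 (f q) := by
  have h1 : ∀ i, ContDiff ℝ 1 fun q => f q i := fun i => (contDiff_coord i).comp hf
  rw [contDiff_euclidean]
  intro i
  fin_cases i
  · change ContDiff ℝ 1 fun q => √3 * f q 0 * f q 1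
    exact (contDiff_const.mul (h1 0)).mul (h1 1)
  · change ContDiff ℝ 1 fun q => √3 * f q 0 * f q 2
    exact (contDiff_const.mul (h1 0)).mul (h1 2)
  · change ContDiff ℝ 1 fun q => √3 * f q 1 * f q 2
    exact (contDiff_const.mul (h1 1)).mul (h1 2)
  · change ContDiff ℝ 1 fun q => √3 / 2 * (f q 0 ^ 2 - f q 2 ^ 2)
    exact contDiff_const.mul (((h1 0).pow 2).sub ((h1 2).pow 2))
  · change ContDiff ℝ 1 fun q => (f q 0 ^ 2 + f q 2 ^ 2 - 2 * f q 1 ^ 2) / 2
    exact ((((h1 0).pow 2).add ((h1 2).pow 2)).sub (contDiff_const.mul ((h1 1).pow 2))).div_const 2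

theorem contDiff_lp : ContDiff ℝ 1 fun q : (R3 × R3 × R3 × ℝ) × ℝ =>
    lp q.1.1 q.1.2.1 q.1.2.2.1 q.1.2.2.2 q.2 := by
  have hv : ContDiff ℝ 1 fun q : (R3 × R3 × R3 × ℝ) × ℝ => q.1.1 := contDiff_fst.fst
  have ha : ContDiff ℝ 1 fun q : (R3 × R3 × R3 × ℝ) × ℝ => q.1.2.1 := contDiff_fst.snd.fst
  have hb : ContDiff ℝ 1 fun q : (R3 × R3 × R3 × ℝ) × ℝ => q.1.2.2.1 := contDiff_fst.snd.snd.fst
  have hs : ContDiff ℝ 1 fun q : (R3 × R3 × R3 × ℝ) × ℝ => q.1.2.2.2 := contDiff_fst.snd.snd.snd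
  have ht : ContDiff ℝ 1 fun q : (R3 × R3 × R3 × ℝ) × ℝ => 2 * Real.pi * q.2 :=
    contDiff_const.mul contDiff_snd
  have hr : ContDiff ℝ 1 fun q : (R3 × R3 × R3 × ℝ) × ℝ => √(3 + q.1.2.2.2 ^ 2) :=
    (contDiff_const.add (hs.pow 2)).sqrt fun q => by positivity
  unfold lp
  exact (((contDiff_const.add hs).div hr fun q => sqrt_ne _).smul
    (contDiff_ver5 (contDiff_Rot hv ht ha))).sub
    (((contDiff_const.sub hs).div hr fun q => sqrt_ne _).smul
    (contDiff_ver5 (contDiff_Rot hv ht hb)))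

theorem lp_one_eq_zero (v a b : R3) (s : ℝ) : lp v a b s 1 = lp v a b s 0 := by
  unfold lp
  rw [mul_one, mul_zero, Rot_two_pi, Rot_two_pi, Rot_zero, Rot_zero]

theorem exists_L : ∃ L : C(Par, CL 4), ∀ (p : Par) (t : unitInterval),
    (L p).pos t = lp p.1.1 p.1.2.1 p.1.2.2.1 p.1.2.2.2 t := by
  have hc := contDiff_lp.continuous
  have hd : Continuous fun q : (R3 × R3 × R3 × ℝ) × ℝ =>
      fderiv ℝ (fun q : (R3 × R3 × R3 × ℝ) × ℝ => lp q.1.1 q.1.2.1 q.1.2.2.1 q.1.2.2.2 q.2) q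
        (0, 1) := (contDiff_lp.continuous_fderiv one_ne_zero).clm_apply continuous_const
  refine exists_family (Z := Par) (fun p t => lp p.1.1 p.1.2.1 p.1.2.2.1 p.1.2.2.2 t)
    (fun p t => fderiv ℝ (fun q : (R3 × R3 × R3 × ℝ) × ℝ => lp q.1.1 q.1.2.1 q.1.2.2.1 q.1.2.2.2 q.2)
      (p.1, t) (0, 1)) ?_ ?_ ?_ ?_ ?_
  · have h1 : Continuous fun p : Par × unitInterval => ((p.1.1 : R3 × R3 × R3 × ℝ), (p.2 : ℝ)) :=
      (continuous_subtype_val.comp continuous_fst).prodMk (continuous_subtype_val.comp continuous_snd)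
    exact hc.comp h1
  · have h1 : Continuous fun p : Par × unitInterval => ((p.1.1 : R3 × R3 × R3 × ℝ), (p.2 : ℝ)) :=
      (continuous_subtype_val.comp continuous_fst).prodMk (continuous_subtype_val.comp continuous_snd)
    exact hd.comp h1
  · intro p t _
    exact norm_lp p.2.1 p.2.2.1 p.2.2.2.1 p.2.2.2.2.2 t
  · intro p
    exact lp_one_eq_zero _ _ _ _
  · intro p t _
    have h1 : HasFDerivAt (fun q : (R3 × R3 × R3 × ℝ) × ℝ => lp q.1.1 q.1.2.1 q.1.2.2.1 q.1.2.2.2 q.2)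
        (fderiv ℝ (fun q : (R3 × R3 × R3 × ℝ) × ℝ => lp q.1.1 q.1.2.1 q.1.2.2.1 q.1.2.2.2 q.2)
        (p.1, t)) (p.1, t) :=
      ((contDiff_lp.differentiable one_ne_zero) _).hasFDerivAt
    have h2 : HasDerivAt (fun t : ℝ => ((p.1 : R3 × R3 × R3 × ℝ), t)) (0, 1) t :=
      (hasDerivAt_const t _).prodMk (hasDerivAt_id t)
    exact (h1.comp_hasDerivAt t h2).hasDerivWithinAt

/-- the family of level loops -/
noncomputable def Lev : C(Par, CL 4) := exists_L.choose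

theorem Lev_pos (p : Par) (t : unitInterval) :
    (Lev p).pos t = lp p.1.1 p.1.2.1 p.1.2.2.1 p.1.2.2.2 t := exists_L.choose_spec p t

/-- level loops with parameters depending on `z` -/
noncomputable def LL {Z : Type*} [TopologicalSpace Z] (v a b : Z → R3) (s : Z → ℝ)
    (hv : Continuous v) (ha : Continuous a) (hb : Continuous b) (hs : Continuous s)
    (h : ∀ z, Good (v z, a z, b z, s z)) : C(Z, CL 4) :=
  Lev.comp ⟨fun z => ⟨(v z, a z, b z, s z), h z⟩, by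
    exact Continuous.subtype_mk (hv.prodMk (ha.prodMk (hb.prodMk hs))) _⟩

theorem LL_pos {Z : Type*} [TopologicalSpace Z] (v a b : Z → R3) (s : Z → ℝ)
    (hv : Continuous v) (ha : Continuous a) (hb : Continuous b) (hs : Continuous s)
    (h : ∀ z, Good (v z, a z, b z, s z)) (z : Z) (t : unitInterval) :
    (LL v a b s hv ha hb hs h z).pos t = lp (v z) (a z) (b z) (s z) t := Lev_pos _ t

end Pool.Agent.Helper50.Drop
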