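import Pool.Agent.Helper50.Drop.Cls
import Pool.Agent.Helper80.Drop.Low
import Pool.Agent.Helper80.Drop.Pos
import Pool.Agent.Helper85.Drop.Met
import Pool.Agent.Helper75.Drop.Len
import Pool.Agent.Helper30.Drop.Ev2

/-!
# The main theorem
-/

set_option autoImplicit false
set_option linter.unusedSimpArgs false

namespace Pool.Agent.Helper50.Drop

open scoped RealInnerProductSpace
open Finset
open Pool.Agent.Helper76.Freq (Q ins tr sh continuous_ins continuous_tr ext continuous_ext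
  ext_insertNth R3)

/-- chains whose pairing vanishes on fine grids -/
noncomputable def EvZ : Submodule ℤ (Cube (LoopSpace 4) 3 →₀ ℤ) where
  carrier := {z | ∃ K, ∀ M ≥ K, ∀ N ≥ K, evc M 3 (Phi 3 N omZ) z = 0}
  zero_mem' := ⟨0, fun M _ N _ => map_zero _⟩
  add_mem' := by
    rintro a b ⟨K, hK⟩ ⟨K', hK'⟩
    refine ⟨max K K', fun M hM N hN => ?_⟩
    rw [map_add, hK M (le_trans (le_max_left _ _) hM) N (le_trans (le_max_left _ _) hN),
      hK' M (le_trans (le_max_right _ _) hM) N (le_trans (le_max_right _ _) hN), add_zero]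
  smul_mem' := by
    rintro r a ⟨K, hK⟩
    refine ⟨K, fun M hM N hN => ?_⟩
    rw [map_smul, hK M hM N hN, smul_zero]

theorem bounds_le : bounds (LoopSpace 4) Set.univ 3 ≤ EvZ := by
  intro z hz
  unfold bounds at hz
  rw [Submodule.mem_sup] at hz
  obtain ⟨w', ⟨w, hw, rfl⟩, n, hn, rfl⟩ := hz
  exact Submodule.add_mem _ (inv_bdry hw) ⟨0, fun M _ N _ => inv_degen hn M N⟩

theorem avoid_le (J : C(CL 4, LoopSpace 4))
    (hJ : ∀ (γ : CL 4) (t : unitInterval), curve (J γ).1 t = γ.pos t) {z : QC (CL 4)}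
    (hz : z ∈ Finsupp.supported ℤ ℤ {c : C(Q, CL 4) | ∀ x t, (c x).pos t ≠ qpi}) :
    res J 3 z ∈ EvZ := by
  refine supported_le (res J 3) {c : C(Q, CL 4) | ∀ x t, (c x).pos t ≠ qpi} EvZ (fun c hc => ?_) hz
  rw [res_single]
  refine eval_avoid (J.continuous.comp (c.continuous.comp (continuous_ext 3))) fun s t => ?_
  rw [hJ]
  exact hc _ t

/-- the value of the pairing on `X₀` -/
theorem eval_X0 (J : C(CL 4, LoopSpace 4))
    (hJ : ∀ (γ : CL 4) (t : unitInterval), curve (J γ).1 t = γ.pos t)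
    {κ : C(offA 4 × unitInterval, CL 4)} (hav : ∀ (a : offA 4) h t, (κ (a, h)).pos t ≠ a.1.2) :
    ∃ K, ∀ M ≥ K, ∀ N ≥ K, evc M 3 (Phi 3 (32 * N) omZ) (res J 3 (X0 κ)) = 1 ∨
      evc M 3 (Phi 3 (32 * N) omZ) (res J 3 (X0 κ)) = -1 := by
  obtain ⟨K, hK⟩ := eval_box (c := fun s => J (DBc (ext 3 s)))
    (J.continuous.comp (DBc.continuous.comp (continuous_ext 3))) (fun s t => by
      rw [hJ, DBc_pos]
      rfl)
  obtain ⟨K', hK'⟩ := avoid_le J hJ (Kop_avoid hav 2 aB_bd')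
  refine ⟨max K K', fun M hM N hN => ?_⟩
  have e : res J 3 (X0 κ) = Finsupp.single (fun s => J (DBc (ext 3 s))) 1 +
      res J 3 (Kop κ 2 (bd 3 aB)) := by
    unfold X0
    rw [map_add]
    congr 1
    unfold aB
    rw [push_prj, res_single]
  have h1 := hK' M (le_trans (le_max_right _ _) hM) (32 * N)
    (le_trans (le_max_right _ _) (hN.trans (by omega)))
  rw [e, map_add, h1, add_zero]
  exact hK M (le_trans (le_max_left _ _) hM) N (le_trans (le_max_left _ _) hN)

/-- bounded length on finite families of cubes -/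
theorem exists_bound (z : QC (CL 4)) (p : ℝ → C(Q, CL 4) → Prop)
    (hp : ∀ c ∈ z.support, ∃ B, p B c) (hmono : ∀ c B B', B ≤ B' → p B c → p B' c) :
    ∃ B, ∀ c ∈ z.support, p B c := by
  classical
  choose! b hb using hp
  refine ⟨∑ c ∈ z.support, |b c|, fun c hc => hmono c (b c) _ ?_ (hb c hc)⟩
  exact (le_abs_self _).trans (Finset.single_le_sum (f := fun c => |b c|) (fun _ _ => abs_nonneg _) hc)

theorem represents_sub {d : ℕ} {X : Type*} [TopologicalSpace X] {z z' : Cube X d →₀ ℤ}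
    {x : Homology X d} (h : Represents z x) (h' : Represents z' x) :
    z - z' ∈ bounds X Set.univ d := by
  obtain ⟨h1, h2⟩ := h
  obtain ⟨h1', h2'⟩ := h'
  have h3 := h2.trans h2'.symm
  rw [Submodule.Quotient.eq] at h3
  exact h3

/-- **main theorem** -/
theorem main : ∃ x : Homology (LoopSpace 4) 3, ∃ B : ℝ, ∀ C : ℝ, ∃ g : SphereMetric 4,
    0 < cr g ((8 : ℤ) • x) ∧ cr g ((8 : ℤ) • x) ≤ B ∧ C < cr g x := by
  obtain ⟨κ, hκ0, hκ1, hκa⟩ := exists_contract 4
  obtain ⟨J, hJ, hJ'⟩ := exists_incl 4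
  set z0 := res J 3 (X0 κ) with hz0
  have hz0c : z0 ∈ cycles (LoopSpace 4) Set.univ 3 := res_mem_cycles J 2 (X0_bd hκ0 hκ1)
  set x : Homology (LoopSpace 4) 3 := Submodule.Quotient.mk ⟨z0, hz0c⟩ with hx
  have hr0 : Represents z0 x := ⟨hz0c, rfl⟩
  have hzzc : res J 3 zz ∈ cycles (LoopSpace 4) Set.univ 3 := res_mem_cycles J 2 (deg_le_nul _ bd_zz)
  have hr8 : Represents (res J 3 zz) ((8 : ℤ) • x) := by
    refine ⟨hzzc, ?_⟩
    rw [hx, ← Submodule.Quotient.mk_smul, Submodule.Quotient.eq]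
    have := res_HZ J 3 (zz_eight hκ0 hκ1)
    rw [map_sub, map_smul] at this
    exact this
  -- the uniform bound
  obtain ⟨B, hB⟩ := exists_bound zz (fun B c => ∀ (R : ℝ) (g : SphereMetric 4), (∀ x u v,
      g.form x u v = ⟪u, v⟫ + R ^ 2 * (fderiv ℝ Hf x u * fderiv ℝ Hf x v)) →
      ∀ z, length g (J (c z)) ≤ B) (fun c hc => length_level J hJ hJ' c
        fun z t t' => (Finsupp.mem_supported ℤ _).1 zz_lev hc z t t')
      (fun c B B' h hc R g hg z => (hc R g hg z).trans h)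
  refine ⟨x, B, fun C => ?_⟩
  set R : ℝ := 2 * |C| + 2 with hR
  have hR0 : 0 < R := by positivity
  obtain ⟨g, hg⟩ := exists_metric R
  obtain ⟨ε, hε, hpos⟩ := pos
  obtain ⟨Kx, hKx⟩ := eval_X0 J hJ hκa
  -- membership of `B`
  have hBm : B ∈ {a : ℝ | ∃ z ∈ cycles (LoopSpace 4) {γ | length g γ ≤ a} 3,
      Represents z ((8 : ℤ) • x)} := by
    refine ⟨res J 3 zz, res_mem_cycles' J 2 _ ?_ bd_zz, hr8⟩
    rw [Finsupp.mem_supported]
    intro c hc y
    exact hB c hc R g hg y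
  -- lower bound for `8 x`
  have hlow8 : ∀ a ∈ {a : ℝ | ∃ z ∈ cycles (LoopSpace 4) {γ | length g γ ≤ a} 3,
      Represents z ((8 : ℤ) • x)}, ε ≤ a := by
    rintro a ⟨z', hz', hrep⟩
    by_contra hcon
    rw [not_le] at hcon
    have h1 : z' ∈ EvZ := hpos _ (fun γ hγ t t' =>
      ((length_dist hg γ t t').trans hγ).trans_lt hcon) z' hz'
    have h2 : z' - res J 3 zz ∈ EvZ := bounds_le (represents_sub hrep hr8)
    have h3 : res J 3 (zz - (8 : ℤ) • X0 κ) ∈ EvZ := bounds_le (res_HZ J 3 (zz_eight hκ0 hκ1))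
    have h4 : (8 : ℤ) • z0 ∈ EvZ := by
      have e : (8 : ℤ) • z0 = z' - (z' - res J 3 zz) - res J 3 (zz - (8 : ℤ) • X0 κ) := by
        rw [map_sub, map_smul]
        abel
      rw [e]
      exact Submodule.sub_mem _ (Submodule.sub_mem _ h1 h2) h3
    obtain ⟨K, hK⟩ := h4
    have h5 := hK (max K Kx) (le_max_left _ _) (32 * max K Kx)
      ((le_max_left K Kx).trans (by omega))
    rw [map_smul] at h5
    rcases hKx (max K Kx) (le_max_right _ _) (max K Kx) (le_max_right _ _) with h6 | h6 <;>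
      rw [h6] at h5 <;> norm_num at h5
  -- lower bound for `x`
  have hlow1 : ∀ a ∈ {a : ℝ | ∃ z ∈ cycles (LoopSpace 4) {γ | length g γ ≤ a} 3,
      Represents z x}, R / 2 ≤ a := by
    rintro a ⟨z', hz', hrep⟩
    by_contra hcon
    rw [not_le] at hcon
    have hS : ∀ γ ∈ {γ : LoopSpace 4 | length g γ ≤ a}, ∀ t t' : unitInterval,
        |Hf (curve γ.1 t) - Hf (curve γ.1 t')| < 1 / 2 := by
      intro γ hγ t t'
      have h1 := ((length_cross hR0.le hg γ t t').trans hγ).trans_lt hcon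
      have h2 : R * |Hf (curve γ.1 t) - Hf (curve γ.1 t')| < R * (1 / 2) := by linarith
      exact lt_of_mul_lt_mul_left h2 hR0.le
    obtain ⟨K1, hK1⟩ := low hS hz'
    obtain ⟨hzu, hzr⟩ := hrep
    obtain ⟨K2, hK2⟩ := inv_mod (z := z') hzu.1
    obtain ⟨K3, hK3⟩ : z' - z0 ∈ EvZ := bounds_le (represents_sub ⟨hzu, hzr⟩ hr0)
    set K := max (max K1 K2) (max K3 Kx) with hK
    have l1 : K1 ≤ K := (le_max_left _ _).trans (le_max_left _ _)
    have l2 : K2 ≤ K := (le_max_right _ _).trans (le_max_left _ _)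
    have l3 : K3 ≤ K := (le_max_left _ _).trans (le_max_right _ _)
    have l4 : Kx ≤ K := (le_max_right _ _).trans (le_max_right _ _)
    have a1 := hK1 K l1 (32 * K) (l1.trans (by omega))
    have a2 := hK2 K l2 (32 * K) (l2.trans (by omega))
    have a3 := hK3 K l3 (32 * K) (l3.trans (by omega))
    rw [map_sub, sub_eq_zero] at a3
    rw [a1, a3] at a2
    rcases hKx K l4 K l4 with h6 | h6 <;> rw [h6] at a2 <;> revert a2 <;> decide
  -- `x` is represented by a cycle of bounded length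
  have hne : {a : ℝ | ∃ z ∈ cycles (LoopSpace 4) {γ | length g γ ≤ a} 3,
      Represents z x}.Nonempty := by
    obtain ⟨b, hb⟩ := exists_bound (X0 κ) (fun B c => ∀ z, length g (J (c z)) ≤ B)
      (fun c _ => length_compact J hJ hJ' c g) (fun c B B' h hc z => (hc z).trans h)
    refine ⟨b, z0, res_mem_cycles'' J 2 _ ?_ (X0_bd hκ0 hκ1), hr0⟩
    rw [Finsupp.mem_supported]
    intro c hc y
    exact hb c hc y
  refine ⟨g, lt_of_lt_of_le hε (le_csInf ⟨B, hBm⟩ hlow8), csInf_le ⟨ε, hlow8⟩ hBm,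
    lt_of_lt_of_le ?_ (le_csInf hne hlow1)⟩
  rw [hR]
  linarith [le_abs_self C]

end Pool.Agent.Helper50.Drop
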