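import Pool.Agent.Helper50.Drop.Cyc

/-!
# The octant decomposition
-/

set_option autoImplicit false
set_option linter.unusedSimpArgs false

namespace Pool.Agent.Helper50.Drop

open scoped RealInnerProductSpace
open Finset
open Pool.Agent.Helper76.Freq (Q ins tr sh continuous_ins R3 ver inner3 norm3 IsTop IsBot
  isTop_pt isBot_pt eq_of_isTop_pt eq_of_isBot_pt)

/-! ## continuity -/

theorem continuous_coord (i : Fin 3) : Continuous fun a : R3 => a i := (contDiff_coord i).continuous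

theorem contRot0 : Continuous fun q : R3 × ℝ × R3 => Rot q.1 q.2.1 q.2.2 := by
  have h0 : ContDiff ℝ 1 fun q : R3 × ℝ × R3 => q.1 := contDiff_fst
  have h1 : ContDiff ℝ 1 fun q : R3 × ℝ × R3 => q.2.1 := contDiff_snd.fst
  have h2 : ContDiff ℝ 1 fun q : R3 × ℝ × R3 => q.2.2 := contDiff_snd.snd
  exact (contDiff_Rot h0 h1 h2).continuous

theorem cont_rot {Z : Type*} [TopologicalSpace Z] {f g : Z → R3} {α : Z → ℝ}
    (hf : Continuous f) (hα : Continuous α) (hg : Continuous g) :
    Continuous fun z => Rot (f z) (α z) (g z) := by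
  have h := contRot0.comp (hf.prodMk (hα.prodMk hg))
  exact h

attribute [fun_prop] cont_rot

theorem contVer0 : Continuous ver5 :=
  (contDiff_ver5 (X := R3) (f := fun a => a) contDiff_id).continuous

theorem cont_ver5 {Z : Type*} [TopologicalSpace Z] {f : Z → R3}
    (hf : Continuous f) : Continuous fun z => ver5 (f z) :=
  contVer0.comp hf

attribute [fun_prop] cont_ver5

theorem cont_mk {Z : Type*} [TopologicalSpace Z] {f g : Z → R3}
    (hf : Continuous f) (hg : Continuous g) : Continuous fun z => mk (f z) (g z) := by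
  unfold Drop.mk
  fun_prop

attribute [fun_prop] cont_mk

/-! ## when does a level loop pass through a point -/

theorem lp_eq_mk {v a b a' b' : R3} {s t : ℝ} (hv : ‖v‖ = 1) (ha : ‖a‖ = 1) (hb : ‖b‖ = 1)
    (hab : ⟪a, b⟫ = 0) (ha' : ‖a'‖ = 1) (hb' : ‖b'‖ = 1) (hab' : ⟪a', b'⟫ = 0) (hs : |s| ≤ 1)
    (h : lp v a b s t = mk a' b') : s = 0 ∧
    (a' = Rot v (2 * Real.pi * t) a ∨ a' = - Rot v (2 * Real.pi * t) a) ∧
    (b' = Rot v (2 * Real.pi * t) b ∨ b' = - Rot v (2 * Real.pi * t) b) := by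
  have hs0 : s = 0 := by
    by_contra h0
    exact lp_ne_mk hv ha hb (Or.inl hab) ha' hb' hab' hs h0 t h
  subst hs0
  have h1 : emb (lp v a b 0 t) = emb (mk a' b') := by rw [h]
  rw [emb_lp, emb_mk] at h1
  have r3 : (0 : ℝ) < (√3)⁻¹ := by positivity
  have k1 : (0 : ℝ) < (1 + 0) / √(3 + 0 ^ 2) := by positivity
  have k2 : (0 : ℝ) < (1 - 0) / √(3 + 0 ^ 2) := by
    rw [sub_zero]; positivity
  have t1 := isTop_pt (σ := 0) (t := 0) r3.le r3.le ha' hb' hab'
  have t2 := isBot_pt (σ := 0) (t := 0) r3.le r3.le ha' hb' hab'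
  rw [← h1] at t1 t2
  have na := (Rot_norm hv (2 * Real.pi * t) a).trans ha
  have nb := (Rot_norm hv (2 * Real.pi * t) b).trans hb
  have nab := (Rot_inner hv (2 * Real.pi * t) a b).trans hab
  exact ⟨rfl, eq_of_isTop_pt k1 k2.le na nb nab t1, eq_of_isBot_pt k1.le k2 na nb nab t2⟩

theorem mk_neg_left (a b : R3) : mk (-a) b = mk a b := by
  unfold mk; rw [ver5_neg]

theorem mk_neg_right (a b : R3) : mk a (-b) = mk a b := by
  unfold mk; rw [ver5_neg]

theorem lp_zero_eq (v a b : R3) (t : ℝ) :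
    lp v a b 0 t = mk (Rot v (2 * Real.pi * t) a) (Rot v (2 * Real.pi * t) b) := by
  unfold lp mk
  have : √(3 + (0 : ℝ) ^ 2) = √3 := by norm_num
  rw [this, smul_sub]
  norm_num

theorem Rot_inj {v : R3} (hv : ‖v‖ = 1) {α : ℝ} {a b : R3} (h : Rot v α a = Rot v α b) : a = b := by
  have key : ∀ a b : R3, Rot v α (a - b) = Rot v α a - Rot v α b := by
    intro a b
    unfold Rot
    rw [inner_sub_right]
    have : crs v (a - b) = crs v a - crs v b := by
      unfold crs
      ext i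
      fin_cases i <;> simp <;> ring
    rw [this, smul_sub, smul_sub, mul_sub, sub_smul]
    abel
  have h1 : ‖a - b‖ = 0 := by
    rw [← Rot_norm hv α, key, h, sub_self, norm_zero]
  exact sub_eq_zero.1 (norm_eq_zero.1 h1)

/-- equivariance of the passing condition -/
theorem lp_rot {w v a b a' b' : R3} {θ s t : ℝ} (hw : ‖w‖ = 1) (hv : ‖v‖ = 1) (ha : ‖a‖ = 1)
    (hb : ‖b‖ = 1) (hab : ⟪a, b⟫ = 0) (ha' : ‖a'‖ = 1) (hb' : ‖b'‖ = 1) (hab' : ⟪a', b'⟫ = 0)
    (hs : |s| ≤ 1)
    (h : lp (Rot w θ v) (Rot w θ a) (Rot w θ b) s t = mk (Rot w θ a') (Rot w θ b')) :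
    lp v a b s t = mk a' b' := by
  obtain ⟨rfl, h1, h2⟩ := lp_eq_mk ((Rot_norm hw θ v).trans hv) ((Rot_norm hw θ a).trans ha)
    ((Rot_norm hw θ b).trans hb) ((Rot_inner hw θ a b).trans hab) ((Rot_norm hw θ a').trans ha')
    ((Rot_norm hw θ b').trans hb') ((Rot_inner hw θ a' b').trans hab') hs h
  rw [Rot_Rot hw, ← Rot_neg] at h1 h2
  rw [lp_zero_eq]
  have k1 : a' = Rot v (2 * Real.pi * t) a ∨ a' = - Rot v (2 * Real.pi * t) a := by
    rcases h1 with h1 | h1
    · exact Or.inl (Rot_inj hw h1)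
    · exact Or.inr (Rot_inj hw h1)
  have k2 : b' = Rot v (2 * Real.pi * t) b ∨ b' = - Rot v (2 * Real.pi * t) b := by
    rcases h2 with h2 | h2
    · exact Or.inl (Rot_inj hw h2)
    · exact Or.inr (Rot_inj hw h2)
  rcases k1 with k1 | k1 <;> rcases k2 with k2 | k2 <;> rw [k1, k2] <;>
    simp only [mk_neg_left, mk_neg_right]

/-! ## the pair -/

/-- loops with a marked point -/
abbrev W4 : Type := CL 4 × E 4

/-- the marking -/
def mq (w : W4) : E 4 := w.2

/-- put a marking on loops -/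
def iota (p : E 4) : C(CL 4, W4) := ⟨fun γ => (γ, p), by fun_prop⟩

/-- relations with constant marking -/
noncomputable def RelP (p : E 4) : Submodule ℤ (QC (CL 4)) :=
  (RelZ (offA 4) mq 3).comap (push (iota p))

/-- maps of two coordinates to a cube -/
theorem mem_offA {γ : CL 4} {p : E 4} (hp : ‖p‖ = 1) (h : ∀ t, γ.pos t ≠ p) : (γ, p) ∈ offA 4 :=
  ⟨hp, h⟩

theorem halveP {p : E 4} (hp : ‖p‖ = 1) {i : ℕ} (hi' : i < 3) (c : C(Q, CL 4))
    (hA : ∀ j < 3, j ≠ i → ∀ e : unitInterval, (e = 0 ∨ e = 1) → ∀ x t,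
      (c (ins j e x)).pos t ≠ p) :
    Finsupp.single c (1 : ℤ) - Finsupp.single (cmp c (upd i lo) (continuous_upd i continuous_lo)) 1
      - Finsupp.single (cmp c (upd i hi) (continuous_upd i continuous_hi)) 1 ∈ RelP p := by
  change push (iota p) _ ∈ RelZ (offA 4) mq 3
  rw [map_sub, map_sub, push_single, push_single, push_single]
  exact rel_halve hi' ((iota p).comp c) (fun j hj hji e he x => mem_offA hp (hA j hj hji e he x))
    fun x y => rfl

theorem reverseP {p : E 4} (hp : ‖p‖ = 1) {i : ℕ} (hi' : i < 3) (c : C(Q, CL 4))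
    (hA : ∀ j < 3, j ≠ i → ∀ e : unitInterval, (e = 0 ∨ e = 1) → ∀ x t,
      (c (ins j e x)).pos t ≠ p) :
    Finsupp.single (cmp c (upd i unitInterval.symm)
      (continuous_upd i unitInterval.continuous_symm)) (1 : ℤ) + Finsupp.single c 1 ∈ RelP p := by
  change push (iota p) _ ∈ RelZ (offA 4) mq 3
  rw [map_add, push_single, push_single]
  exact rel_reverse hi' ((iota p).comp c) (fun j hj hji e he x => mem_offA hp (hA j hj hji e he x))
    fun x y => rfl

/-- homotopies with moving marking -/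
theorem homotopyP (c : C(Q, CL 4)) (P : unitInterval → E 4) (hP : Continuous P)
    (hP1 : ∀ u, ‖P u‖ = 1)
    (hA : ∀ j < 3, ∀ e : unitInterval, (e = 0 ∨ e = 1) → ∀ x t, (c (ins j e x)).pos t ≠ P (x 2)) :
    push (iota (P 1)) (Finsupp.single (face 3 1 c) (1 : ℤ)) -
      push (iota (P 0)) (Finsupp.single (face 3 0 c) (1 : ℤ)) ∈ RelZ (offA 4) mq 3 := by
  set G : C(Q, W4) := ⟨fun x => (c x, P (x 3)), by
    exact c.continuous.prodMk (hP.comp (continuous_apply 3))⟩ with hG
  have h := rel_homotopy (d := 3) (A := offA 4) (q := mq) G ?_ ?_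
  · have e1 : ∀ e : unitInterval, face 3 e G = (iota (P e)).comp (face 3 e c) := by
      intro e
      ext x : 1
      change (c (ins 3 e x), P (ins 3 e x 3)) = (c (ins 3 e x), P e)
      have : ins 3 e x 3 = e := by unfold ins; simp
      rw [this]
    rw [e1, e1] at h
    rw [push_single, push_single]
    exact h
  · intro j hj e he x
    refine mem_offA (hP1 _) fun t => ?_
    have : ins j e x 3 = x 2 := by
      unfold ins
      rw [if_neg (by omega), if_neg (by omega)]
    rw [this]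
    exact hA j hj e he x t
  · intro j hj e he
    refine ⟨0, by norm_num, fun x x' hx => ?_⟩
    change P (ins j e x 3) = P (ins j e x' 3)
    have : ∀ x, ins j e x 3 = x 2 := by
      intro x
      unfold ins
      rw [if_neg (by omega), if_neg (by omega)]
    rw [this, this, hx 2 (by norm_num)]

/-! ## cubes with fixed `a = e1`, `b = e3` -/

/-- the cube of level loops with axis `V (x 0) (x 1)` -/
noncomputable def DX (V : ℝ → ℝ → R3) (hV : Continuous fun p : ℝ × ℝ => V p.1 p.2)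
    (nV : ∀ x y, ‖V x y‖ = 1) (f g : C(unitInterval, unitInterval)) : C(Q, CL 4) :=
  LL (fun x : Q => V (f (x 0)) (g (x 1))) (fun _ => e1) (fun _ => e3) (fun x => 2 * (x 2 : ℝ) - 1)
    (by
      have h : Continuous fun x : Q => (((f (x 0) : unitInterval) : ℝ), ((g (x 1) : unitInterval) : ℝ)) :=
        (continuous_subtype_val.comp (f.continuous.comp (continuous_apply 0))).prodMk
          (continuous_subtype_val.comp (g.continuous.comp (continuous_apply 1)))
      exact hV.comp h) continuous_const continuous_const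
    ((continuous_const.mul (cc 2)).sub continuous_const)
    fun x => good_D1 (nV _ _) (abs_two_sub_one (x 2))

section DX

variable (V : ℝ → ℝ → R3) (hV : Continuous fun p : ℝ × ℝ => V p.1 p.2)
    (nV : ∀ x y, ‖V x y‖ = 1) (f g : C(unitInterval, unitInterval))

theorem DX_pos (x : Q) (t : unitInterval) :
    (DX V hV nV f g x).pos t = lp (V (f (x 0)) (g (x 1))) e1 e3 (2 * (x 2 : ℝ) - 1) t := by
  unfold DX; rw [LL_pos]

/-- the marked point `q_{2π/3}` -/
noncomputable def p23 : E 4 := mk e2 e1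

theorem inner_e2_e1 : ⟪e2, e1⟫ = 0 := by rw [inner3]; simp [e1, e2]

theorem norm_p23 : ‖p23‖ = 1 := norm_mk norm_e2 norm_e1 inner_e2_e1

theorem p23_eq : p23 = mk (Rot v0 (2 * Real.pi / 3) e1) (Rot v0 (2 * Real.pi / 3) e3) := by
  rw [Rot_v0_third.1, Rot_v0_third.2.2]; rfl

/-- passing through `p23` -/
theorem avoid {v : R3} {s t : ℝ} (hv : ‖v‖ = 1) (hs : |s| ≤ 1) (h : s ≠ 0 ∨ ∃ i, v i = 0) :
    lp v e1 e3 s t ≠ p23 := by
  intro h1
  rw [p23_eq] at h1
  obtain ⟨h2, h3⟩ := hit0 hv hs h1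
  rcases h with h | ⟨i, h⟩
  · exact h h2
  · exact h3 i h

theorem two_mul_sub_ne {a : unitInterval} (h : a = 0 ∨ a = 1) : 2 * (a : ℝ) - 1 ≠ 0 := by
  rcases h with h | h <;> rw [h] <;> norm_num

/-- the map `lo`, bundled -/
noncomputable def cLo : C(unitInterval, unitInterval) := ⟨lo, continuous_lo⟩
/-- the map `hi`, bundled -/
noncomputable def cHi : C(unitInterval, unitInterval) := ⟨hi, continuous_hi⟩
/-- the map `symm`, bundled -/
def cSy : C(unitInterval, unitInterval) := ⟨unitInterval.symm, unitInterval.continuous_symm⟩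

theorem upd_same (i : ℕ) (g : unitInterval → unitInterval) (x : Q) : upd i g x i = g (x i) := by
  unfold upd; simp

theorem upd_ne {i j : ℕ} (h : j ≠ i) (g : unitInterval → unitInterval) (x : Q) :
    upd i g x j = x j := by
  unfold upd; simp [h]

theorem cmp_DX_0 (m : C(unitInterval, unitInterval)) :
    cmp (DX V hV nV f g) (upd 0 m) (continuous_upd 0 m.continuous) = DX V hV nV (f.comp m) g := by
  refine cube_ext fun x t => ?_
  rw [cmp_apply, DX_pos, DX_pos, upd_same, upd_ne one_ne_zero, upd_ne two_ne_zero]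
  rfl

theorem cmp_DX_1 (m : C(unitInterval, unitInterval)) :
    cmp (DX V hV nV f g) (upd 1 m) (continuous_upd 1 m.continuous) = DX V hV nV f (g.comp m) := by
  refine cube_ext fun x t => ?_
  rw [cmp_apply, DX_pos, DX_pos, upd_same, upd_ne zero_ne_one, upd_ne (by norm_num)]
  rfl

/-- avoiding on the faces needed for moves in the direction `0` -/
theorem face_0 (h : ∀ x, (∃ i, V (f x) (g 0) i = 0) ∧ ∃ i, V (f x) (g 1) i = 0) :
    ∀ j < 3, j ≠ 0 → ∀ e : unitInterval, (e = 0 ∨ e = 1) → ∀ (x : Q) (t : unitInterval),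
      (DX V hV nV f g (ins j e x)).pos t ≠ p23 := by
  intro j hj hj0 e he x t
  rw [DX_pos]
  refine avoid (nV _ _) (abs_two_sub_one _) ?_
  have hj' : j = 1 ∨ j = 2 := by omega
  rcases hj' with rfl | rfl
  · right
    rw [ins0, ins1, if_neg one_ne_zero, if_neg one_ne_zero, if_pos rfl]
    rcases he with rfl | rfl
    · exact (h _).1
    · exact (h _).2
  · left
    rw [ins2, if_neg two_ne_zero, if_neg (by norm_num), if_pos rfl]
    exact two_mul_sub_ne he

/-- avoiding on the faces needed for moves in the direction `1` -/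
theorem face_1 (h : ∀ y, (∃ i, V (f 0) (g y) i = 0) ∧ ∃ i, V (f 1) (g y) i = 0) :
    ∀ j < 3, j ≠ 1 → ∀ e : unitInterval, (e = 0 ∨ e = 1) → ∀ (x : Q) (t : unitInterval),
      (DX V hV nV f g (ins j e x)).pos t ≠ p23 := by
  intro j hj hj0 e he x t
  rw [DX_pos]
  refine avoid (nV _ _) (abs_two_sub_one _) ?_
  have hj' : j = 0 ∨ j = 2 := by omega
  rcases hj' with rfl | rfl
  · right
    rw [ins0, ins1, if_pos rfl, if_pos rfl]
    rcases he with rfl | rfl
    · exact (h _).1
    · exact (h _).2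
  · left
    rw [ins2, if_neg two_ne_zero, if_neg (by norm_num), if_pos rfl]
    exact two_mul_sub_ne he

theorem halve0 (h : ∀ x, (∃ i, V (f x) (g 0) i = 0) ∧ ∃ i, V (f x) (g 1) i = 0) :
    Finsupp.single (DX V hV nV f g) (1 : ℤ) - Finsupp.single (DX V hV nV (f.comp cLo) g) 1
      - Finsupp.single (DX V hV nV (f.comp cHi) g) 1 ∈ RelP p23 := by
  have := halveP norm_p23 (i := 0) (by norm_num) (DX V hV nV f g) (face_0 V hV nV f g h)
  rw [← cmp_DX_0, ← cmp_DX_0]
  exact this

theorem halve1 (h : ∀ y, (∃ i, V (f 0) (g y) i = 0) ∧ ∃ i, V (f 1) (g y) i = 0) :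
    Finsupp.single (DX V hV nV f g) (1 : ℤ) - Finsupp.single (DX V hV nV f (g.comp cLo)) 1
      - Finsupp.single (DX V hV nV f (g.comp cHi)) 1 ∈ RelP p23 := by
  have := halveP norm_p23 (i := 1) (by norm_num) (DX V hV nV f g) (face_1 V hV nV f g h)
  rw [← cmp_DX_1, ← cmp_DX_1]
  exact this

theorem rev0 (h : ∀ x, (∃ i, V (f x) (g 0) i = 0) ∧ ∃ i, V (f x) (g 1) i = 0) :
    Finsupp.single (DX V hV nV (f.comp cSy) g) (1 : ℤ) + Finsupp.single (DX V hV nV f g) 1
      ∈ RelP p23 := by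
  have := reverseP norm_p23 (i := 0) (by norm_num) (DX V hV nV f g) (face_0 V hV nV f g h)
  rw [← cmp_DX_0]
  exact this

theorem rev1 (h : ∀ y, (∃ i, V (f 0) (g y) i = 0) ∧ ∃ i, V (f 1) (g y) i = 0) :
    Finsupp.single (DX V hV nV f (g.comp cSy)) (1 : ℤ) + Finsupp.single (DX V hV nV f g) 1
      ∈ RelP p23 := by
  have := reverseP norm_p23 (i := 1) (by norm_num) (DX V hV nV f g) (face_1 V hV nV f g h)
  rw [← cmp_DX_1]
  exact this

end DX

/-! ## the octants -/

/-- axis in an octant -/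
noncomputable def oct (a b c x y : ℝ) : R3 :=
  !₂[a * Real.cos (Real.pi * x / 2), b * (Real.sin (Real.pi * x / 2) * Real.cos (Real.pi * y / 2)),
    c * (Real.sin (Real.pi * x / 2) * Real.sin (Real.pi * y / 2))]

theorem norm_oct {a b c : ℝ} (ha : a ^ 2 = 1) (hb : b ^ 2 = 1) (hc : c ^ 2 = 1) (x y : ℝ) :
    ‖oct a b c x y‖ = 1 := by
  apply norm_eq_one_of_sq
  change (a * Real.cos (Real.pi * x / 2)) ^ 2 +
    (b * (Real.sin (Real.pi * x / 2) * Real.cos (Real.pi * y / 2))) ^ 2 +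
    (c * (Real.sin (Real.pi * x / 2) * Real.sin (Real.pi * y / 2))) ^ 2 = 1
  have h1 := Real.sin_sq_add_cos_sq (Real.pi * x / 2)
  have h2 := Real.sin_sq_add_cos_sq (Real.pi * y / 2)
  simp only [mul_pow, ha, hb, hc]
  linear_combination h1 + (Real.sin (Real.pi * x / 2)) ^ 2 * h2

theorem continuous_oct (a b c : ℝ) : Continuous fun p : ℝ × ℝ => oct a b c p.1 p.2 := by
  unfold oct
  refine continuous_vec3 ?_ ?_ ?_ <;> fun_prop

/-- the cube of an octant -/
noncomputable def DO (a b c : ℝ) (ha : a ^ 2 = 1) (hb : b ^ 2 = 1) (hc : c ^ 2 = 1) : C(Q, CL 4) :=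
  DX (oct a b c) (continuous_oct a b c) (norm_oct ha hb hc) (ContinuousMap.id _) (ContinuousMap.id _)

/-- the cube of the sphere, restricted -/
noncomputable def DS (f g : C(unitInterval, unitInterval)) : C(Q, CL 4) :=
  DX sph (continuous_sph continuous_fst continuous_snd) norm_sph f g

theorem D1c_eq : D1c = DS (ContinuousMap.id _) (ContinuousMap.id _) := by
  refine cube_ext fun x t => ?_
  rw [D1c_pos]
  unfold DS
  rw [DX_pos]
  rfl

theorem DS_eq_DO {a b c : ℝ} (ha : a ^ 2 = 1) (hb : b ^ 2 = 1) (hc : c ^ 2 = 1)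
    (f g : C(unitInterval, unitInterval))
    (h : ∀ x y : unitInterval, sph (f x) (g y) = oct a b c x y) : DS f g = DO a b c ha hb hc := by
  refine cube_ext fun x t => ?_
  unfold DS DO
  rw [DX_pos, DX_pos, h]
  rfl

theorem coe_cl (a : unitInterval) : ((cLo a : unitInterval) : ℝ) = a / 2 := coe_lo a
theorem coe_ch (a : unitInterval) : ((cHi a : unitInterval) : ℝ) = (1 + a) / 2 := coe_hi a
theorem coe_cs (a : unitInterval) : ((cSy a : unitInterval) : ℝ) = 1 - a := rfl

/-- zero coordinates of `sph` -/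
theorem sph_zero_y {x y : ℝ} (h : y = 0 ∨ y = 1 / 4 ∨ y = 1 / 2 ∨ y = 3 / 4 ∨ y = 1) :
    ∃ i, sph x y i = 0 := by
  rcases h with rfl | rfl | rfl | rfl | rfl
  · exact ⟨2, by change Real.sin (Real.pi * x) * Real.sin (2 * Real.pi * 0) = 0; simp⟩
  · refine ⟨1, ?_⟩
    change Real.sin (Real.pi * x) * Real.cos (2 * Real.pi * (1 / 4)) = 0
    rw [show 2 * Real.pi * (1 / 4) = Real.pi / 2 by ring, Real.cos_pi_div_two, mul_zero]
  · refine ⟨2, ?_⟩
    change Real.sin (Real.pi * x) * Real.sin (2 * Real.pi * (1 / 2)) = 0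
    rw [show 2 * Real.pi * (1 / 2) = Real.pi by ring, Real.sin_pi, mul_zero]
  · refine ⟨1, ?_⟩
    change Real.sin (Real.pi * x) * Real.cos (2 * Real.pi * (3 / 4)) = 0
    rw [show 2 * Real.pi * (3 / 4) = Real.pi / 2 + Real.pi by ring, Real.cos_add_pi,
      Real.cos_pi_div_two, neg_zero, mul_zero]
  · refine ⟨2, ?_⟩
    change Real.sin (Real.pi * x) * Real.sin (2 * Real.pi * 1) = 0
    rw [mul_one, Real.sin_two_pi, mul_zero]

theorem sph_zero_x {x y : ℝ} (h : x = 0 ∨ x = 1 / 2 ∨ x = 1) : ∃ i, sph x y i = 0 := by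
  rcases h with rfl | rfl | rfl
  · exact ⟨1, by change Real.sin (Real.pi * 0) * _ = 0; simp⟩
  · refine ⟨0, ?_⟩
    change Real.cos (Real.pi * (1 / 2)) = 0
    rw [show Real.pi * (1 / 2) = Real.pi / 2 by ring, Real.cos_pi_div_two]
  · exact ⟨1, by change Real.sin (Real.pi * 1) * _ = 0; simp⟩

end Pool.Agent.Helper50.Drop
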