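import Pool.Agent.Helper50.Drop.Oct

/-!
# The octant decomposition, 2
-/

set_option autoImplicit false
set_option linter.unusedSimpArgs false

namespace Pool.Agent.Helper50.Drop

open scoped RealInnerProductSpace
open Finset
open Pool.Agent.Helper76.Freq (Q ins tr sh continuous_ins R3 ver inner3 norm3 IsTop IsBot
  isTop_pt isBot_pt eq_of_isTop_pt eq_of_isBot_pt)

theorem sph_eq_oct {X Y x y a b c : ℝ} (h1 : Real.cos (Real.pi * X) = a * Real.cos (Real.pi * x / 2))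
    (h2 : Real.sin (Real.pi * X) = Real.sin (Real.pi * x / 2))
    (h3 : Real.cos (2 * Real.pi * Y) = b * Real.cos (Real.pi * y / 2))
    (h4 : Real.sin (2 * Real.pi * Y) = c * Real.sin (Real.pi * y / 2)) :
    sph X Y = oct a b c x y := by
  unfold sph oct
  rw [h1, h2, h3, h4]
  ext i
  fin_cases i
  · simp
  · change Real.sin (Real.pi * x / 2) * (b * Real.cos (Real.pi * y / 2)) =
      b * (Real.sin (Real.pi * x / 2) * Real.cos (Real.pi * y / 2))
    ring
  · change Real.sin (Real.pi * x / 2) * (c * Real.sin (Real.pi * y / 2)) =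
      c * (Real.sin (Real.pi * x / 2) * Real.sin (Real.pi * y / 2))
    ring

/-- parametrisations of the two halves in `x` -/
theorem fl_trig (x : ℝ) : Real.cos (Real.pi * (x / 2)) = 1 * Real.cos (Real.pi * x / 2) ∧
    Real.sin (Real.pi * (x / 2)) = Real.sin (Real.pi * x / 2) := by
  rw [show Real.pi * (x / 2) = Real.pi * x / 2 by ring, one_mul]
  exact ⟨rfl, rfl⟩

theorem fh_trig (x : ℝ) : Real.cos (Real.pi * ((1 + (1 - x)) / 2)) = -1 * Real.cos (Real.pi * x / 2) ∧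
    Real.sin (Real.pi * ((1 + (1 - x)) / 2)) = Real.sin (Real.pi * x / 2) := by
  rw [show Real.pi * ((1 + (1 - x)) / 2) = Real.pi - Real.pi * x / 2 by ring, Real.cos_pi_sub,
    Real.sin_pi_sub, neg_one_mul]
  exact ⟨rfl, rfl⟩

theorem g0_trig (y : ℝ) : Real.cos (2 * Real.pi * (y / 2 / 2)) = 1 * Real.cos (Real.pi * y / 2) ∧
    Real.sin (2 * Real.pi * (y / 2 / 2)) = 1 * Real.sin (Real.pi * y / 2) := by
  rw [show 2 * Real.pi * (y / 2 / 2) = Real.pi * y / 2 by ring, one_mul, one_mul]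
  exact ⟨rfl, rfl⟩

theorem g1_trig (y : ℝ) :
    Real.cos (2 * Real.pi * ((1 + (1 - y)) / 2 / 2)) = -1 * Real.cos (Real.pi * y / 2) ∧
    Real.sin (2 * Real.pi * ((1 + (1 - y)) / 2 / 2)) = 1 * Real.sin (Real.pi * y / 2) := by
  rw [show 2 * Real.pi * ((1 + (1 - y)) / 2 / 2) = Real.pi - Real.pi * y / 2 by ring, Real.cos_pi_sub,
    Real.sin_pi_sub, neg_one_mul, one_mul]
  exact ⟨rfl, rfl⟩

theorem g2_trig (y : ℝ) :
    Real.cos (2 * Real.pi * ((1 + y / 2) / 2)) = -1 * Real.cos (Real.pi * y / 2) ∧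
    Real.sin (2 * Real.pi * ((1 + y / 2) / 2)) = -1 * Real.sin (Real.pi * y / 2) := by
  rw [show 2 * Real.pi * ((1 + y / 2) / 2) = Real.pi * y / 2 + Real.pi by ring, Real.cos_add_pi,
    Real.sin_add_pi, neg_one_mul, neg_one_mul]
  exact ⟨rfl, rfl⟩

theorem g3_trig (y : ℝ) :
    Real.cos (2 * Real.pi * ((1 + (1 + (1 - y)) / 2) / 2)) = 1 * Real.cos (Real.pi * y / 2) ∧
    Real.sin (2 * Real.pi * ((1 + (1 + (1 - y)) / 2) / 2)) = -1 * Real.sin (Real.pi * y / 2) := by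
  rw [show 2 * Real.pi * ((1 + (1 + (1 - y)) / 2) / 2) = 2 * Real.pi - Real.pi * y / 2 by ring,
    Real.cos_two_pi_sub, Real.sin_two_pi_sub, neg_one_mul, one_mul]
  exact ⟨rfl, rfl⟩

theorem one_sq' : (1 : ℝ) ^ 2 = 1 := by norm_num
theorem neg_one_sq' : (-1 : ℝ) ^ 2 = 1 := by norm_num

/-- the lower half -/
noncomputable def fl : C(unitInterval, unitInterval) := (ContinuousMap.id _).comp cLo
/-- the upper half -/
noncomputable def fh : C(unitInterval, unitInterval) := (ContinuousMap.id _).comp cHi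
noncomputable def q0 : C(unitInterval, unitInterval) := fl.comp cLo
noncomputable def q1 : C(unitInterval, unitInterval) := fl.comp cHi
noncomputable def q2 : C(unitInterval, unitInterval) := fh.comp cLo
noncomputable def q3 : C(unitInterval, unitInterval) := fh.comp cHi

theorem coe_fl (x : unitInterval) : ((fl x : unitInterval) : ℝ) = x / 2 := coe_cl x
theorem coe_fh (x : unitInterval) : ((fh x : unitInterval) : ℝ) = (1 + x) / 2 := coe_ch x
theorem coe_fhs (x : unitInterval) : ((fh.comp cSy x : unitInterval) : ℝ) = (1 + (1 - x)) / 2 :=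
  coe_ch (cSy x)
theorem coe_q0 (x : unitInterval) : ((q0 x : unitInterval) : ℝ) = x / 2 / 2 := by
  change ((fl (cLo x) : unitInterval) : ℝ) = _
  rw [coe_fl, coe_cl]
theorem coe_q1 (x : unitInterval) : ((q1 x : unitInterval) : ℝ) = (1 + x) / 2 / 2 := by
  change ((fl (cHi x) : unitInterval) : ℝ) = _
  rw [coe_fl, coe_ch]
theorem coe_q2 (x : unitInterval) : ((q2 x : unitInterval) : ℝ) = (1 + x / 2) / 2 := by
  change ((fh (cLo x) : unitInterval) : ℝ) = _
  rw [coe_fh, coe_cl]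
theorem coe_q3 (x : unitInterval) : ((q3 x : unitInterval) : ℝ) = (1 + (1 + x) / 2) / 2 := by
  change ((fh (cHi x) : unitInterval) : ℝ) = _
  rw [coe_fh, coe_ch]
theorem coe_q1s (x : unitInterval) : ((q1.comp cSy x : unitInterval) : ℝ) = (1 + (1 - x)) / 2 / 2 :=
  coe_q1 (cSy x)
theorem coe_q3s (x : unitInterval) :
    ((q3.comp cSy x : unitInterval) : ℝ) = (1 + (1 + (1 - x)) / 2) / 2 := coe_q3 (cSy x)

/-- the values of the quarter maps at the end points -/
theorem sph_q (f g : C(unitInterval, unitInterval))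
    (h0 : ((g 0 : unitInterval) : ℝ) = 0 ∨ ((g 0 : unitInterval) : ℝ) = 1 / 4 ∨
      ((g 0 : unitInterval) : ℝ) = 1 / 2 ∨ ((g 0 : unitInterval) : ℝ) = 3 / 4 ∨
      ((g 0 : unitInterval) : ℝ) = 1)
    (h1 : ((g 1 : unitInterval) : ℝ) = 0 ∨ ((g 1 : unitInterval) : ℝ) = 1 / 4 ∨
      ((g 1 : unitInterval) : ℝ) = 1 / 2 ∨ ((g 1 : unitInterval) : ℝ) = 3 / 4 ∨
      ((g 1 : unitInterval) : ℝ) = 1) (x : unitInterval) :
    (∃ i, sph (f x) (g 0) i = 0) ∧ ∃ i, sph (f x) (g 1) i = 0 :=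
  ⟨sph_zero_y h0, sph_zero_y h1⟩

theorem sph_f (f g : C(unitInterval, unitInterval))
    (h0 : ((f 0 : unitInterval) : ℝ) = 0 ∨ ((f 0 : unitInterval) : ℝ) = 1 / 2 ∨
      ((f 0 : unitInterval) : ℝ) = 1)
    (h1 : ((f 1 : unitInterval) : ℝ) = 0 ∨ ((f 1 : unitInterval) : ℝ) = 1 / 2 ∨
      ((f 1 : unitInterval) : ℝ) = 1) (y : unitInterval) :
    (∃ i, sph (f 0) (g y) i = 0) ∧ ∃ i, sph (f 1) (g y) i = 0 :=
  ⟨sph_zero_x h0, sph_zero_x h1⟩

/-- decomposition of the cube into eight octants -/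
theorem oct8 : Finsupp.single D1c (1 : ℤ) -
    (Finsupp.single (DO 1 1 1 one_sq' one_sq' one_sq') 1
      - Finsupp.single (DO 1 (-1) 1 one_sq' neg_one_sq' one_sq') 1
      + Finsupp.single (DO 1 (-1) (-1) one_sq' neg_one_sq' neg_one_sq') 1
      - Finsupp.single (DO 1 1 (-1) one_sq' one_sq' neg_one_sq') 1
      - Finsupp.single (DO (-1) 1 1 neg_one_sq' one_sq' one_sq') 1
      + Finsupp.single (DO (-1) (-1) 1 neg_one_sq' neg_one_sq' one_sq') 1
      - Finsupp.single (DO (-1) (-1) (-1) neg_one_sq' neg_one_sq' neg_one_sq') 1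
      + Finsupp.single (DO (-1) 1 (-1) neg_one_sq' one_sq' neg_one_sq') 1) ∈ RelP p23 := by
  have hid0 : (((ContinuousMap.id unitInterval) 0 : unitInterval) : ℝ) = 0 := rfl
  have hid1 : (((ContinuousMap.id unitInterval) 1 : unitInterval) : ℝ) = 1 := rfl
  have hfl0 : ((fl 0 : unitInterval) : ℝ) = 0 := by rw [coe_fl]; norm_num
  have hfl1 : ((fl 1 : unitInterval) : ℝ) = 1 / 2 := by rw [coe_fl]; norm_num
  have hfh0 : ((fh 0 : unitInterval) : ℝ) = 1 / 2 := by rw [coe_fh]; norm_num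
  have hfh1 : ((fh 1 : unitInterval) : ℝ) = 1 := by rw [coe_fh]; norm_num
  have hfs0 : ((fh.comp cSy 0 : unitInterval) : ℝ) = 1 := by rw [coe_fhs]; norm_num
  have hfs1 : ((fh.comp cSy 1 : unitInterval) : ℝ) = 1 / 2 := by rw [coe_fhs]; norm_num
  have hq00 : ((q0 0 : unitInterval) : ℝ) = 0 := by rw [coe_q0]; norm_num
  have hq01 : ((q0 1 : unitInterval) : ℝ) = 1 / 4 := by rw [coe_q0]; norm_num
  have hq10 : ((q1 0 : unitInterval) : ℝ) = 1 / 4 := by rw [coe_q1]; norm_num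
  have hq11 : ((q1 1 : unitInterval) : ℝ) = 1 / 2 := by rw [coe_q1]; norm_num
  have hq20 : ((q2 0 : unitInterval) : ℝ) = 1 / 2 := by rw [coe_q2]; norm_num
  have hq21 : ((q2 1 : unitInterval) : ℝ) = 3 / 4 := by rw [coe_q2]; norm_num
  have hq30 : ((q3 0 : unitInterval) : ℝ) = 3 / 4 := by rw [coe_q3]; norm_num
  have hq31 : ((q3 1 : unitInterval) : ℝ) = 1 := by rw [coe_q3]; norm_num
  have hS := continuous_sph (Z := ℝ × ℝ) continuous_fst continuous_snd
  -- halving in `x`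
  have a0 := halve0 sph hS norm_sph (ContinuousMap.id _) (ContinuousMap.id _)
    (sph_q _ _ (Or.inl hid0) (Or.inr (Or.inr (Or.inr (Or.inr hid1)))))
  -- halving in `y`
  have b0 := halve1 sph hS norm_sph fl (ContinuousMap.id _)
    (sph_f _ _ (Or.inl hfl0) (Or.inr (Or.inl hfl1)))
  have b1 := halve1 sph hS norm_sph fl fl (sph_f _ _ (Or.inl hfl0) (Or.inr (Or.inl hfl1)))
  have b2 := halve1 sph hS norm_sph fl fh (sph_f _ _ (Or.inl hfl0) (Or.inr (Or.inl hfl1)))
  have c0 := halve1 sph hS norm_sph fh (ContinuousMap.id _)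
    (sph_f _ _ (Or.inr (Or.inl hfh0)) (Or.inr (Or.inr hfh1)))
  have c1 := halve1 sph hS norm_sph fh fl (sph_f _ _ (Or.inr (Or.inl hfh0)) (Or.inr (Or.inr hfh1)))
  have c2 := halve1 sph hS norm_sph fh fh (sph_f _ _ (Or.inr (Or.inl hfh0)) (Or.inr (Or.inr hfh1)))
  -- reversals
  have r1 := rev1 sph hS norm_sph fl q1 (sph_f _ _ (Or.inl hfl0) (Or.inr (Or.inl hfl1)))
  have r3 := rev1 sph hS norm_sph fl q3 (sph_f _ _ (Or.inl hfl0) (Or.inr (Or.inl hfl1)))
  have s0 := rev0 sph hS norm_sph fh q0 (sph_q _ _ (Or.inl hq00) (Or.inr (Or.inl hq01)))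
  have s1 := rev0 sph hS norm_sph fh q1 (sph_q _ _ (Or.inr (Or.inl hq10))
    (Or.inr (Or.inr (Or.inl hq11))))
  have s2 := rev0 sph hS norm_sph fh q2 (sph_q _ _ (Or.inr (Or.inr (Or.inl hq20)))
    (Or.inr (Or.inr (Or.inr (Or.inl hq21)))))
  have s3 := rev0 sph hS norm_sph fh q3 (sph_q _ _ (Or.inr (Or.inr (Or.inr (Or.inl hq30))))
    (Or.inr (Or.inr (Or.inr (Or.inr hq31)))))
  have u1 := rev1 sph hS norm_sph (fh.comp cSy) q1
    (sph_f _ _ (Or.inr (Or.inr hfs0)) (Or.inr (Or.inl hfs1)))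
  have u3 := rev1 sph hS norm_sph (fh.comp cSy) q3
    (sph_f _ _ (Or.inr (Or.inr hfs0)) (Or.inr (Or.inl hfs1)))
  -- identification
  have e0 : DX sph hS norm_sph fl q0 = DO 1 1 1 one_sq' one_sq' one_sq' :=
    DS_eq_DO _ _ _ _ _ fun x y => by
      rw [coe_fl, coe_q0]
      exact sph_eq_oct (fl_trig x).1 (fl_trig x).2 (g0_trig y).1 (g0_trig y).2
  have e1' : DX sph hS norm_sph fl (q1.comp cSy) = DO 1 (-1) 1 one_sq' neg_one_sq' one_sq' :=
    DS_eq_DO _ _ _ _ _ fun x y => by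
      rw [coe_fl, coe_q1s]
      exact sph_eq_oct (fl_trig x).1 (fl_trig x).2 (g1_trig y).1 (g1_trig y).2
  have e2' : DX sph hS norm_sph fl q2 = DO 1 (-1) (-1) one_sq' neg_one_sq' neg_one_sq' :=
    DS_eq_DO _ _ _ _ _ fun x y => by
      rw [coe_fl, coe_q2]
      exact sph_eq_oct (fl_trig x).1 (fl_trig x).2 (g2_trig y).1 (g2_trig y).2
  have e3' : DX sph hS norm_sph fl (q3.comp cSy) = DO 1 1 (-1) one_sq' one_sq' neg_one_sq' :=
    DS_eq_DO _ _ _ _ _ fun x y => by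
      rw [coe_fl, coe_q3s]
      exact sph_eq_oct (fl_trig x).1 (fl_trig x).2 (g3_trig y).1 (g3_trig y).2
  have f0 : DX sph hS norm_sph (fh.comp cSy) q0 = DO (-1) 1 1 neg_one_sq' one_sq' one_sq' :=
    DS_eq_DO _ _ _ _ _ fun x y => by
      rw [coe_fhs, coe_q0]
      exact sph_eq_oct (fh_trig x).1 (fh_trig x).2 (g0_trig y).1 (g0_trig y).2
  have f1 : DX sph hS norm_sph (fh.comp cSy) (q1.comp cSy) =
      DO (-1) (-1) 1 neg_one_sq' neg_one_sq' one_sq' :=
    DS_eq_DO _ _ _ _ _ fun x y => by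
      rw [coe_fhs, coe_q1s]
      exact sph_eq_oct (fh_trig x).1 (fh_trig x).2 (g1_trig y).1 (g1_trig y).2
  have f2 : DX sph hS norm_sph (fh.comp cSy) q2 =
      DO (-1) (-1) (-1) neg_one_sq' neg_one_sq' neg_one_sq' :=
    DS_eq_DO _ _ _ _ _ fun x y => by
      rw [coe_fhs, coe_q2]
      exact sph_eq_oct (fh_trig x).1 (fh_trig x).2 (g2_trig y).1 (g2_trig y).2
  have f3 : DX sph hS norm_sph (fh.comp cSy) (q3.comp cSy) =
      DO (-1) 1 (-1) neg_one_sq' one_sq' neg_one_sq' :=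
    DS_eq_DO _ _ _ _ _ fun x y => by
      rw [coe_fhs, coe_q3s]
      exact sph_eq_oct (fh_trig x).1 (fh_trig x).2 (g3_trig y).1 (g3_trig y).2
  rw [D1c_eq, ← e0, ← e1', ← e2', ← e3', ← f0, ← f1, ← f2, ← f3]
  change Finsupp.single (DX sph hS norm_sph (ContinuousMap.id _) (ContinuousMap.id _)) (1 : ℤ) - _ ∈ _
  change _ - Finsupp.single (DX sph hS norm_sph fl _) 1 - Finsupp.single (DX sph hS norm_sph fh _) 1
    ∈ _ at a0
  change _ - Finsupp.single (DX sph hS norm_sph fl fl) 1 - Finsupp.single (DX sph hS norm_sph fl fh) 1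
    ∈ _ at b0
  change _ - Finsupp.single (DX sph hS norm_sph fl q0) 1 - Finsupp.single (DX sph hS norm_sph fl q1) 1
    ∈ _ at b1
  change _ - Finsupp.single (DX sph hS norm_sph fl q2) 1 - Finsupp.single (DX sph hS norm_sph fl q3) 1
    ∈ _ at b2
  change _ - Finsupp.single (DX sph hS norm_sph fh fl) 1 - Finsupp.single (DX sph hS norm_sph fh fh) 1
    ∈ _ at c0
  change _ - Finsupp.single (DX sph hS norm_sph fh q0) 1 - Finsupp.single (DX sph hS norm_sph fh q1) 1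
    ∈ _ at c1
  change _ - Finsupp.single (DX sph hS norm_sph fh q2) 1 - Finsupp.single (DX sph hS norm_sph fh q3) 1
    ∈ _ at c2
  have tot := Submodule.add_mem _ (Submodule.add_mem _ (Submodule.add_mem _ (Submodule.add_mem _
    (Submodule.add_mem _ (Submodule.add_mem _ a0 b0) b1) b2) c0) c1) c2
  have tot2 := Submodule.add_mem _ (Submodule.add_mem _ (Submodule.add_mem _ (Submodule.add_mem _
    (Submodule.add_mem _ (Submodule.add_mem _ tot r1) r3) s0) s1) s2) s3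
  have tot3 := Submodule.sub_mem _ (Submodule.sub_mem _ tot2 u1) u3
  convert tot3 using 1
  abel

end Pool.Agent.Helper50.Drop
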