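import Pool.Agent.Helper50.Drop.Oct2

/-!
# Moves between the octants
-/

set_option autoImplicit false
set_option linter.unusedSimpArgs false

namespace Pool.Agent.Helper50.Drop

open scoped RealInnerProductSpace
open Finset
open Pool.Agent.Helper76.Freq (Q ins tr sh continuous_ins R3 ver inner3 norm3 IsTop IsBot
  isTop_pt isBot_pt eq_of_isTop_pt eq_of_isBot_pt)

theorem lp_neg_a (v a b : R3) (s t : ℝ) : lp v (-a) b s t = lp v a b s t := by
  unfold lp; rw [Rot_neg, ver5_neg]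

theorem lp_neg_b (v a b : R3) (s t : ℝ) : lp v a (-b) s t = lp v a b s t := by
  unfold lp; rw [Rot_neg, ver5_neg]

/-- reversal of the axis is reversal of time -/
theorem lp_neg_v (v a b : R3) (s t : ℝ) : lp (-v) a b s t = lp v a b s (1 - t) := by
  unfold lp
  have : ∀ a, Rot (-v) (2 * Real.pi * t) a = Rot v (2 * Real.pi * (1 - t)) a := by
    intro a
    rw [Rot_neg_axis, ← Rot_add_two_pi, show -(2 * Real.pi * t) + 2 * Real.pi =
      2 * Real.pi * (1 - t) by ring]
  rw [this, this]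

/-- rotation by `π` -/
theorem Rot_pi (v a : R3) (i : Fin 3) : Rot v Real.pi a i = 2 * ⟪v, a⟫ * v i - a i := by
  rw [rt_Rot_apply, Real.cos_pi, Real.sin_pi]; ring

theorem ins_3 {j : ℕ} (hj : j < 3) (e : unitInterval) (x : Q) : ins j e x 3 = x 2 := by
  unfold ins
  rw [if_neg (by omega), if_neg (by omega)]

theorem ins3_lt {j : ℕ} (hj : j < 3) (e : unitInterval) (x : Q) : ins 3 e x j = x j := by
  unfold ins
  rw [if_pos hj]

theorem ins3_3 (e : unitInterval) (x : Q) : ins 3 e x 3 = e := by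
  unfold ins; simp

/-- some coordinate of the axis vanishes on the boundary of the square -/
def BdZero (V : ℝ → ℝ → R3) : Prop :=
  (∀ y, ∃ i, V 0 y i = 0) ∧ (∀ y, ∃ i, V 1 y i = 0) ∧ (∀ x, ∃ i, V x 0 i = 0) ∧ ∀ x, ∃ i, V x 1 i = 0

/-- on a face either `s = ± 1` or the axis is on the boundary -/
theorem face_cases {V : ℝ → ℝ → R3} (hz : BdZero V) {j : ℕ} (hj : j < 3) {e : unitInterval}
    (he : e = 0 ∨ e = 1) (x : Q) :
    (2 * ((ins j e x 2 : unitInterval) : ℝ) - 1 = 1 ∨ 2 * ((ins j e x 2 : unitInterval) : ℝ) - 1 = -1)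
      ∨ ∃ i, V (ins j e x 0) (ins j e x 1) i = 0 := by
  have hj' : j = 0 ∨ j = 1 ∨ j = 2 := by omega
  rcases hj' with rfl | rfl | rfl
  · right
    rw [ins0, if_pos rfl]
    rcases he with rfl | rfl
    · exact hz.1 _
    · exact hz.2.1 _
  · right
    rw [ins1, if_neg one_ne_zero, if_pos rfl]
    rcases he with rfl | rfl
    · exact hz.2.2.1 _
    · exact hz.2.2.2 _
  · left
    rw [ins2, if_neg two_ne_zero, if_neg (by norm_num), if_pos rfl]
    rcases he with rfl | rfl
    · right; norm_num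
    · left; norm_num

theorem face_avoid {V : ℝ → ℝ → R3} (hz : BdZero V) {j : ℕ} (hj : j < 3) {e : unitInterval}
    (he : e = 0 ∨ e = 1) (x : Q) :
    2 * ((ins j e x 2 : unitInterval) : ℝ) - 1 ≠ 0 ∨ ∃ i, V (ins j e x 0) (ins j e x 1) i = 0 := by
  rcases face_cases hz hj he x with h | h
  · left
    rcases h with h | h <;> rw [h] <;> norm_num
  · right; exact h

theorem ccs : Continuous fun x : Q => 2 * (x 2 : ℝ) - 1 :=
  (continuous_const.mul (cc 2)).sub continuous_const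

theorem cV {V : ℝ → ℝ → R3} (hV : Continuous fun p : ℝ × ℝ => V p.1 p.2) :
    Continuous fun x : Q => V (x 0) (x 1) := by
  have h : Continuous fun x : Q => ((x 0 : ℝ), (x 1 : ℝ)) := (cc 0).prodMk (cc 1)
  exact hV.comp h

/-- abbreviation for the cube of an axis function -/
noncomputable def DV (V : ℝ → ℝ → R3) (hV : Continuous fun p : ℝ × ℝ => V p.1 p.2)
    (nV : ∀ x y, ‖V x y‖ = 1) : C(Q, CL 4) :=
  DX V hV nV (ContinuousMap.id _) (ContinuousMap.id _)

theorem DV_pos (V : ℝ → ℝ → R3) (hV : Continuous fun p : ℝ × ℝ => V p.1 p.2)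
    (nV : ∀ x y, ‖V x y‖ = 1) (x : Q) (t : unitInterval) :
    (DV V hV nV x).pos t = lp (V (x 0) (x 1)) e1 e3 (2 * (x 2 : ℝ) - 1) t := by
  unfold DV; rw [DX_pos]; rfl

theorem good_of {v a b : R3} {s : ℝ} (hv : ‖v‖ = 1) (ha : ‖a‖ = 1) (hb : ‖b‖ = 1) (hs : |s| ≤ 1)
    (hab : ⟪a, b⟫ = 0) : Good (v, a, b, s) := ⟨hv, ha, hb, hs, Or.inl hab⟩

/-- rotation moves -/
theorem rot_move (V V' : ℝ → ℝ → R3) (hV : Continuous fun p : ℝ × ℝ => V p.1 p.2)
    (hV' : Continuous fun p : ℝ × ℝ => V' p.1 p.2) (nV : ∀ x y, ‖V x y‖ = 1)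
    (nV' : ∀ x y, ‖V' x y‖ = 1) (hz : BdZero V) {w : R3} (hw : ‖w‖ = 1)
    (h1 : Rot w Real.pi e1 = e1 ∨ Rot w Real.pi e1 = -e1)
    (h2 : Rot w Real.pi e2 = e2 ∨ Rot w Real.pi e2 = -e2)
    (h3 : Rot w Real.pi e3 = e3 ∨ Rot w Real.pi e3 = -e3)
    (hVV : ∀ x y, Rot w Real.pi (V x y) = V' x y) :
    Finsupp.single (DV V' hV' nV') (1 : ℤ) - Finsupp.single (DV V hV nV) 1 ∈ RelP p23 := by
  have hc : Continuous fun x : Q => Real.pi * (x 3 : ℝ) := continuous_const.mul (cc 3)
  set c : C(Q, CL 4) := LL (fun x : Q => Rot w (Real.pi * (x 3 : ℝ)) (V (x 0) (x 1)))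
    (fun x => Rot w (Real.pi * (x 3 : ℝ)) e1) (fun x => Rot w (Real.pi * (x 3 : ℝ)) e3)
    (fun x => 2 * (x 2 : ℝ) - 1) (cont_rot continuous_const hc (cV hV))
    (cont_rot continuous_const hc continuous_const) (cont_rot continuous_const hc continuous_const)
    ccs (fun x => good_of ((Rot_norm hw _ _).trans (nV _ _)) ((Rot_norm hw _ _).trans norm_e1)
      ((Rot_norm hw _ _).trans norm_e3) (abs_two_sub_one (x 2))
      ((Rot_inner hw _ _ _).trans inner_e1_e3)) with hcdef
  set P : unitInterval → E 4 := fun u => mk (Rot w (Real.pi * u) e2) (Rot w (Real.pi * u) e1) with hP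
  have hu : Continuous fun u : unitInterval => Real.pi * (u : ℝ) :=
    continuous_const.mul continuous_subtype_val
  have key := homotopyP c P
    (cont_mk (cont_rot continuous_const hu continuous_const)
      (cont_rot continuous_const hu continuous_const))
    (fun u => norm_mk ((Rot_norm hw _ _).trans norm_e2) ((Rot_norm hw _ _).trans norm_e1)
      ((Rot_inner hw _ _ _).trans inner_e2_e1)) ?_
  · have p0 : P 0 = p23 := by
      simp only [hP, Set.Icc.coe_zero, mul_zero, Rot_zero]; rfl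
    have p1 : P 1 = p23 := by
      simp only [hP, Set.Icc.coe_one, mul_one]
      rcases h1 with h1 | h1 <;> rcases h2 with h2 | h2 <;> rw [h1, h2] <;>
        (try simp only [mk_neg_left, mk_neg_right]) <;> rfl
    have f0 : face 3 0 c = DV V hV nV := cube_ext fun x t => by
      rw [face_apply, DV_pos, hcdef, LL_pos]
      simp only [ins3_lt (show 0 < 3 by norm_num), ins3_lt (show 1 < 3 by norm_num),
        ins3_lt (show 2 < 3 by norm_num), ins3_3, Set.Icc.coe_zero, mul_zero, Rot_zero]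
    have f1 : face 3 1 c = DV V' hV' nV' := cube_ext fun x t => by
      rw [face_apply, DV_pos, hcdef, LL_pos]
      simp only [ins3_lt (show 0 < 3 by norm_num), ins3_lt (show 1 < 3 by norm_num),
        ins3_lt (show 2 < 3 by norm_num), ins3_3, Set.Icc.coe_one, mul_one, hVV]
      rcases h1 with h1 | h1 <;> rcases h3 with h3 | h3 <;> rw [h1, h3] <;>
        (try simp only [lp_neg_a, lp_neg_b])
    rw [p0, p1, f0, f1] at key
    change push (iota p23) _ ∈ RelZ (offA 4) mq 3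
    rw [map_sub]
    exact key
  · intro j hj e he x t h
    rw [hcdef, LL_pos, ins_3 hj] at h
    have := lp_rot hw (nV _ _) norm_e1 norm_e3 inner_e1_e3 norm_e2 norm_e1 inner_e2_e1
      (abs_two_sub_one _) h
    exact avoid (nV _ _) (abs_two_sub_one _) (face_avoid hz hj he x) this

theorem v0_ne_zero (i : Fin 3) : v0 i ≠ 0 := by
  fin_cases i
  · change v0 0 ≠ 0; rw [rt_v0_0]; positivity
  · change v0 1 ≠ 0; rw [rt_v0_1]; positivity
  · change v0 2 ≠ 0; rw [rt_v0_2]; positivity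

theorem qpi_norm : ‖qpi‖ = 1 := by
  rw [qpi_eq]
  exact norm_mk ((Rot_norm norm_v0 _ _).trans norm_e1) ((Rot_norm norm_v0 _ _).trans norm_e3)
    ((Rot_inner norm_v0 _ _ _).trans inner_e1_e3)

/-- the loops with axis `v` pass through the marked points only for `v = ± v0` -/
def HitV (v : R3) : Prop := ∀ (s t α : ℝ), |s| ≤ 1 → t ∈ Set.Icc (0 : ℝ) 1 → 0 < α →
  α < 2 * Real.pi → lp v e1 e3 s t = mk (Rot v0 α e1) (Rot v0 α e3) → s = 0 ∧ (v = v0 ∨ v = -v0)

theorem hitV_of_nonneg {v : R3} (hv : ‖v‖ = 1) (h0 : ∀ i, 0 ≤ v i) : HitV v := by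
  intro s t α hs ht h1 h2 h
  obtain ⟨h3, h4, -⟩ := hit1 hv h0 hs ht h1 h2 h
  exact ⟨h3, Or.inl h4⟩

theorem hitV_neg {v : R3} (h : HitV v) : HitV (-v) := by
  intro s t α hs ht h1 h2 h3
  rw [lp_neg_v] at h3
  obtain ⟨h4, h5⟩ := h s (1 - t) α hs ⟨by linarith [ht.2], by linarith [ht.1]⟩ h1 h2 h3
  refine ⟨h4, ?_⟩
  rcases h5 with h5 | h5
  · right; rw [h5]
  · left; rw [h5, neg_neg]

theorem HitV.avoid {v : R3} (h : HitV v) {s t α : ℝ} (hs : |s| ≤ 1) (ht : t ∈ Set.Icc (0 : ℝ) 1)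
    (hα : 0 < α) (hα' : α < 2 * Real.pi) (hc : s ≠ 0 ∨ ∃ i, v i = 0) :
    lp v e1 e3 s t ≠ mk (Rot v0 α e1) (Rot v0 α e3) := by
  intro h1
  obtain ⟨h2, h3⟩ := h s t α hs ht hα hα' h1
  rcases hc with hc | ⟨i, hc⟩
  · exact hc h2
  · rcases h3 with h3 | h3
    · rw [h3] at hc; exact v0_ne_zero i hc
    · rw [h3] at hc
      apply v0_ne_zero i
      change -(v0 i) = 0 at hc
      exact neg_eq_zero.1 hc

/-- moving the marking -/
theorem alpha_move (V : ℝ → ℝ → R3) (hV : Continuous fun p : ℝ × ℝ => V p.1 p.2)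
    (nV : ∀ x y, ‖V x y‖ = 1) (hz : BdZero V)
    (hH : ∀ x y : unitInterval, HitV (V x y)) :
    push (iota qpi) (Finsupp.single (DV V hV nV) (1 : ℤ)) -
      push (iota p23) (Finsupp.single (DV V hV nV) 1) ∈ RelZ (offA 4) mq 3 := by
  set c : C(Q, CL 4) := LL (fun x : Q => V (x 0) (x 1)) (fun x => e1) (fun x => e3)
    (fun x => 2 * (x 2 : ℝ) - 1) (cV hV) continuous_const continuous_const
    ccs (fun x => good_of (nV _ _) norm_e1 norm_e3 (abs_two_sub_one (x 2)) inner_e1_e3) with hcdef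
  set P : unitInterval → E 4 := fun u => mk (Rot v0 (2 * Real.pi / 3 + Real.pi / 3 * u) e1)
    (Rot v0 (2 * Real.pi / 3 + Real.pi / 3 * u) e3) with hP
  have hu : Continuous fun u : unitInterval => 2 * Real.pi / 3 + Real.pi / 3 * (u : ℝ) :=
    continuous_const.add (continuous_const.mul continuous_subtype_val)
  have key := homotopyP c P
    (cont_mk (cont_rot continuous_const hu continuous_const)
      (cont_rot continuous_const hu continuous_const))
    (fun u => norm_mk ((Rot_norm norm_v0 _ _).trans norm_e1) ((Rot_norm norm_v0 _ _).trans norm_e3)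
      ((Rot_inner norm_v0 _ _ _).trans inner_e1_e3)) ?_
  · have p0 : P 0 = p23 := by
      simp only [hP, Set.Icc.coe_zero, mul_zero, add_zero]
      exact p23_eq.symm
    have p1 : P 1 = qpi := by
      simp only [hP, Set.Icc.coe_one, mul_one]
      rw [show 2 * Real.pi / 3 + Real.pi / 3 = Real.pi by ring]
      exact qpi_eq.symm
    have f : ∀ e, face 3 e c = DV V hV nV := fun e => cube_ext fun x t => by
      rw [face_apply, DV_pos, hcdef, LL_pos]
      simp only [ins3_lt (show 0 < 3 by norm_num), ins3_lt (show 1 < 3 by norm_num),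
        ins3_lt (show 2 < 3 by norm_num)]
    rw [p0, p1, f, f] at key
    exact key
  · intro j hj e he x t
    rw [hcdef, LL_pos]
    have h1 := (x 2).2.1
    have h2 := (x 2).2.2
    have hpi := Real.pi_pos
    refine (hH _ _).avoid (abs_two_sub_one _) t.2 ?_ ?_ (face_avoid hz hj he x)
    · positivity
    · nlinarith

/-- positivity of coordinates in the first octant -/
theorem oct_nonneg (x y : unitInterval) (i : Fin 3) : 0 ≤ oct 1 1 1 x y i := by
  have hx := x.2
  have hy := y.2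
  have hpi := Real.pi_pos
  have a1 : 0 ≤ Real.cos (Real.pi * x / 2) :=
    Real.cos_nonneg_of_mem_Icc ⟨by nlinarith [hx.1], by nlinarith [hx.2]⟩
  have a2 : 0 ≤ Real.sin (Real.pi * x / 2) :=
    Real.sin_nonneg_of_nonneg_of_le_pi (by nlinarith [hx.1]) (by nlinarith [hx.2])
  have a3 : 0 ≤ Real.cos (Real.pi * y / 2) :=
    Real.cos_nonneg_of_mem_Icc ⟨by nlinarith [hy.1], by nlinarith [hy.2]⟩
  have a4 : 0 ≤ Real.sin (Real.pi * y / 2) :=
    Real.sin_nonneg_of_nonneg_of_le_pi (by nlinarith [hy.1]) (by nlinarith [hy.2])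
  fin_cases i
  · change 0 ≤ 1 * Real.cos (Real.pi * x / 2); linarith
  · change 0 ≤ 1 * (Real.sin (Real.pi * x / 2) * Real.cos (Real.pi * y / 2)); positivity
  · change 0 ≤ 1 * (Real.sin (Real.pi * x / 2) * Real.sin (Real.pi * y / 2)); positivity

theorem oct_neg (x y : ℝ) : oct (-1) (-1) (-1) x y = - oct 1 1 1 x y := by
  unfold oct
  ext i
  fin_cases i <;> simp

theorem bdZero_oct (a b c : ℝ) : BdZero (oct a b c) := by
  refine ⟨fun y => ⟨1, ?_⟩, fun y => ⟨0, ?_⟩, fun x => ⟨2, ?_⟩, fun x => ⟨1, ?_⟩⟩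
  · change b * (Real.sin (Real.pi * 0 / 2) * _) = 0
    simp
  · change a * Real.cos (Real.pi * 1 / 2) = 0
    simp
  · change c * (_ * Real.sin (Real.pi * 0 / 2)) = 0
    simp
  · change b * (_ * Real.cos (Real.pi * 1 / 2)) = 0
    simp

theorem hitV_oct (x y : unitInterval) : HitV (oct 1 1 1 x y) :=
  hitV_of_nonneg (norm_oct one_sq' one_sq' one_sq' _ _) (oct_nonneg x y)

theorem hitV_oct_neg (x y : unitInterval) : HitV (oct (-1) (-1) (-1) x y) := by
  rw [oct_neg]
  exact hitV_neg (hitV_oct x y)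

end Pool.Agent.Helper50.Drop
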