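import Pool.Agent.Helper50.Drop.Oct3

/-!
# The orientation reversing move and the small box
-/

set_option autoImplicit false
set_option linter.unusedSimpArgs false

namespace Pool.Agent.Helper50.Drop

open scoped RealInnerProductSpace
open Finset
open Pool.Agent.Helper76.Freq (Q ins tr sh continuous_ins R3 ver inner3 norm3 IsTop IsBot
  isTop_pt isBot_pt eq_of_isTop_pt eq_of_isBot_pt)

/-- the axis of the second rotation -/
noncomputable def mm : R3 := (√6)⁻¹ • !₂[2, -1, -1]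

theorem mm_0 : mm 0 = (√6)⁻¹ * 2 := rfl
theorem mm_1 : mm 1 = (√6)⁻¹ * (-1) := rfl
theorem mm_2 : mm 2 = (√6)⁻¹ * (-1) := rfl

theorem isq6 : ((√6)⁻¹ : ℝ) ^ 2 = 1 / 6 := by
  rw [inv_pow, Real.sq_sqrt (by norm_num)]; norm_num

theorem norm_mm : ‖mm‖ = 1 := by
  apply norm_eq_one_of_sq
  rw [mm_0, mm_1, mm_2]
  linear_combination 6 * isq6

theorem inner_mm (a : R3) : ⟪mm, a⟫ = (√6)⁻¹ * (2 * a 0 - a 1 - a 2) := by
  rw [inner3, mm_0, mm_1, mm_2]; ring

theorem inner_v0 (a : R3) : ⟪v0, a⟫ = (√3)⁻¹ * (a 0 + a 1 + a 2) := by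
  rw [inner3, rt_v0_0, rt_v0_1, rt_v0_2]; ring

/-- the rotation of the move -/
noncomputable def hr (u : ℝ) (a : R3) : R3 := Rot mm (Real.pi * u) (Rot v0 (Real.pi * u) a)

theorem hr_inner (u : ℝ) (a b : R3) : ⟪hr u a, hr u b⟫ = ⟪a, b⟫ := by
  unfold hr
  rw [Rot_inner norm_mm, Rot_inner norm_v0]

theorem hr_norm (u : ℝ) (a : R3) : ‖hr u a‖ = ‖a‖ := by
  unfold hr
  rw [Rot_norm norm_mm, Rot_norm norm_v0]

theorem hr_inj {u : ℝ} {a b : R3} (h : hr u a = hr u b) : a = b :=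
  Rot_inj norm_v0 (Rot_inj norm_mm h)

theorem hr_zero (a : R3) : hr 0 a = a := by
  unfold hr
  rw [mul_zero, Rot_zero, Rot_zero]

theorem hr_one (a : R3) : hr 1 a = !₂[-(a 0), -(a 2), -(a 1)] := by
  unfold hr
  rw [mul_one]
  have h3 := rt_isq3
  have h6 := isq6
  have k : ∀ i, Rot v0 Real.pi a i = 2 / 3 * (a 0 + a 1 + a 2) - a i := by
    intro i
    rw [Rot_pi, inner_v0]
    have : v0 i = (√3)⁻¹ := by
      fin_cases i
      · exact rt_v0_0
      · exact rt_v0_1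
      · exact rt_v0_2
    rw [this]
    linear_combination (2 * (a 0 + a 1 + a 2)) * h3
  apply rt_ext3
  · rw [Rot_pi, inner_mm, mm_0, k, k, k]
    change _ = -(a 0)
    linear_combination (4 * (2 * (2 / 3 * (a 0 + a 1 + a 2) - a 0) - (2 / 3 * (a 0 + a 1 + a 2) - a 1) -
      (2 / 3 * (a 0 + a 1 + a 2) - a 2))) * h6
  · rw [Rot_pi, inner_mm, mm_1, k, k, k]
    change _ = -(a 2)
    linear_combination (-2 * (2 * (2 / 3 * (a 0 + a 1 + a 2) - a 0) - (2 / 3 * (a 0 + a 1 + a 2) - a 1) -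
      (2 / 3 * (a 0 + a 1 + a 2) - a 2))) * h6
  · rw [Rot_pi, inner_mm, mm_2, k, k, k]
    change _ = -(a 1)
    linear_combination (-2 * (2 * (2 / 3 * (a 0 + a 1 + a 2) - a 0) - (2 / 3 * (a 0 + a 1 + a 2) - a 1) -
      (2 / 3 * (a 0 + a 1 + a 2) - a 2))) * h6

theorem hr_v0 (u : ℝ) : hr u v0 = Rot mm (Real.pi * u) v0 := by
  unfold hr
  rw [Rot_self norm_v0]

theorem inner_mm_v0 : ⟪mm, v0⟫ = 0 := by
  rw [inner_mm, rt_v0_0, rt_v0_1, rt_v0_2]; ring

theorem hr_v0_coord (u : ℝ) : hr u v0 0 = Real.cos (Real.pi * u) * (√3)⁻¹ ∧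
    hr u v0 1 = Real.cos (Real.pi * u) * (√3)⁻¹ - Real.sin (Real.pi * u) * (3 * ((√6)⁻¹ * (√3)⁻¹)) ∧
    hr u v0 2 = Real.cos (Real.pi * u) * (√3)⁻¹ + Real.sin (Real.pi * u) * (3 * ((√6)⁻¹ * (√3)⁻¹)) := by
  rw [hr_v0]
  refine ⟨?_, ?_, ?_⟩ <;>
    rw [rt_Rot_apply, inner_mm_v0] <;>
    simp only [rt_crs_0, rt_crs_1, rt_crs_2, mm_0, mm_1, mm_2, rt_v0_0, rt_v0_1, rt_v0_2] <;> ring

theorem isq3_lt : (√3)⁻¹ < (1 : ℝ) := by
  rw [inv_lt_one_iff₀]
  right
  rw [Real.lt_sqrt (by norm_num)]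
  norm_num

/-- the rotated diagonal is never a coordinate axis -/
theorem hr_v0_ne (u : ℝ) : (hr u v0 ≠ e1 ∧ hr u v0 ≠ -e1) ∧ (hr u v0 ≠ e2 ∧ hr u v0 ≠ -e2) ∧
    (hr u v0 ≠ e3 ∧ hr u v0 ≠ -e3) := by
  obtain ⟨h0, h1, h2⟩ := hr_v0_coord u
  set C := Real.cos (Real.pi * u) with hC
  set S := Real.sin (Real.pi * u) with hS
  have hCS : S ^ 2 + C ^ 2 = 1 := Real.sin_sq_add_cos_sq _
  have r3 : (0 : ℝ) < (√3)⁻¹ := by positivity
  have r3' := isq3_lt
  have hk : (3 * ((√6)⁻¹ * (√3)⁻¹) : ℝ) ^ 2 = 1 / 2 := by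
    rw [mul_pow, mul_pow, isq6, rt_isq3]; norm_num
  set k := (3 * ((√6)⁻¹ * (√3)⁻¹) : ℝ) with hkdef
  have hC1 : |C| ≤ 1 := Real.abs_cos_le_one _
  have hC2 := abs_le.1 hC1
  have n0 : ∀ z : R3, hr u v0 = z → z 0 = C * (√3)⁻¹ ∧ z 1 = C * (√3)⁻¹ - S * k ∧
      z 2 = C * (√3)⁻¹ + S * k := by
    intro z hz
    rw [← hz]
    exact ⟨h0, h1, h2⟩
  have bad1 : ∀ z : R3, z 0 ^ 2 = 1 → hr u v0 ≠ z := by
    intro z hz h
    obtain ⟨k0, -, -⟩ := n0 z h
    rw [k0, mul_pow, rt_isq3] at hz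
    nlinarith
  have bad2 : ∀ z : R3, z 0 = 0 → z 1 ^ 2 + z 2 ^ 2 = 1 → (z 1 = 0 ∨ z 2 = 0) → hr u v0 ≠ z := by
    intro z hz hz' hz'' h
    obtain ⟨k0, k1, k2⟩ := n0 z h
    rw [hz] at k0
    have hC0 : C = 0 := by
      rcases mul_eq_zero.1 k0.symm with h | h
      · exact h
      · exact absurd h r3.ne'
    rw [hC0] at hCS k1 k2
    have hS2 : S ^ 2 = 1 := by linarith
    rcases hz'' with h | h
    · rw [h] at k1
      have h5 : (S * k) ^ 2 = 1 / 2 := by rw [mul_pow, hS2, hk]; norm_num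
      have h6 : S * k = 0 := by linarith
      rw [h6] at h5
      norm_num at h5
    · rw [h] at k2
      have h5 : (S * k) ^ 2 = 1 / 2 := by rw [mul_pow, hS2, hk]; norm_num
      have h6 : S * k = 0 := by linarith
      rw [h6] at h5
      norm_num at h5
  refine ⟨⟨bad1 _ ?_, bad1 _ ?_⟩, ⟨bad2 _ ?_ ?_ ?_, bad2 _ ?_ ?_ ?_⟩, ⟨bad2 _ ?_ ?_ ?_, bad2 _ ?_ ?_ ?_⟩⟩
  all_goals simp [e1, e2, e3]

theorem inner_v0_pos {v : R3} (hv : ‖v‖ = 1) (h0 : ∀ i, 0 ≤ v i) : 0 < ⟪v0, v⟫ := by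
  rw [inner_v0]
  have h1 := rt_norm3_one hv
  have a := h0 0
  have b := h0 1
  have c := h0 2
  have r3 : (0 : ℝ) < (√3)⁻¹ := by positivity
  apply mul_pos r3
  by_contra h
  rw [not_lt] at h
  have a0 : v 0 = 0 := by linarith
  have b0 : v 1 = 0 := by linarith
  have c0 : v 2 = 0 := by linarith
  rw [a0, b0, c0] at h1
  norm_num at h1

theorem hr_continuous {Z : Type*} [TopologicalSpace Z] {f : Z → ℝ} {g : Z → R3} (hf : Continuous f)
    (hg : Continuous g) : Continuous fun z => hr (f z) (g z) := by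
  unfold hr
  have h1 : Continuous fun z => Real.pi * f z := continuous_const.mul hf
  exact cont_rot continuous_const h1 (cont_rot continuous_const h1 hg)

/-- the rotated octant -/
noncomputable def octS (x y : ℝ) : R3 := oct (-1) (-1) (-1) x (1 - y)

theorem hr_one_oct (x y : ℝ) : hr 1 (oct 1 1 1 x y) = octS x y := by
  rw [hr_one]
  unfold octS oct
  have h : Real.pi * (1 - y) / 2 = Real.pi / 2 - Real.pi * y / 2 := by ring
  rw [h, Real.cos_pi_div_two_sub, Real.sin_pi_div_two_sub]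
  apply rt_ext3
  · change -(1 * Real.cos (Real.pi * x / 2)) = -1 * Real.cos (Real.pi * x / 2)
    ring
  · change -(1 * (Real.sin (Real.pi * x / 2) * Real.sin (Real.pi * y / 2))) =
      -1 * (Real.sin (Real.pi * x / 2) * Real.sin (Real.pi * y / 2))
    ring
  · change -(1 * (Real.sin (Real.pi * x / 2) * Real.cos (Real.pi * y / 2))) =
      -1 * (Real.sin (Real.pi * x / 2) * Real.cos (Real.pi * y / 2))
    ring

theorem continuous_octS : Continuous fun p : ℝ × ℝ => octS p.1 p.2 := by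
  unfold octS oct
  refine continuous_vec3 ?_ ?_ ?_ <;> fun_prop

theorem norm_octS (x y : ℝ) : ‖octS x y‖ = 1 := norm_oct neg_one_sq' neg_one_sq' neg_one_sq' _ _

theorem cO : Continuous fun p : ℝ × ℝ => oct 1 1 1 p.1 p.2 := continuous_oct 1 1 1
theorem nO : ∀ x y, ‖oct 1 1 1 x y‖ = 1 := norm_oct one_sq' one_sq' one_sq'
theorem cO' : Continuous fun p : ℝ × ℝ => oct (-1) (-1) (-1) p.1 p.2 := continuous_oct _ _ _
theorem nO' : ∀ x y, ‖oct (-1) (-1) (-1) x y‖ = 1 := norm_oct neg_one_sq' neg_one_sq' neg_one_sq'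

theorem Rot_neg_pi (v a : R3) : Rot v (-Real.pi) a = Rot v Real.pi a := by
  rw [← Rot_add_two_pi v (-Real.pi), show -Real.pi + 2 * Real.pi = Real.pi by ring]

/-- the move by the rotations `hr u` -/
theorem h_move : push (iota qpi) (Finsupp.single (DV octS continuous_octS norm_octS) (1 : ℤ)) -
      push (iota qpi) (Finsupp.single (DV (oct 1 1 1) cO nO) 1) ∈ RelZ (offA 4) mq 3 := by
  set c : C(Q, CL 4) := LL (fun x : Q => hr (x 3) (oct 1 1 1 (x 0) (x 1))) (fun x => e1) (fun x => e3)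
    (fun x => 2 * (x 2 : ℝ) - 1) (hr_continuous (cc 3) (cV cO)) continuous_const continuous_const
    ccs (fun x => good_of ((hr_norm _ _).trans (nO _ _)) norm_e1 norm_e3 (abs_two_sub_one (x 2))
      inner_e1_e3) with hcdef
  set P : unitInterval → E 4 := fun u => mk (Rot (hr u v0) Real.pi e1) (Rot (hr u v0) Real.pi e3)
    with hP
  have hw : Continuous fun u : unitInterval => hr (u : ℝ) v0 :=
    hr_continuous continuous_subtype_val continuous_const
  have nw : ∀ u : ℝ, ‖hr u v0‖ = 1 := fun u => (hr_norm u v0).trans norm_v0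
  have key := homotopyP c P
    (cont_mk (cont_rot hw continuous_const continuous_const)
      (cont_rot hw continuous_const continuous_const))
    (fun u => norm_mk ((Rot_norm (nw _) _ _).trans norm_e1) ((Rot_norm (nw _) _ _).trans norm_e3)
      ((Rot_inner (nw _) _ _ _).trans inner_e1_e3)) ?_
  · have p0 : P 0 = qpi := by
      simp only [hP, Set.Icc.coe_zero, hr_zero]
      exact qpi_eq.symm
    have w1 : hr 1 v0 = -v0 := by
      rw [hr_one]
      apply rt_ext3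
      · change -(v0 0) = -(v0 0); rfl
      · change -(v0 2) = -(v0 1); rw [rt_v0_2, rt_v0_1]
      · change -(v0 1) = -(v0 2); rw [rt_v0_2, rt_v0_1]
    have p1 : P 1 = qpi := by
      simp only [hP, Set.Icc.coe_one]
      rw [w1, Rot_neg_axis, Rot_neg_axis, Rot_neg_pi, Rot_neg_pi]
      exact qpi_eq.symm
    have f0 : face 3 0 c = DV (oct 1 1 1) cO nO := cube_ext fun x t => by
      rw [face_apply, DV_pos, hcdef, LL_pos]
      simp only [ins3_lt (show 0 < 3 by norm_num), ins3_lt (show 1 < 3 by norm_num),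
        ins3_lt (show 2 < 3 by norm_num), ins3_3, Set.Icc.coe_zero, hr_zero]
    have f1 : face 3 1 c = DV octS continuous_octS norm_octS := cube_ext fun x t => by
      rw [face_apply, DV_pos, hcdef, LL_pos]
      simp only [ins3_lt (show 0 < 3 by norm_num), ins3_lt (show 1 < 3 by norm_num),
        ins3_lt (show 2 < 3 by norm_num), ins3_3, Set.Icc.coe_one, hr_one_oct]
    rw [p0, p1, f0, f1] at key
    exact key
  · intro j hj e he x t h
    rw [hcdef, LL_pos, ins_3 hj] at h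
    obtain ⟨k1, k2, k3⟩ := hr_v0_ne (x 2)
    obtain ⟨hs, hv⟩ := hit2 ((hr_norm _ _).trans (nO _ _)) (nw _) (abs_two_sub_one _)
      (by rw [hr_inner]; exact inner_v0_pos (nO _ _) (oct_nonneg _ _)) k1 k2 k3 h
    have hv' := hr_inj hv
    rcases face_avoid (bdZero_oct 1 1 1) hj he x with h1 | ⟨i, h1⟩
    · exact h1 hs
    · rw [hv'] at h1
      exact v0_ne_zero i h1

/-! ## reversal for the marking `qpi` -/

theorem HitV.avoid_pi {v : R3} (h : HitV v) {s t : ℝ} (hs : |s| ≤ 1) (ht : t ∈ Set.Icc (0 : ℝ) 1)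
    (hc : s ≠ 0 ∨ ∃ i, v i = 0) : lp v e1 e3 s t ≠ qpi := by
  rw [qpi_eq]
  exact h.avoid hs ht Real.pi_pos (by linarith [Real.pi_pos]) hc

theorem octS_rev : push (iota qpi) (Finsupp.single (DV octS continuous_octS norm_octS) (1 : ℤ)) +
      push (iota qpi) (Finsupp.single (DV (oct (-1) (-1) (-1)) cO' nO') 1) ∈
        RelZ (offA 4) mq 3 := by
  have h := reverseP qpi_norm (i := 1) (by norm_num) (DV (oct (-1) (-1) (-1)) cO' nO') ?_
  · have e : cmp (DV (oct (-1) (-1) (-1)) cO' nO') (upd 1 unitInterval.symm)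
        (continuous_upd 1 unitInterval.continuous_symm) = DV octS continuous_octS norm_octS :=
      cube_ext fun x t => by
        rw [cmp_apply, DV_pos, DV_pos, upd_same, upd_ne zero_ne_one, upd_ne (by norm_num)]
        rfl
    rw [e] at h
    change push (iota qpi) _ ∈ RelZ (offA 4) mq 3 at h
    rw [map_add] at h
    exact h
  · intro j hj _ e he x t
    rw [DV_pos]
    exact (hitV_oct_neg _ _).avoid_pi (abs_two_sub_one _) t.2
      (face_avoid (bdZero_oct _ _ _) hj he x)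

/-! ## the small box -/

theorem VB_0 (x y : ℝ) : VB x y 0 = 1 + (1 / 2 - x) / 25 := rfl
theorem VB_1 (x y : ℝ) : VB x y 1 = 1 - (1 / 2 - x) / 50 - (y - 1 / 2) / 5 := rfl
theorem VB_2 (x y : ℝ) : VB x y 2 = 1 - (1 / 2 - x) / 50 + (y - 1 / 2) / 5 := rfl

/-- the unnormalised axis of the homotopy to the small box -/
noncomputable def Vu (u x y : ℝ) : R3 := (1 - u) • oct 1 1 1 x y + u • VB x y

theorem Vu_apply (u x y : ℝ) (i : Fin 3) : Vu u x y i = (1 - u) * oct 1 1 1 x y i + u * VB x y i := rfl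

theorem VB_pos (x y : unitInterval) (i : Fin 3) : 0 < VB x y i := by
  have hx := x.2
  have hy := y.2
  fin_cases i
  · change 0 < VB x y 0; rw [VB_0]; linarith [hx.1, hx.2]
  · change 0 < VB x y 1; rw [VB_1]; linarith [hx.1, hx.2, hy.1, hy.2]
  · change 0 < VB x y 2; rw [VB_2]; linarith [hx.1, hx.2, hy.1, hy.2]

theorem Vu_nonneg (u x y : unitInterval) (i : Fin 3) : 0 ≤ Vu u x y i := by
  rw [Vu_apply]
  exact add_nonneg (mul_nonneg (by linarith [u.2.2]) (oct_nonneg x y i))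
    (mul_nonneg u.2.1 (VB_pos x y i).le)

theorem Vu_ne (u x y : unitInterval) : Vu u x y ≠ 0 := by
  intro h
  have h0 : ∀ i, Vu u x y i = 0 := fun i => by rw [h]; rfl
  rcases eq_or_lt_of_le u.2.1 with hu | hu
  · -- `u = 0`
    have h1 : Vu u x y = oct 1 1 1 x y := by
      unfold Vu
      rw [← hu]; simp
    rw [h1] at h
    have := nO x y
    rw [h, norm_zero] at this
    norm_num at this
  · have h1 := h0 0
    rw [Vu_apply] at h1
    have h2 : 0 < (u : ℝ) * VB x y 0 := mul_pos hu (VB_pos x y 0)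
    have h3 := mul_nonneg (show 0 ≤ 1 - (u : ℝ) by linarith [u.2.2]) (oct_nonneg x y 0)
    linarith

theorem continuous_oct_Q : Continuous fun x : Q => oct 1 1 1 (x 0) (x 1) := cV cO

theorem continuous_VB : Continuous fun p : ℝ × ℝ => VB p.1 p.2 := by
  unfold VB
  refine continuous_vec3 ?_ ?_ ?_ <;> fun_prop

theorem continuous_Vu : Continuous fun x : Q => Vu (x 3) (x 0) (x 1) := by
  unfold Vu
  have h1 := cV cO
  have h2 := cV continuous_VB
  have h3 := cc 3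
  exact ((continuous_const.sub h3).smul h1).add (h3.smul h2)

/-- the normalised axis -/
noncomputable def vu (u x y : ℝ) : R3 := ‖Vu u x y‖⁻¹ • Vu u x y

theorem continuous_vu : Continuous fun x : Q => vu (x 3) (x 0) (x 1) := by
  unfold vu
  exact (continuous_Vu.norm.inv₀ fun x => norm_ne_zero_iff.2 (Vu_ne _ _ _)).smul continuous_Vu

theorem norm_vu (u x y : unitInterval) : ‖vu u x y‖ = 1 := by
  unfold vu
  rw [norm_smul, norm_inv, norm_norm, inv_mul_cancel₀ (norm_ne_zero_iff.2 (Vu_ne u x y))]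

theorem vu_zero (x y : ℝ) : vu 0 x y = oct 1 1 1 x y := by
  have h1 : Vu 0 x y = oct 1 1 1 x y := by
    unfold Vu; simp
  unfold vu
  rw [h1, nO, inv_one, one_smul]

theorem vu_one (x y : ℝ) : vu 1 x y = vB x y := by
  have h1 : Vu 1 x y = VB x y := by
    unfold Vu; simp
  unfold vu vB
  rw [h1]

theorem vu_nonneg (u x y : unitInterval) (i : Fin 3) : 0 ≤ vu u x y i := by
  change 0 ≤ ‖Vu u x y‖⁻¹ * Vu u x y i
  exact mul_nonneg (inv_nonneg.2 (norm_nonneg _)) (Vu_nonneg u x y i)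

/-- all coordinates of `Vu` are equal if the axis is the diagonal -/
theorem Vu_of_vu {u x y : unitInterval} (h : vu u x y = v0) :
    Vu u x y 0 = Vu u x y 1 ∧ Vu u x y 1 = Vu u x y 2 := by
  have hn : ‖Vu u x y‖⁻¹ ≠ 0 := inv_ne_zero (norm_ne_zero_iff.2 (Vu_ne u x y))
  have k : ∀ i, ‖Vu u x y‖⁻¹ * Vu u x y i = v0 i := fun i => by rw [← h]; rfl
  have k0 := k 0
  have k1 := k 1
  have k2 := k 2
  rw [rt_v0_0] at k0
  rw [rt_v0_1] at k1
  rw [rt_v0_2] at k2
  exact ⟨mul_left_cancel₀ hn (k0.trans k1.symm), mul_left_cancel₀ hn (k1.trans k2.symm)⟩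

theorem oct_0 (x y : ℝ) : oct 1 1 1 x y 0 = Real.cos (Real.pi * x / 2) := by
  change 1 * Real.cos (Real.pi * x / 2) = _; ring
theorem oct_1 (x y : ℝ) : oct 1 1 1 x y 1 = Real.sin (Real.pi * x / 2) * Real.cos (Real.pi * y / 2) := by
  change 1 * (Real.sin (Real.pi * x / 2) * Real.cos (Real.pi * y / 2)) = _; ring
theorem oct_2 (x y : ℝ) : oct 1 1 1 x y 2 = Real.sin (Real.pi * x / 2) * Real.sin (Real.pi * y / 2) := by
  change 1 * (Real.sin (Real.pi * x / 2) * Real.sin (Real.pi * y / 2)) = _; ring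

theorem vu_ne_x0 (u y : unitInterval) : vu u 0 y ≠ v0 := by
  intro h
  obtain ⟨h1, h2⟩ := Vu_of_vu (x := 0) (by simpa using h)
  simp only [Set.Icc.coe_zero] at h1 h2
  rw [Vu_apply, Vu_apply, oct_0, oct_1, VB_0, VB_1] at h1
  rw [Vu_apply, Vu_apply, oct_1, oct_2, VB_1, VB_2] at h2
  simp only [mul_zero, zero_div, Real.cos_zero, Real.sin_zero, zero_mul, zero_add] at h1 h2
  have hu := u.2
  nlinarith [hu.1, hu.2]

theorem vu_ne_x1 (u y : unitInterval) : vu u 1 y ≠ v0 := by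
  intro h
  obtain ⟨h1, h2⟩ := Vu_of_vu (x := 1) (by simpa using h)
  simp only [Set.Icc.coe_one] at h1 h2
  rw [Vu_apply, Vu_apply, oct_0, oct_1, VB_0, VB_1] at h1
  rw [Vu_apply, Vu_apply, oct_1, oct_2, VB_1, VB_2] at h2
  simp only [mul_one, Real.cos_pi_div_two, Real.sin_pi_div_two, one_mul, mul_zero, zero_add] at h1 h2
  have hu := u.2
  have hy := y.2
  have hpi := Real.pi_pos
  have a3 : 0 ≤ Real.cos (Real.pi * y / 2) :=
    Real.cos_nonneg_of_mem_Icc ⟨by nlinarith [hy.1], by nlinarith [hy.2]⟩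
  have a4 : 0 ≤ Real.sin (Real.pi * y / 2) :=
    Real.sin_nonneg_of_nonneg_of_le_pi (by nlinarith [hy.1]) (by nlinarith [hy.2])
  have a5 := Real.sin_sq_add_cos_sq (Real.pi * y / 2)
  have a6 : 1 ≤ Real.cos (Real.pi * y / 2) + Real.sin (Real.pi * y / 2) := by nlinarith
  nlinarith [hu.1, hu.2, mul_nonneg (show (0 : ℝ) ≤ 1 - u by linarith [hu.2])
    (show 0 ≤ Real.cos (Real.pi * y / 2) + Real.sin (Real.pi * y / 2) - 1 by linarith)]

theorem vu_ne_y0 (u x : unitInterval) : vu u x 0 ≠ v0 := by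
  intro h
  obtain ⟨h1, h2⟩ := Vu_of_vu (y := 0) (by simpa using h)
  simp only [Set.Icc.coe_zero] at h1 h2
  rw [Vu_apply, Vu_apply, oct_0, oct_1, VB_0, VB_1] at h1
  rw [Vu_apply, Vu_apply, oct_1, oct_2, VB_1, VB_2] at h2
  simp only [mul_zero, zero_div, Real.cos_zero, Real.sin_zero, mul_one] at h1 h2
  have hu := u.2
  have hx := x.2
  have hpi := Real.pi_pos
  have a4 : 0 ≤ Real.sin (Real.pi * x / 2) :=
    Real.sin_nonneg_of_nonneg_of_le_pi (by nlinarith [hx.1]) (by nlinarith [hx.2])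
  have a5 := mul_nonneg (show (0 : ℝ) ≤ 1 - u by linarith [hu.2]) a4
  have hu0 : (u : ℝ) = 0 := by nlinarith [hu.1]
  rw [hu0] at h1 h2
  simp only [sub_zero, one_mul, zero_mul, add_zero] at h1 h2
  have a6 := Real.sin_sq_add_cos_sq (Real.pi * x / 2)
  rw [h1, h2] at a6
  norm_num at a6

theorem vu_ne_y1 (u x : unitInterval) : vu u x 1 ≠ v0 := by
  intro h
  obtain ⟨h1, h2⟩ := Vu_of_vu (y := 1) (by simpa using h)
  simp only [Set.Icc.coe_one] at h1 h2
  rw [Vu_apply, Vu_apply, oct_0, oct_1, VB_0, VB_1] at h1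
  rw [Vu_apply, Vu_apply, oct_1, oct_2, VB_1, VB_2] at h2
  simp only [mul_one, Real.cos_pi_div_two, Real.sin_pi_div_two, mul_zero] at h1 h2
  have hu := u.2
  have hx := x.2
  have hpi := Real.pi_pos
  have a4 : 0 ≤ Real.sin (Real.pi * x / 2) :=
    Real.sin_nonneg_of_nonneg_of_le_pi (by nlinarith [hx.1]) (by nlinarith [hx.2])
  have a5 := mul_nonneg (show (0 : ℝ) ≤ 1 - u by linarith [hu.2]) a4
  have hu0 : (u : ℝ) = 0 := by nlinarith [hu.1]
  rw [hu0] at h1 h2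
  simp only [sub_zero, one_mul, zero_mul, add_zero] at h1 h2
  have a6 := Real.sin_sq_add_cos_sq (Real.pi * x / 2)
  rw [h1, ← h2] at a6
  norm_num at a6

end Pool.Agent.Helper50.Drop
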