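import Pool.Agent.Helper50.Drop.Oct4

/-!
# The cube of the small box and the eightfold relation
-/

set_option autoImplicit false
set_option linter.unusedSimpArgs false

namespace Pool.Agent.Helper50.Drop

open scoped RealInnerProductSpace
open Finset
open Pool.Agent.Helper76.Freq (Q ins tr sh continuous_ins R3 ver inner3 norm3 IsTop IsBot
  isTop_pt isBot_pt eq_of_isTop_pt eq_of_isBot_pt)

theorem VB_ne (x y : ℝ) : VB x y ≠ 0 := by
  intro h
  have h0 : ∀ i, VB x y i = 0 := fun i => by rw [h]; rfl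
  have k0 := h0 0
  have k1 := h0 1
  have k2 := h0 2
  rw [VB_0] at k0
  rw [VB_1] at k1
  rw [VB_2] at k2
  linarith

theorem norm_vB (x y : ℝ) : ‖vB x y‖ = 1 := by
  unfold vB
  rw [norm_smul, norm_inv, norm_norm, inv_mul_cancel₀ (norm_ne_zero_iff.2 (VB_ne x y))]

theorem continuous_vB : Continuous fun p : ℝ × ℝ => vB p.1 p.2 := by
  unfold vB
  exact (continuous_VB.norm.inv₀ fun x => norm_ne_zero_iff.2 (VB_ne _ _)).smul continuous_VB

theorem abs_sub_half (a : unitInterval) : |(a : ℝ) - 1 / 2| ≤ 1 := by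
  rw [abs_le]
  have h1 := a.2.1
  have h2 := a.2.2
  constructor <;> linarith

/-- the cube of the small box -/
noncomputable def DBc : C(Q, CL 4) :=
  LL (fun x : Q => vB (x 0) (x 1)) (fun _ => e1) (fun _ => e3) (fun x => (x 2 : ℝ) - 1 / 2)
    (cV continuous_vB) continuous_const continuous_const ((cc 2).sub continuous_const)
    fun x => good_of (norm_vB _ _) norm_e1 norm_e3 (abs_sub_half (x 2)) inner_e1_e3

theorem DBc_pos (x : Q) (t : unitInterval) :
    (DBc x).pos t = lp (vB (x 0) (x 1)) e1 e3 ((x 2 : ℝ) - 1 / 2) t := by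
  unfold DBc; rw [LL_pos]

theorem abs_su (a u : unitInterval) : |(2 * (a : ℝ) - 1) * (1 - (u : ℝ) / 2)| ≤ 1 := by
  rw [abs_mul]
  have h1 := abs_two_sub_one a
  have h2 : |1 - (u : ℝ) / 2| ≤ 1 := by
    rw [abs_le]
    have h1 := u.2.1
    have h2 := u.2.2
    constructor <;> linarith
  have h3 := abs_nonneg (2 * (a : ℝ) - 1)
  have h4 := abs_nonneg (1 - (u : ℝ) / 2)
  nlinarith

theorem shrink_move : push (iota qpi) (Finsupp.single DBc (1 : ℤ)) -
      push (iota qpi) (Finsupp.single (DV (oct 1 1 1) cO nO) 1) ∈ RelZ (offA 4) mq 3 := by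
  set c : C(Q, CL 4) := LL (fun x : Q => vu (x 3) (x 0) (x 1)) (fun x => e1) (fun x => e3)
    (fun x => (2 * (x 2 : ℝ) - 1) * (1 - (x 3 : ℝ) / 2)) continuous_vu continuous_const
    continuous_const (ccs.mul (continuous_const.sub ((cc 3).div_const 2)))
    (fun x => good_of (norm_vu _ _ _) norm_e1 norm_e3 (abs_su (x 2) (x 3)) inner_e1_e3) with hcdef
  have key := homotopyP c (fun _ => qpi) continuous_const (fun _ => qpi_norm) ?_
  · have f0 : face 3 0 c = DV (oct 1 1 1) cO nO := cube_ext fun x t => by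
      rw [face_apply, DV_pos, hcdef, LL_pos]
      simp only [ins3_lt (show 0 < 3 by norm_num), ins3_lt (show 1 < 3 by norm_num),
        ins3_lt (show 2 < 3 by norm_num), ins3_3, Set.Icc.coe_zero, vu_zero, zero_div, sub_zero,
        mul_one]
    have f1 : face 3 1 c = DBc := cube_ext fun x t => by
      rw [face_apply, DBc_pos, hcdef, LL_pos]
      simp only [ins3_lt (show 0 < 3 by norm_num), ins3_lt (show 1 < 3 by norm_num),
        ins3_lt (show 2 < 3 by norm_num), ins3_3, Set.Icc.coe_one, vu_one]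
      congr 1
      ring
    rw [f0, f1] at key
    exact key
  · intro j hj e he x t h
    rw [hcdef, LL_pos, ins_3 hj, qpi_eq] at h
    obtain ⟨hs, hv, -⟩ := hit1 (norm_vu _ _ _) (vu_nonneg _ _ _) (abs_su _ _) t.2 Real.pi_pos
      (by linarith [Real.pi_pos]) h
    have hj' : j = 0 ∨ j = 1 ∨ j = 2 := by omega
    rcases hj' with rfl | rfl | rfl
    · rw [ins0, if_pos rfl] at hv
      rcases he with rfl | rfl
      · exact vu_ne_x0 _ _ hv
      · exact vu_ne_x1 _ _ hv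
    · rw [ins1, if_neg one_ne_zero, if_pos rfl] at hv
      rcases he with rfl | rfl
      · exact vu_ne_y0 _ _ hv
      · exact vu_ne_y1 _ _ hv
    · rw [ins2, if_neg two_ne_zero, if_neg (by norm_num), if_pos rfl] at hs
      have hu : 1 - ((x 2 : unitInterval) : ℝ) / 2 ≠ 0 := by
        have := (x 2).2.2
        intro h0
        linarith
      rcases mul_eq_zero.1 hs with h1 | h1
      · exact two_mul_sub_ne he h1
      · exact hu h1

/-! ## the rotation moves between octants -/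

theorem Rot_e1_pi (v : R3) : Rot e1 Real.pi v = !₂[v 0, -(v 1), -(v 2)] := by
  have h : ⟪e1, v⟫ = v 0 := by rw [real_inner_comm, rt_inner_e1]
  apply rt_ext3
  · rw [Rot_pi, h, rt_e1_0]; change _ = v 0; ring
  · rw [Rot_pi, h, rt_e1_1]; change _ = -(v 1); ring
  · rw [Rot_pi, h, rt_e1_2]; change _ = -(v 2); ring

theorem Rot_e2_pi (v : R3) : Rot e2 Real.pi v = !₂[-(v 0), v 1, -(v 2)] := by
  have h : ⟪e2, v⟫ = v 1 := by rw [real_inner_comm, rt_inner_e2]
  apply rt_ext3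
  · rw [Rot_pi, h, rt_e2_0]; change _ = -(v 0); ring
  · rw [Rot_pi, h, rt_e2_1]; change _ = v 1; ring
  · rw [Rot_pi, h, rt_e2_2]; change _ = -(v 2); ring

theorem Rot_e3_pi (v : R3) : Rot e3 Real.pi v = !₂[-(v 0), -(v 1), v 2] := by
  have h : ⟪e3, v⟫ = v 2 := by rw [real_inner_comm, rt_inner_e3]
  apply rt_ext3
  · rw [Rot_pi, h, rt_e3_0]; change _ = -(v 0); ring
  · rw [Rot_pi, h, rt_e3_1]; change _ = -(v 1); ring
  · rw [Rot_pi, h, rt_e3_2]; change _ = v 2; ring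

theorem Rot_e1_oct (a b c x y : ℝ) : Rot e1 Real.pi (oct a b c x y) = oct a (-b) (-c) x y := by
  rw [Rot_e1_pi]
  apply rt_ext3
  · rfl
  · change -(b * _) = -b * _; ring
  · change -(c * _) = -c * _; ring

theorem Rot_e2_oct (a b c x y : ℝ) : Rot e2 Real.pi (oct a b c x y) = oct (-a) b (-c) x y := by
  rw [Rot_e2_pi]
  apply rt_ext3
  · change -(a * _) = -a * _; ring
  · rfl
  · change -(c * _) = -c * _; ring

theorem Rot_e3_oct (a b c x y : ℝ) : Rot e3 Real.pi (oct a b c x y) = oct (-a) (-b) c x y := by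
  rw [Rot_e3_pi]
  apply rt_ext3
  · change -(a * _) = -a * _; ring
  · change -(b * _) = -b * _; ring
  · rfl

theorem Rot_e1_basis : Rot e1 Real.pi e1 = e1 ∧ Rot e1 Real.pi e2 = -e2 ∧
    Rot e1 Real.pi e3 = -e3 := by
  refine ⟨?_, ?_, ?_⟩ <;> rw [Rot_e1_pi] <;> apply rt_ext3 <;> simp [e1, e2, e3]

theorem Rot_e2_basis : Rot e2 Real.pi e1 = -e1 ∧ Rot e2 Real.pi e2 = e2 ∧
    Rot e2 Real.pi e3 = -e3 := by
  refine ⟨?_, ?_, ?_⟩ <;> rw [Rot_e2_pi] <;> apply rt_ext3 <;> simp [e1, e2, e3]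

theorem Rot_e3_basis : Rot e3 Real.pi e1 = -e1 ∧ Rot e3 Real.pi e2 = -e2 ∧
    Rot e3 Real.pi e3 = e3 := by
  refine ⟨?_, ?_, ?_⟩ <;> rw [Rot_e3_pi] <;> apply rt_ext3 <;> simp [e1, e2, e3]

theorem move_e1 {a b c b' c' : ℝ} (ha : a ^ 2 = 1) (hb : b ^ 2 = 1) (hc : c ^ 2 = 1)
    (hb' : b' ^ 2 = 1) (hc' : c' ^ 2 = 1) (h1 : b' = -b) (h2 : c' = -c) :
    Finsupp.single (DO a b' c' ha hb' hc') (1 : ℤ) - Finsupp.single (DO a b c ha hb hc) 1
      ∈ RelP p23 :=
  rot_move (oct a b c) (oct a b' c') (continuous_oct _ _ _) (continuous_oct _ _ _)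
    (norm_oct ha hb hc) (norm_oct ha hb' hc') (bdZero_oct _ _ _) norm_e1 (Or.inl Rot_e1_basis.1)
    (Or.inr Rot_e1_basis.2.1) (Or.inr Rot_e1_basis.2.2)
    fun x y => by rw [Rot_e1_oct, h1, h2]

theorem move_e2 {a b c a' c' : ℝ} (ha : a ^ 2 = 1) (hb : b ^ 2 = 1) (hc : c ^ 2 = 1)
    (ha' : a' ^ 2 = 1) (hc' : c' ^ 2 = 1) (h1 : a' = -a) (h2 : c' = -c) :
    Finsupp.single (DO a' b c' ha' hb hc') (1 : ℤ) - Finsupp.single (DO a b c ha hb hc) 1
      ∈ RelP p23 :=
  rot_move (oct a b c) (oct a' b c') (continuous_oct _ _ _) (continuous_oct _ _ _)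
    (norm_oct ha hb hc) (norm_oct ha' hb hc') (bdZero_oct _ _ _) norm_e2 (Or.inr Rot_e2_basis.1)
    (Or.inl Rot_e2_basis.2.1) (Or.inr Rot_e2_basis.2.2)
    fun x y => by rw [Rot_e2_oct, h1, h2]

theorem move_e3 {a b c a' b' : ℝ} (ha : a ^ 2 = 1) (hb : b ^ 2 = 1) (hc : c ^ 2 = 1)
    (ha' : a' ^ 2 = 1) (hb' : b' ^ 2 = 1) (h1 : a' = -a) (h2 : b' = -b) :
    Finsupp.single (DO a' b' c ha' hb' hc) (1 : ℤ) - Finsupp.single (DO a b c ha hb hc) 1
      ∈ RelP p23 :=
  rot_move (oct a b c) (oct a' b' c) (continuous_oct _ _ _) (continuous_oct _ _ _)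
    (norm_oct ha hb hc) (norm_oct ha' hb' hc) (bdZero_oct _ _ _) norm_e3 (Or.inr Rot_e3_basis.1)
    (Or.inr Rot_e3_basis.2.1) (Or.inl Rot_e3_basis.2.2)
    fun x y => by rw [Rot_e3_oct, h1, h2]

/-- **the eightfold relation** -/
theorem eight : push (iota p23) (Finsupp.single D1c (1 : ℤ)) -
    (8 : ℤ) • push (iota qpi) (Finsupp.single DBc 1) ∈ RelZ (offA 4) mq 3 := by
  have h := oct8
  have m1 := move_e1 (a := 1) (b := 1) (c := 1) (b' := -1) (c' := -1) one_sq' one_sq' one_sq'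
    neg_one_sq' neg_one_sq' rfl rfl
  have m2 := move_e2 (a := 1) (b := 1) (c := 1) (a' := -1) (c' := -1) one_sq' one_sq' one_sq'
    neg_one_sq' neg_one_sq' rfl rfl
  have m3 := move_e3 (a := 1) (b := 1) (c := 1) (a' := -1) (b' := -1) one_sq' one_sq' one_sq'
    neg_one_sq' neg_one_sq' rfl rfl
  have n1 := move_e1 (a := -1) (b := -1) (c := -1) (b' := 1) (c' := 1) neg_one_sq' neg_one_sq'
    neg_one_sq' one_sq' one_sq' (by norm_num) (by norm_num)
  have n2 := move_e2 (a := -1) (b := -1) (c := -1) (a' := 1) (c' := 1) neg_one_sq' neg_one_sq'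
    neg_one_sq' one_sq' one_sq' (by norm_num) (by norm_num)
  have n3 := move_e3 (a := -1) (b := -1) (c := -1) (a' := 1) (b' := 1) neg_one_sq' neg_one_sq'
    neg_one_sq' one_sq' one_sq' (by norm_num) (by norm_num)
  have tot : Finsupp.single D1c (1 : ℤ) -
      ((4 : ℤ) • Finsupp.single (DO 1 1 1 one_sq' one_sq' one_sq') 1 -
       (4 : ℤ) • Finsupp.single (DO (-1) (-1) (-1) neg_one_sq' neg_one_sq' neg_one_sq') 1) ∈
      RelP p23 := by
    have := Submodule.add_mem _ (Submodule.add_mem _ (Submodule.add_mem _ (Submodule.sub_mem _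
      (Submodule.sub_mem _ (Submodule.sub_mem _ h n1) n2) n3) m1) m2) m3
    convert this using 1
    rw [show (4 : ℤ) = 1 + 1 + 1 + 1 by norm_num]
    simp only [add_smul, one_smul]
    abel
  have a1 := alpha_move (oct 1 1 1) cO nO (bdZero_oct _ _ _) hitV_oct
  have a2 := alpha_move (oct (-1) (-1) (-1)) cO' nO' (bdZero_oct _ _ _) hitV_oct_neg
  have a3 := h_move
  have a4 := octS_rev
  have a5 := shrink_move
  change push (iota p23) _ ∈ RelZ (offA 4) mq 3 at tot
  rw [map_sub, map_sub, map_smul, map_smul] at tot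
  change _ - ((4 : ℤ) • push (iota p23) (Finsupp.single (DV (oct 1 1 1) cO nO) 1) -
    (4 : ℤ) • push (iota p23) (Finsupp.single (DV (oct (-1) (-1) (-1)) cO' nO') 1)) ∈ _ at tot
  generalize push (iota p23) (Finsupp.single (DV (oct 1 1 1) cO nO) (1 : ℤ)) = A at *
  generalize push (iota p23) (Finsupp.single (DV (oct (-1) (-1) (-1)) cO' nO') (1 : ℤ)) = B at *
  generalize push (iota qpi) (Finsupp.single (DV (oct 1 1 1) cO nO) (1 : ℤ)) = A' at *
  generalize push (iota qpi) (Finsupp.single (DV (oct (-1) (-1) (-1)) cO' nO') (1 : ℤ)) = B' at *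
  generalize push (iota qpi) (Finsupp.single (DV octS continuous_octS norm_octS) (1 : ℤ)) = S at *
  generalize push (iota qpi) (Finsupp.single DBc (1 : ℤ)) = X at *
  generalize push (iota p23) (Finsupp.single D1c (1 : ℤ)) = D at *
  -- D - 8 X = (D - (4A - 4B)) - 4 (A' - A) + 4 (B' - B) ... 
  have fin : D - (8 : ℤ) • X = (D - ((4 : ℤ) • A - (4 : ℤ) • B)) - (4 : ℤ) • (A' - A) +
      (4 : ℤ) • (B' - B) - (4 : ℤ) • (S + B') + (4 : ℤ) • (S - A') - (8 : ℤ) • (X - A') := by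
    rw [show (8 : ℤ) = 4 + 4 by norm_num]
    simp only [add_smul, smul_sub, smul_add]
    abel
  rw [fin]
  exact Submodule.sub_mem _ (Submodule.add_mem _ (Submodule.sub_mem _ (Submodule.add_mem _
    (Submodule.sub_mem _ tot (Submodule.smul_mem _ _ a1)) (Submodule.smul_mem _ _ a2))
    (Submodule.smul_mem _ _ a4)) (Submodule.smul_mem _ _ a3)) (Submodule.smul_mem _ _ a5)

end Pool.Agent.Helper50.Drop
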