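import Pool.Agent.Helper50.Drop.Cub

/-!
# Relative cubical homology of a pair, and contractions of the subspace
-/

set_option autoImplicit false

namespace Pool.Agent.Helper50.Drop

open Finset
open Pool.Agent.Helper76.Freq (Q ins tr sh continuous_ins continuous_tr continuous_sh)

section

variable {W Y T : Type*} [TopologicalSpace W] [TopologicalSpace Y]

/-- null-homologous chains of dimension `d` -/
noncomputable def HZ (d : ℕ) : Submodule ℤ (QC Y) := LinearMap.range (bd (d + 1)) ⊔ nul d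

/-- the cubes in `A` for which the marking `q` is degenerate -/
def inA (A : Set W) (q : W → T) (d : ℕ) : Submodule ℤ (QC W) :=
  Finsupp.supported ℤ ℤ {c | (∀ x, c x ∈ A) ∧ IsDeg d (fun x => q (c x))}

/-- relatively null-homologous chains of dimension `d` -/
noncomputable def RelZ (A : Set W) (q : W → T) (d : ℕ) : Submodule ℤ (QC W) :=
  LinearMap.range (bd (d + 1)) ⊔ (inA A q d ⊔ nul d)

/-- the cubes in `A` -/
def inA' (A : Set W) : Submodule ℤ (QC W) := Finsupp.supported ℤ ℤ {c | ∀ x, c x ∈ A}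

theorem inA_le (A : Set W) (q : W → T) (d : ℕ) : inA A q d ≤ inA' A :=
  Finsupp.supported_mono fun _ h => h.1

theorem bd_inA' {A : Set W} {d : ℕ} {z : QC W} (hz : z ∈ inA' A) : bd d z ∈ inA' A := by
  refine supported_le (bd d) {c | ∀ x, c x ∈ A} (inA' A) ?_ hz
  intro c hc
  rw [bd_single]
  refine Submodule.sum_mem _ fun i _ => Submodule.smul_mem _ _ (Submodule.sub_mem _ ?_ ?_)
  · exact single_mem (show face i 1 c ∈ {c : C(Q, W) | ∀ x, c x ∈ A} from fun x => hc _) 1
  · exact single_mem (show face i 0 c ∈ {c : C(Q, W) | ∀ x, c x ∈ A} from fun x => hc _) 1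

variable {A : Set W} (κ : C(A × unitInterval, Y))

/-- the cube `κ (c, h)`, the last coordinate is the homotopy parameter -/
def Kcube (d : ℕ) (c : C(Q, W)) (h : ∀ x, c x ∈ A) : C(Q, Y) :=
  ⟨fun x => κ (⟨c (tr d x), h _⟩, x d), by
    refine κ.continuous.comp (Continuous.prodMk ?_ (continuous_apply d))
    exact (c.continuous.comp (continuous_tr d)).subtype_mk _⟩

open Classical in
/-- the chain `κ (c, h)` -/
noncomputable def Kop (d : ℕ) : QC W →ₗ[ℤ] QC Y :=
  Finsupp.linearCombination ℤ (fun c : C(Q, W) =>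
    if h : ∀ x, c x ∈ A then Finsupp.single (Kcube κ d c h) (1 : ℤ) else 0)

theorem Kop_single (d : ℕ) (c : C(Q, W)) (h : ∀ x, c x ∈ A) :
    Kop κ d (Finsupp.single c 1) = Finsupp.single (Kcube κ d c h) 1 := by
  unfold Kop
  rw [Finsupp.linearCombination_single, one_smul, dif_pos h]

theorem Kop_single' (d : ℕ) (c : C(Q, W)) (h : ¬ ∀ x, c x ∈ A) :
    Kop κ d (Finsupp.single c 1) = 0 := by
  unfold Kop
  rw [Finsupp.linearCombination_single, one_smul, dif_neg h]

/-- linear maps agreeing on cubes in `A` agree on chains in `A` -/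
theorem lin_eq_on {M : Type*} [AddCommGroup M] [Module ℤ M] {f g : QC W →ₗ[ℤ] M} {S : Set C(Q, W)}
    (h : ∀ c ∈ S, f (Finsupp.single c 1) = g (Finsupp.single c 1)) {z : QC W}
    (hz : z ∈ Finsupp.supported ℤ ℤ S) : f z = g z := by
  have := supported_le (f - g) S ⊥ (fun c hc => by
    rw [Submodule.mem_bot, LinearMap.sub_apply, h c hc, sub_self]) hz
  rw [Submodule.mem_comap, Submodule.mem_bot, LinearMap.sub_apply] at this
  exact sub_eq_zero.1 this

theorem Kop_trunc {d : ℕ} {z : QC W} (hz : z ∈ inA' A) : Kop κ d (trunc d z) = Kop κ d z := by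
  refine lin_eq_on (f := (Kop κ d).comp (trunc d)) (g := Kop κ d) (S := {c | ∀ x, c x ∈ A})
    (fun c hc => ?_) hz
  rw [LinearMap.comp_apply, trunc_single, Kop_single κ d c hc,
    Kop_single κ d (trC d c) (fun x => hc _)]
  congr 1
  ext x
  change κ (⟨c (tr d (tr d x)), _⟩, x d) = κ (⟨c (tr d x), _⟩, x d)
  simp only [tr_tr]

theorem Kop_deg {d : ℕ} {z : QC W} (hz : z ∈ deg (Y := W) d) :
    Kop κ d z ∈ deg (Y := Y) (d + 1) := by
  refine supported_le (Kop κ d) {c | IsDeg d c} (deg (d + 1)) ?_ hz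
  rintro c ⟨k, hk, hc⟩
  by_cases h : ∀ x, c x ∈ A
  · rw [Kop_single κ d c h]
    refine single_mem (S := {c | IsDeg (d + 1) c}) ⟨k, by omega, fun x x' hx => ?_⟩ 1
    change κ (⟨c (tr d x), _⟩, x d) = κ (⟨c (tr d x'), _⟩, x' d)
    have h1 : c (tr d x) = c (tr d x') := hc _ _ fun j hj => by
      unfold tr
      rw [hx j hj]
    simp only [h1, hx d (by omega)]
  · rw [Kop_single' κ d c h]
    exact Submodule.zero_mem _

theorem Kop_nul {d : ℕ} {z : QC W} (hz : z ∈ nul (Y := W) d) (hA : z ∈ inA' A) :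
    Kop κ d z ∈ nul (Y := Y) (d + 1) := by
  rw [← Kop_trunc κ hA]
  exact deg_le_nul _ (Kop_deg κ hz)

/-- the end of the contraction -/
noncomputable def Kend : QC W →ₗ[ℤ] QC Y := by
  classical
  exact Finsupp.linearCombination ℤ (fun c : C(Q, W) =>
    if h : ∀ x, c x ∈ A then Finsupp.single
      (⟨fun x => κ (⟨c x, h _⟩, 1), κ.continuous.comp
        ((c.continuous.subtype_mk _).prodMk continuous_const)⟩ : C(Q, Y)) (1 : ℤ) else 0)

theorem Kend_single (c : C(Q, W)) (h : ∀ x, c x ∈ A) :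
    Kend κ (Finsupp.single c 1) = Finsupp.single
      (⟨fun x => κ (⟨c x, h _⟩, 1), κ.continuous.comp
        ((c.continuous.subtype_mk _).prodMk continuous_const)⟩ : C(Q, Y)) 1 := by
  unfold Kend
  rw [Finsupp.linearCombination_single, one_smul, dif_pos h]

theorem bd_Kop {pr : C(W, Y)} (hκ : ∀ a : A, κ (a, 0) = pr a) {d : ℕ} {z : QC W}
    (hz : z ∈ inA' A) : bd (d + 1) (Kop κ d z) =
      Kop κ (d - 1) (bd d z) + (-1 : ℤ) ^ d • (trunc d (Kend κ z) - trunc d (push pr z)) := by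
  refine lin_eq_on (f := (bd (d + 1)).comp (Kop κ d))
    (g := (Kop κ (d - 1)).comp (bd d) +
      (-1 : ℤ) ^ d • ((trunc d).comp (Kend κ) - (trunc d).comp (push pr)))
    (S := {c | ∀ x, c x ∈ A}) (fun c hc => ?_) hz
  simp only [LinearMap.comp_apply, LinearMap.add_apply, LinearMap.smul_apply, LinearMap.sub_apply]
  rw [Kop_single κ d c hc, bd_single, bd_single, sum_range_succ, map_sum, Kend_single κ c hc,
    push_single, trunc_single, trunc_single]
  congr 1
  · refine sum_congr rfl fun i hi => ?_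
    have hi := mem_range.1 hi
    rw [map_smul, map_sub, Kop_single κ (d - 1) (face i 1 c) (fun x => hc _),
      Kop_single κ (d - 1) (face i 0 c) (fun x => hc _)]
    have key : ∀ e, face i e (Kcube κ d c hc) = Kcube κ (d - 1) (face i e c) (fun x => hc _) := by
      intro e
      ext x
      change κ (⟨c (tr d (ins i e x)), _⟩, ins i e x d) = κ (⟨c (ins i e (tr (d - 1) x)), _⟩, x (d - 1))
      have h1 : ins i e x d = x (d - 1) := by
        unfold ins
        rw [if_neg (by omega), if_neg (by omega)]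
      simp only [tr_ins hi, h1]
    rw [key, key]
  · congr 1
    have h0 : ∀ e x, tr d (ins d e x) = tr d x := by
      intro e x
      funext j
      unfold tr ins
      split_ifs <;> rfl
    have h1 : ∀ (e : unitInterval) (x : Q), ins d e x d = e := by
      intro e x
      unfold ins
      simp
    congr 1
    · congr 1
      ext x
      change κ (⟨c (tr d (ins d 1 x)), _⟩, ins d 1 x d) = κ (⟨c (tr d x), _⟩, 1)
      simp only [h0, h1]
    · congr 1
      ext x
      change κ (⟨c (tr d (ins d 0 x)), _⟩, ins d 0 x d) = pr (c (tr d x))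
      simp only [h0, h1]
      exact hκ _

theorem Kend_mem {q : W → T} (hq : ∀ a b : A, q a = q b → κ (a, 1) = κ (b, 1)) {d : ℕ} {z : QC W}
    (hz : z ∈ inA A q d) : Kend κ z ∈ deg (Y := Y) d := by
  refine supported_le (Kend κ) {c | (∀ x, c x ∈ A) ∧ IsDeg d (fun x => q (c x))} (deg d) ?_ hz
  rintro c ⟨hc, k, hk, hck⟩
  rw [Kend_single κ c hc]
  exact single_mem (S := {c | IsDeg d c}) ⟨k, hk, fun x x' hx => hq _ _ (hck x x' hx)⟩ 1

/-- in dimension `d`, `bd (K z) = K (bd z) ± z` modulo negligible chains -/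
theorem bd_Kop' {pr : C(W, Y)} (hκ : ∀ a : A, κ (a, 0) = pr a) {q : W → T}
    (hq : ∀ a b : A, q a = q b → κ (a, 1) = κ (b, 1)) {d : ℕ} {z : QC W}
    (hz : z ∈ inA A q d) : bd (d + 1) (Kop κ d z) - Kop κ (d - 1) (bd d z)
      + (-1 : ℤ) ^ d • push pr z ∈ nul (Y := Y) d := by
  rw [bd_Kop κ hκ (inA_le A q d hz)]
  have h1 : Kop κ (d - 1) (bd d z) + (-1 : ℤ) ^ d • (trunc d (Kend κ z) - trunc d (push pr z)) -
      Kop κ (d - 1) (bd d z) + (-1 : ℤ) ^ d • push pr z =
      (-1 : ℤ) ^ d • (trunc d (Kend κ z) - (trunc d (push pr z) - push pr z)) := by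
    rw [smul_sub, smul_sub, smul_sub]; abel
  rw [h1]
  exact Submodule.smul_mem _ _ (Submodule.sub_mem _
    (deg_le_nul _ (trunc_deg (Kend_mem κ hq hz))) (trunc_sub_mem_nul _ _))

/-- **Theorem X** : the contraction transports relations of the pair to `Y` -/
theorem relX {pr : C(W, Y)} (hκ : ∀ a : A, κ (a, 0) = pr a) {q : W → T}
    (hq : ∀ a b : A, q a = q b → κ (a, 1) = κ (b, 1)) {a : QC W} (ha : a ∈ RelZ A q 3)
    (hb : bd 3 a ∈ inA' A) : push pr a + Kop κ 2 (bd 3 a) ∈ HZ (Y := Y) 3 := by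
  unfold RelZ at ha
  rw [Submodule.mem_sup] at ha
  obtain ⟨w', hw', r, hr, e1⟩ := ha
  rw [Submodule.mem_sup] at hr
  obtain ⟨ρ, hρ, ν, hν, e2⟩ := hr
  rw [LinearMap.mem_range] at hw'
  obtain ⟨w, hw⟩ := hw'
  have hw2 : bd 3 w' = 0 := by rw [← hw]; exact bd_bd 3 w
  have h1 : bd 3 a = bd 3 ρ + bd 3 ν := by
    rw [← e1, map_add, hw2, zero_add, ← e2, map_add]
  have h2 : bd 3 ν ∈ inA' A := by
    have : bd 3 ν = bd 3 a - bd 3 ρ := by rw [h1]; abel
    rw [this]
    exact Submodule.sub_mem _ hb (bd_inA' (inA_le A q 3 hρ))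
  have h3' : bd 3 ν ∈ nul (Y := W) 2 := bd_nul (d := 3) hν
  have h3 : Kop κ 2 (bd 3 ν) ∈ nul (Y := Y) 3 := Kop_nul κ (d := 2) h3' h2
  have h4 : bd 4 (Kop κ 3 ρ) - Kop κ 2 (bd 3 ρ) - push pr ρ ∈ nul (Y := Y) 3 := by
    have := bd_Kop' κ hκ hq (d := 3) hρ
    have e3 : (-1 : ℤ) ^ 3 • push pr ρ = - push pr ρ := by
      rw [show (-1 : ℤ) ^ 3 = -1 by norm_num, neg_one_smul]
    rw [e3, ← sub_eq_add_neg] at this
    exact this
  have h5 : push pr a + Kop κ 2 (bd 3 a) = (push pr w' + bd 4 (Kop κ 3 ρ)) +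
      (push pr ν + Kop κ 2 (bd 3 ν) -
        (bd 4 (Kop κ 3 ρ) - Kop κ 2 (bd 3 ρ) - push pr ρ)) := by
    rw [h1, ← e1, ← e2, map_add, map_add, map_add]
    abel
  have h6 : push pr w' + bd 4 (Kop κ 3 ρ) ∈ LinearMap.range (bd (Y := Y) (3 + 1)) := by
    refine Submodule.add_mem _ ?_ (LinearMap.mem_range_self _ _)
    rw [← hw, ← bd_push]
    exact LinearMap.mem_range_self _ _
  rw [h5]
  exact Submodule.add_mem_sup h6 (Submodule.sub_mem _
    (Submodule.add_mem _ (push_nul pr hν) h3) h4)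

/-- the closed chain defined by a chain with boundary in `A` is a cycle -/
theorem bd_X {pr : C(W, Y)} (hκ : ∀ a : A, κ (a, 0) = pr a) {q : W → T}
    (hq : ∀ a b : A, q a = q b → κ (a, 1) = κ (b, 1)) {a : QC W}
    (hb : bd 3 a ∈ inA A q 2) : bd 3 (push pr a + Kop κ 2 (bd 3 a)) ∈ nul (Y := Y) 2 := by
  have h4 : bd 3 (Kop κ 2 (bd 3 a)) - Kop κ 1 (bd 2 (bd 3 a)) + push pr (bd 3 a) ∈
      nul (Y := Y) 2 := by
    have := bd_Kop' κ hκ hq (d := 2) hb
    have e3 : (-1 : ℤ) ^ 2 • push pr (bd 3 a) = push pr (bd 3 a) := by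
      rw [show (-1 : ℤ) ^ 2 = 1 by norm_num, one_smul]
    rw [e3] at this
    exact this
  have h1 : bd 2 (bd 3 a) = 0 := bd_bd 2 a
  rw [h1, map_zero, sub_zero] at h4
  rw [map_add, bd_push, add_comm]
  exact h4

/-- comparison of a cycle `pr (a + c)`, `c` in `A`, with the closed chain defined by `a` -/
theorem relZ_compare {pr : C(W, Y)} (hκ : ∀ a : A, κ (a, 0) = pr a) {q : W → T}
    (hq : ∀ a b : A, q a = q b → κ (a, 1) = κ (b, 1)) {a c : QC W} (hc : c ∈ inA A q 3)
    (hb : bd 3 a ∈ inA' A) (hz : bd 3 (a + c) ∈ nul (Y := W) 2) :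
    push pr (a + c) - (push pr a + Kop κ 2 (bd 3 a)) ∈ HZ (Y := Y) 3 := by
  have h1 : bd 3 (a + c) ∈ inA' A := by
    rw [map_add]
    exact Submodule.add_mem _ hb (bd_inA' (inA_le A q 3 hc))
  have h2 : Kop κ 2 (bd 3 (a + c)) ∈ nul (Y := Y) 3 := Kop_nul κ (d := 2) hz h1
  have h3 : c ∈ RelZ A q 3 := by
    exact Submodule.mem_sup_right (Submodule.mem_sup_left hc)
  have h4 := relX κ hκ hq h3 (bd_inA' (inA_le A q 3 hc))
  have e : push pr (a + c) - (push pr a + Kop κ 2 (bd 3 a)) =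
      (push pr c + Kop κ 2 (bd 3 c)) - Kop κ 2 (bd 3 (a + c)) := by
    rw [map_add, map_add, map_add]; abel
  rw [e]
  exact Submodule.sub_mem _ h4 (Submodule.mem_sup_right h2)

end

end Pool.Agent.Helper50.Drop
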