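import Pool.Agent.Helper50.Drop.CoDefs

/-!
# Rotations and the level loops
-/

set_option autoImplicit false

namespace Pool.Agent.Helper50.Drop

open scoped RealInnerProductSpace
open Pool.Agent.Helper76.Freq (R3)

/-- cross product -/
noncomputable def crs (a b : R3) : R3 :=
  !₂[a 1 * b 2 - a 2 * b 1, a 2 * b 0 - a 0 * b 2, a 0 * b 1 - a 1 * b 0]

/-- rotation about `v` with angle `α` -/
noncomputable def Rot (v : R3) (α : ℝ) (a : R3) : R3 :=
  Real.cos α • a + ((1 - Real.cos α) * ⟪v, a⟫) • v + Real.sin α • crs v a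

noncomputable def e1 : R3 := !₂[1, 0, 0]
noncomputable def e2 : R3 := !₂[0, 1, 0]
noncomputable def e3 : R3 := !₂[0, 0, 1]

/-- the diagonal direction -/
noncomputable def v0 : R3 := (√3)⁻¹ • !₂[1, 1, 1]

/-- the points of the level `0` -/
noncomputable def mk (a b : R3) : E 4 := (√3)⁻¹ • (ver5 a - ver5 b)

/-- the points of the level loops -/
noncomputable def lp (v a b : R3) (s t : ℝ) : E 4 :=
  ((1 + s) / √(3 + s ^ 2)) • ver5 (Rot v (2 * Real.pi * t) a) -
    ((1 - s) / √(3 + s ^ 2)) • ver5 (Rot v (2 * Real.pi * t) b)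

/-- direction of the axis in the small box -/
noncomputable def VB (x y : ℝ) : R3 :=
  !₂[1 + (1 / 2 - x) / 25, 1 - (1 / 2 - x) / 50 - (y - 1 / 2) / 5,
    1 - (1 / 2 - x) / 50 + (y - 1 / 2) / 5]

noncomputable def vB (x y : ℝ) : R3 := ‖VB x y‖⁻¹ • VB x y

end Pool.Agent.Helper50.Drop
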