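import Pool.Agent.Helper50.Drop.Oct5
import Pool.Agent.Helper76.Freq.Chain

/-!
# Transfer to the homology of the loop space
-/

set_option autoImplicit false
set_option linter.unusedSimpArgs false

namespace Pool.Agent.Helper50.Drop

open scoped RealInnerProductSpace
open Finset
open Pool.Agent.Helper76.Freq (R3)
open Pool.Agent.Helper76.Freq (Q ins tr sh continuous_ins continuous_tr ext continuous_ext
  ext_insertNth)

section

variable {Y : Type*} [TopologicalSpace Y] {X : Type*} [TopologicalSpace X]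

/-- restriction to `d`-dimensional cubes, followed by a map -/
noncomputable def res (f : C(Y, X)) (d : ℕ) : QC Y →ₗ[ℤ] (Cube X d →₀ ℤ) :=
  Finsupp.lmapDomain ℤ ℤ (fun (c : C(Q, Y)) (s : Fin d → unitInterval) => f (c (ext d s)))

theorem res_single (f : C(Y, X)) (d : ℕ) (c : C(Q, Y)) (r : ℤ) :
    res f d (Finsupp.single c r) = Finsupp.single (fun s => f (c (ext d s))) r := by
  simp [res, Finsupp.lmapDomain_apply]

theorem bdry_single (d : ℕ) (c : Cube X (d + 1)) : bdry X d (Finsupp.single c 1) =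
    ∑ i : Fin (d + 1), (-1 : ℤ) ^ (i : ℕ) •
      (Finsupp.single (fun s => c (Fin.insertNth i 1 s)) (1 : ℤ) -
      Finsupp.single (fun s => c (Fin.insertNth i 0 s)) (1 : ℤ)) := by
  unfold bdry
  rw [Finsupp.linearCombination_single, one_smul]

theorem bdry_res (f : C(Y, X)) (d : ℕ) (z : QC Y) :
    bdry X d (res f (d + 1) z) = res f d (bd (d + 1) z) := by
  have : (bdry X d).comp (res f (d + 1)) = (res f d).comp (bd (d + 1)) := by
    refine lin_ext fun c => ?_
    rw [LinearMap.comp_apply, LinearMap.comp_apply, res_single, bdry_single, bd_single, map_sum,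
      Finset.sum_range]
    refine sum_congr rfl fun i _ => ?_
    rw [map_smul, map_sub, res_single, res_single]
    congr 1
    have h2 : ∀ e : unitInterval, (fun s : Fin d → unitInterval =>
        f (c (ext (d + 1) (Fin.insertNth (α := fun _ => unitInterval) i e s)))) =
        fun s => f ((face i e c) (ext d s)) := by
      intro e
      funext s
      rw [ext_insertNth]
      rfl
    rw [← h2, ← h2]
  exact LinearMap.congr_fun this z

theorem res_mem_chains (f : C(Y, X)) (d : ℕ) (S : Set X) {z : QC Y}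
    (hz : z ∈ Finsupp.supported ℤ ℤ {c : C(Q, Y) | ∀ x, f (c x) ∈ S}) : res f d z ∈ chains X S d := by
  refine supported_le (res f d) {c | ∀ x, f (c x) ∈ S} (chains X S d) (fun c hc => ?_) hz
  rw [res_single]
  exact Finsupp.single_mem_supported ℤ _
    ⟨f.continuous.comp (c.continuous.comp (continuous_ext d)), fun s => hc _⟩

theorem res_mem_degen (f : C(Y, X)) (d : ℕ) (S : Set X) {z : QC Y}
    (hz : z ∈ Finsupp.supported ℤ ℤ {c : C(Q, Y) | ∀ x, f (c x) ∈ S}) (hz' : z ∈ deg (Y := Y) d) :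
    res f d z ∈ degen X S d := by
  have h : z ∈ Finsupp.supported ℤ ℤ ({c : C(Q, Y) | ∀ x, f (c x) ∈ S} ∩ {c | IsDeg d c}) := by
    rw [Finsupp.supported_inter]
    exact ⟨hz, hz'⟩
  refine supported_le (res f d) _ (degen X S d) (fun c hc => ?_) h
  obtain ⟨hc, i, hi, hc'⟩ := hc
  rw [res_single]
  refine Finsupp.single_mem_supported ℤ _
    ⟨⟨f.continuous.comp (c.continuous.comp (continuous_ext d)), fun s => hc _⟩, ⟨i, hi⟩,
      fun s s' hs => ?_⟩
  change f (c (ext d s)) = f (c (ext d s'))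
  congr 1
  refine hc' _ _ fun j hj => ?_
  unfold Pool.Agent.Helper76.Freq.ext
  split_ifs with h
  · exact hs _ fun hh => hj (congrArg Fin.val hh)
  · rfl

theorem mem_univ_supported (f : C(Y, X)) (z : QC Y) :
    z ∈ Finsupp.supported ℤ ℤ {c : C(Q, Y) | ∀ x, f (c x) ∈ (Set.univ : Set X)} := by
  rw [Finsupp.mem_supported]
  intro c _ x
  exact Set.mem_univ _

theorem ext_tr (d : ℕ) (s : Fin d → unitInterval) : tr d (ext d s) = ext d s := by
  funext j
  unfold tr
  split_ifs with h
  · rfl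
  · unfold Pool.Agent.Helper76.Freq.ext
    rw [dif_neg h]

theorem res_trunc (f : C(Y, X)) (d : ℕ) (z : QC Y) : res f d (trunc d z) = res f d z := by
  have : (res f d).comp (trunc d) = res f d := by
    refine lin_ext fun c => ?_
    rw [LinearMap.comp_apply, trunc_single, res_single, res_single]
    congr 1
    funext s
    rw [trC_apply, ext_tr]
  exact LinearMap.congr_fun this z

theorem res_nul (f : C(Y, X)) (d : ℕ) {z : QC Y} (hz : z ∈ nul (Y := Y) d) :
    res f d z ∈ degen X Set.univ d := by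
  rw [← res_trunc]
  exact res_mem_degen f d Set.univ (mem_univ_supported f _) hz

/-- the image of a cycle is a cycle -/
theorem res_mem_cycles (f : C(Y, X)) (d : ℕ) {z : QC Y} (hz : bd (d + 1) z ∈ nul (Y := Y) d) :
    res f (d + 1) z ∈ cycles X Set.univ (d + 1) := by
  refine ⟨res_mem_chains f (d + 1) Set.univ (mem_univ_supported f _), ?_⟩
  change bdry X d (res f (d + 1) z) ∈ degen X Set.univ d
  rw [bdry_res]
  exact res_nul f d hz

/-- the image of a null-homologous chain is a boundary -/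
theorem res_HZ (f : C(Y, X)) (d : ℕ) {z : QC Y} (hz : z ∈ HZ (Y := Y) d) :
    res f d z ∈ bounds X Set.univ d := by
  unfold HZ at hz
  rw [Submodule.mem_sup] at hz
  obtain ⟨w', ⟨w, rfl⟩, n, hn, rfl⟩ := hz
  rw [map_add, ← bdry_res]
  exact Submodule.add_mem_sup ⟨_, res_mem_chains f (d + 1) Set.univ (mem_univ_supported f _), rfl⟩
    (res_nul f d hn)

theorem face_supported {S : Set Y} {d : ℕ} {z : QC Y}
    (hz : z ∈ Finsupp.supported ℤ ℤ {c : C(Q, Y) | ∀ x, c x ∈ S}) :
    bd d z ∈ Finsupp.supported ℤ ℤ {c : C(Q, Y) | ∀ x, c x ∈ S} :=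
  bd_inA' (A := S) hz

/-- cycles in a subspace -/
theorem res_mem_cycles' (f : C(Y, X)) (d : ℕ) (S : Set X) {z : QC Y}
    (hz : z ∈ Finsupp.supported ℤ ℤ {c : C(Q, Y) | ∀ x, f (c x) ∈ S})
    (hz' : bd (d + 1) z ∈ deg (Y := Y) d) : res f (d + 1) z ∈ cycles X S (d + 1) := by
  refine ⟨res_mem_chains f (d + 1) S hz, ?_⟩
  change bdry X d (res f (d + 1) z) ∈ degen X S d
  rw [bdry_res]
  exact res_mem_degen f d S (face_supported (S := f ⁻¹' S) hz) hz'

/-- cycles in a subspace, negligible boundary -/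
theorem res_mem_cycles'' (f : C(Y, X)) (d : ℕ) (S : Set X) {z : QC Y}
    (hz : z ∈ Finsupp.supported ℤ ℤ {c : C(Q, Y) | ∀ x, f (c x) ∈ S})
    (hz' : bd (d + 1) z ∈ nul (Y := Y) d) : res f (d + 1) z ∈ cycles X S (d + 1) := by
  refine ⟨res_mem_chains f (d + 1) S hz, ?_⟩
  change bdry X d (res f (d + 1) z) ∈ degen X S d
  rw [bdry_res, ← res_trunc]
  refine res_mem_degen f d S ?_ hz'
  have h1 := face_supported (S := f ⁻¹' S) (d := d + 1) hz
  refine supported_le (trunc d) {c : C(Q, Y) | ∀ x, c x ∈ f ⁻¹' S}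
    (Finsupp.supported ℤ ℤ {c : C(Q, Y) | ∀ x, f (c x) ∈ S}) (fun c hc => ?_) h1
  rw [trunc_single]
  exact Finsupp.single_mem_supported ℤ _ fun x => hc _

end

/-! ## the class -/

/-- loops with constant `H` -/
def IsLev (γ : CL 4) : Prop := ∀ t t', Hf (γ.pos t) = Hf (γ.pos t')

theorem isLev_LL {Z : Type*} [TopologicalSpace Z] (v a b : Z → R3) (s : Z → ℝ)
    (hv : Continuous v) (ha : Continuous a) (hb : Continuous b) (hs : Continuous s)
    (h : ∀ z, Good (v z, a z, b z, s z)) (z : Z) : IsLev (LL v a b s hv ha hb hs h z) := by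
  intro t t'
  rw [LL_pos, LL_pos]
  obtain ⟨h1, h2, h3, -, h5⟩ := h z
  rw [Hf_lp h1 h2 h3 h5, Hf_lp h1 h2 h3 h5]

end Pool.Agent.Helper50.Drop
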